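import Pool.Agent.H89.TUB.Cnt

/-!
# A closed leaf behind a chart, with closed labels of the position

`core3`: as `core`, but the position may have closed labels `L` (of any degree, in any order `τ` of
the coordinates) which are better than the chart; the position is full behind these labels. If the
total gain of the labels is small with respect to `m`, the leaf is known from the exact point on the
cells of depth `m`.
-/

set_option autoImplicit false

namespace Pool.TUB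

open Finset Real MvPolynomial
open Pool.Agent.H49.Ent Pool.Agent.H32.Dense Pool.STK Pool.KA Pool.KSAT Pool.K2S Pool.STAT
open Pool.BFL (Pb)
open Pool.MIC.Frm (nat pt)

/-- The chart of a cell. -/
noncomputable def shP (n m : ℕ) (g : ℕ → ℕ) (Ψ : ℕ → PN) (c : ℕ → ℤ) (i : ℕ) : PN :=
  if i < n then Ψ i + C ((((c i : ℝ) + 1 / 2) / 2 ^ m) / 2 ^ g i) else Ψ i

/-- The precisions of a cell. -/
def gP (n m : ℕ) (g : ℕ → ℕ) (i : ℕ) : ℕ := if i < n then g i + m else g i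

section cell

variable {n m : ℕ} {g : ℕ → ℕ} {Ψ : ℕ → PN} {c : ℕ → ℤ}

theorem nat_shP (b : ℕ → ℝ) {i : ℕ} (hi' : i < n) :
    nat (gP n m g) (shP n m g Ψ c) b i = 2 ^ m * nat g Ψ b i - c i - 1 / 2 := by
  unfold nat gP shP
  rw [if_pos hi', if_pos hi', map_add, eval_C, pow_add]
  field_simp
  ring

theorem nat_shP' (b : ℕ → ℝ) {i : ℕ} (hi' : n ≤ i) :
    nat (gP n m g) (shP n m g Ψ c) b i = nat g Ψ b i := by
  unfold nat gP shP
  rw [if_neg (by omega), if_neg (by omega)]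

theorem shP_tri (hΨ : TriN Ψ) : TriN (shP n m g Ψ c) := by
  intro i
  unfold shP
  split_ifs with h
  · refine (vars_add_subset _ _).trans (Finset.union_subset (hΨ i) ?_)
    rw [vars_C]
    exact Finset.empty_subset _
  · exact hΨ i

theorem shP_deg {K : ℕ} (hK : ∀ i, (Ψ i).totalDegree ≤ K) (i : ℕ) :
    (shP n m g Ψ c i).totalDegree ≤ K := by
  unfold shP
  split_ifs with h
  · refine (totalDegree_add _ _).trans (max_le (hK i) ?_)
    rw [totalDegree_C]
    exact Nat.zero_le _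
  · exact hK i

end cell

theorem Pe_le_sum {Ω : Type} [Fintype Ω] {p : Ω → ℝ} (hp : IsLaw p) {A : Ω → Prop} (m : ℕ)
    (G : ℕ → Ω → Prop) (h : ∀ ω, 0 < p ω → A ω → ∃ i < m, G i ω) :
    Pe p A ≤ ∑ i ∈ range m, Pe p (G i) := by
  classical
  have e : ∀ A : Ω → Prop, Pe p A = ∑ ω, if A ω then p ω else 0 := fun A => by
    rw [Pe_eq]
  simp only [e]
  rw [Finset.sum_comm]
  refine Finset.sum_le_sum fun ω _ => ?_
  by_cases hA : A ω
  · rw [if_pos hA]
    rcases (hp.nonneg ω).eq_or_lt with h0 | h0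
    · rw [← h0]
      simp
    · obtain ⟨i, hi', hG⟩ := h ω h0 hA
      have h3 := Finset.single_le_sum (f := fun i => if G i ω then p ω else 0)
        (s := range m) (fun j _ => by split_ifs <;> [exact h0.le; exact le_rfl])
        (mem_range.2 hi')
      simp only [hG, if_true] at h3
      exact h3
  · rw [if_neg hA]
    refine Finset.sum_nonneg fun j _ => ?_
    split_ifs
    · exact hp.nonneg ω
    · exact le_rfl

/-- **A closed leaf behind a chart is known from the exact point**, with closed labels of the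
position. -/
theorem core4 (n K : ℕ) (hn : 1 ≤ n) (R₀ : ℝ) {η : ℝ} (hη : 0 < η) (hη1 : η ≤ 1) :
    ∃ κ₁ : ℝ, 0 < κ₁ ∧ κ₁ ≤ 1 ∧ ∀ κ : ℝ, 0 < κ → κ ≤ κ₁ → ∀ K₁ : ℕ, ∃ X₀ : ℕ,
    ∀ {Ω Ρ Γ Τ : Type} [Fintype Ω] {p : Ω → ℝ}, IsLaw p →
      ∀ (X m J : ℕ) (ρ : Ω → Ρ) (y : Ω → Γ) (W : Ω → Τ) (g : ℕ → ℕ) (Ψ : Ω → ℕ → PN)
        (Q : Ω → PN) (Dg : Ω → ℕ → ℤ) (τ s : ℕ → ℕ) (L : Ω → ℕ → PN) (δ : ℝ), X₀ ≤ X →
      Det p y W → Det p W Ψ → Det p y Q → Det p y L → Det p ρ W → Det p ρ (lo (n + 1) Dg) →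
      (∀ ω, 0 < p ω → TriN (Ψ ω)) → (∀ ω, 0 < p ω → ∀ i, (Ψ ω i).totalDegree ≤ K) →
      (∀ ω, 0 < p ω → (Q ω).vars ⊆ range n) → (∀ ω, 0 < p ω → (Q ω).totalDegree ≤ K) →
      (∀ ω, 0 < p ω → ∀ j < n, (L ω j).vars ⊆ range n) →
      (∀ ω, 0 < p ω → ∀ j < n, (L ω j).totalDegree ≤ K₁) →
      (∀ j < n, τ j < n) → (∀ l < n, ∃ j < n, τ j = l) →
      (∀ ω, 0 < p ω → ∀ j < n, ∀ b b' : ℕ → ℝ, (∀ k < j, b (τ k) = b' (τ k)) →
        eval b (L ω j) = eval b' (L ω j)) →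
      (∀ l < n, g l + m + X + 1 ≤ J) → (∀ j < n, s j ≤ J) →
      (∀ ω, 0 < p ω → ∀ i ≤ n, |nat g (Ψ ω) (gx J (Dg ω)) i| ≤ 1) →
      (∀ ω, 0 < p ω → ∀ j < n, |gx J (Dg ω) (τ j) - eval (gx J (Dg ω)) (L ω j)| ≤ 1 / 2 ^ s j) →
      (∀ ω, 0 < p ω → |gx J (Dg ω) n - eval (gx J (Dg ω)) (Q ω)| ≤ 1 / 2 ^ (g n + X)) →
      0 ≤ δ → ∑ j ∈ range n, (s j : ℝ) - ∑ l ∈ range n, (g l : ℝ) ≤ δ →
      16 * (n : ℝ) ^ 2 * (δ + κ * X) ≤ η * m →
      (∑ j ∈ range n, ((J : ℝ) - s j)) * Real.log 2 - κ * X ≤ CH p (lo n Dg) y →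
      CH p (fun ω => ⌊(2 : ℝ) ^ X * nat g (Ψ ω) (gx J (Dg ω)) n⌋) (fun ω => (lo n Dg ω, W ω)) ≤
        (1 - η) * (X * Real.log 2) →
      ∃ U : Ρ → PN, (∀ v, (U v).vars ⊆ range n ∧
          (U v).totalDegree ≤ K + n * (K * (K + 1) ^ n * (K + 1))) ∧
        η / 32 ≤ Pe p (fun ω => ∀ b : ℕ → ℝ,
          (∀ i < n, |nat g (Ψ ω) b i - nat g (Ψ ω) (gx J (Dg ω)) i| ≤ R₀ / 2 ^ m) →
          |eval b (U (ρ ω)) - eval b (Q ω)| ≤ 1 / 2 ^ (g n + ⌊η / 64 * X⌋₊)) := by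
  classical
  obtain ⟨κ₀, X₁, hκ₀, hκ₁, hcore⟩ := core n K (R₀ + 1) (half_pos hη) (by linarith)
  refine ⟨κ₀ / 16, by positivity, by linarith, fun κ hκ0 hκ K₁ => ?_⟩
  obtain ⟨C, hC, hkfr⟩ := kfr n K (max K₁ 1) 1 zero_le_one
  obtain ⟨M₀, hM₀⟩ : ∃ M₀ : ℝ, M₀ = 4 * (n * Real.log 5) + 2 * Real.log 2 +
    n * Real.log (2 * (2 * C + 5)) + n * Real.log 9 + C := ⟨_, rfl⟩
  have hl5 : 0 ≤ Real.log 5 := Real.log_nonneg (by norm_num)
  have hl9 : 0 ≤ Real.log 9 := Real.log_nonneg (by norm_num)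
  have hl2 : 0 ≤ Real.log 2 := Real.log_nonneg (by norm_num)
  have hl21 : Real.log 2 ≤ 1 := by
    have := Real.log_two_lt_d9
    linarith
  have hlC : 0 ≤ Real.log (2 * (2 * C + 5)) := Real.log_nonneg (by linarith)
  have hn0 : (1 : ℝ) ≤ n := by exact_mod_cast hn
  have hn5 : 0 ≤ (n : ℝ) * Real.log 5 := by positivity
  have hnC : 0 ≤ (n : ℝ) * Real.log (2 * (2 * C + 5)) := by positivity
  have hn9 : 0 ≤ (n : ℝ) * Real.log 9 := by positivity
  obtain ⟨X₂, hX₂⟩ := exists_nat_ge (M₀ / κ)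
  refine ⟨max X₁ X₂, ?_⟩
  intro Ω Ρ Γ Τ _ p hp X m J ρ y W g Ψ Q Dg τ s L δ hX dyW dWΨ dyQ dyL dρW dρD tΨ gΨ vQ gQ vL gL
    hτn hτ hLd hgJ hsJ hx hL hQ hδ0 hδ hm hful hrate
  have hX1 : X₁ ≤ X := (le_max_left _ _).trans hX
  have hX2 : M₀ ≤ κ * X := by
    have h1 : (X₂ : ℝ) ≤ X := by exact_mod_cast (le_max_right _ _).trans hX
    have h2 := hX₂.trans h1
    rw [div_le_iff₀ hκ0] at h2
    linarith
  have hX0 : (0 : ℝ) ≤ X := Nat.cast_nonneg X
  have hκX : 0 ≤ κ * X := by positivity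
  have dyΨ : Det p y Ψ := fun ω ω' a b h => dWΨ ω ω' a b (dyW ω ω' a b h)
  have hCX : C ≤ κ * X := by
    refine le_trans ?_ hX2
    rw [hM₀]
    linarith
  -- the defect of the position in the chart
  have hδ' : (∑ l ∈ range n, ((J : ℝ) - g l)) * Real.log 2 - (δ + κ * X) ≤ CH p (lo n Dg) y := by
    refine le_trans ?_ hful
    rw [Finset.sum_sub_distrib, Finset.sum_sub_distrib]
    have h1 : (∑ j ∈ range n, (s j : ℝ) - ∑ l ∈ range n, (g l : ℝ)) * Real.log 2 ≤ δ := by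
      have h2 := mul_le_mul_of_nonneg_right hδ hl2
      have h3 : δ * Real.log 2 ≤ δ := by nlinarith
      linarith
    linarith
  -- the good event
  obtain ⟨Bd, hBd⟩ : ∃ Bd : ℕ → Ω → Prop, Bd = fun j ω => ¬ ∀ b : ℕ → ℝ,
    (∀ l < n, |nat g (Ψ ω) b l - nat g (Ψ ω) (gx J (Dg ω)) l| ≤ 1 / 2 ^ m) →
      |eval b (MvPolynomial.X (τ j) - L ω j)| ≤ C * (1 / 2 ^ s j) := ⟨_, rfl⟩
  obtain ⟨G, hG⟩ : ∃ G : Ω → Prop, G = fun ω => ∀ j < n, ¬ Bd j ω := ⟨_, rfl⟩
  have hmR : (0 : ℝ) ≤ m := Nat.cast_nonneg m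
  have hCm : C ≤ m := by
    have h1 : (1 : ℝ) ≤ (n : ℝ) ^ 2 := one_le_pow₀ hn0
    have h2 : κ * X ≤ m := by nlinarith
    linarith
  have hm0 : (0 : ℝ) < m := by linarith
  have hBj : ∀ j < n, Pe p (Bd j) * m ≤ 4 * n * (δ + κ * X + C) := by
    intro j hj
    rw [hBd]
    refine hkfr hp m J y g Ψ Dg (fun ω => MvPolynomial.X (τ j) - L ω j) (δ + κ * X) (1 / 2 ^ s j) dyΨ ?_ tΨ gΨ
      ?_ ?_ (fun l hl => ?_) (fun ω hω l hl => hx ω hω l hl.le) ?_ (by linarith) hCm hδ'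
    · intro ω ω' a b hh
      have h1 : L ω = L ω' := dyL ω ω' a b hh
      simp only
      rw [h1]
    · intro ω hω
      refine AdxRow.vars_sub_le ?_ (vL ω hω j hj)
      rw [vars_X]
      intro k hk
      rw [Finset.mem_singleton.1 hk]
      exact mem_range.2 (hτn j hj)
    · intro ω hω
      refine (totalDegree_sub _ _).trans (max_le ?_ ((gL ω hω j hj).trans (le_max_left _ _)))
      rw [totalDegree_X]
      exact le_max_right _ _
    · have := hgJ l hl
      omega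
    · intro ω hω
      rw [map_sub, eval_X]
      exact hL ω hω j hj
  have hbad : Pe p (fun ω => ¬ G ω) ≤ η / 2 := by
    have h1 := Pe_le_sum hp (A := fun ω => ¬ G ω) n Bd (fun ω _ hh => by
      rw [hG] at hh
      push Not at hh
      obtain ⟨j, hj, h2⟩ := hh
      exact ⟨j, hj, h2⟩)
    have h2 : (∑ j ∈ range n, Pe p (Bd j)) * m ≤ n * (4 * n * (δ + κ * X + C)) := by
      rw [Finset.sum_mul]
      have h3 := Finset.sum_le_card_nsmul (range n) _ _ fun j hj => hBj j (mem_range.1 hj)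
      rwa [card_range, nsmul_eq_mul] at h3
    have h3 : Pe p (fun ω => ¬ G ω) * m ≤ η / 2 * m := by
      have h4 : (n : ℝ) * (4 * n * (δ + κ * X + C)) ≤ 8 * (n : ℝ) ^ 2 * (δ + κ * X) := by
        have h5 : δ + κ * X + C ≤ 2 * (δ + κ * X) := by linarith
        have h6 : (0 : ℝ) ≤ 4 * (n : ℝ) ^ 2 := by positivity
        have h7 := mul_le_mul_of_nonneg_left h5 h6
        nlinarith
      have h8 := mul_le_mul_of_nonneg_right h1 hm0.le
      linarith
    exact le_of_mul_le_mul_right h3 hm0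
  have hcmp := Pe_compl hp G
  have hG1 : 1 - η / 2 ≤ Pe p G := by linarith
  have hG2 : 1 / 2 ≤ Pe p G := by linarith
  have hG0 : 0 < Pe p G := by linarith
  obtain ⟨p', hp'⟩ : ∃ p', p' = Pool.Agent.H49.Ent.cond p G True := ⟨_, rfl⟩
  have hp'l : IsLaw p' := by rw [hp']; exact isLaw_cond hp hG0
  have hp'1 : ∀ ω, 0 < p' ω → 0 < p ω ∧ G ω := by
    intro ω hω
    rw [hp'] at hω
    have := (cond_pos_iff hp.nonneg G True ω).1 hω
    exact ⟨this.1, of_eq_true this.2⟩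
  have hp'0 : ∀ ω, 0 < p' ω → 0 < p ω := fun ω hω => (hp'1 ω hω).1
  have hDet : ∀ {S T : Type} {A : Ω → S} {B : Ω → T}, Det p A B → Det p' A B :=
    fun h ω ω' a b => h ω ω' (hp'0 ω a) (hp'0 ω' b)
  -- fullness behind the labels on the good event
  have hful' : (∑ j ∈ range n, ((J : ℝ) - s j)) * Real.log 2 -
      (4 * (κ * X + n * Real.log 5) + 2 * Real.log 2) ≤ CH p' (lo n Dg) y := by
    rw [hp']
    refine ful_sub hp hG2 (lo n Dg) y (by positivity) (fun q hq hq0 => ?_) (by linarith)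
    have h1 := seq_up hq (fun ω j => Dg ω (τ j)) y 0
      (fun j => ((J : ℝ) - s j) * Real.log 2 + Real.log 5) n (Nat.zero_le _) fun j _ hj => by
        refine (CH_le_dig hq (fun ω => Dg ω (τ j)) _ (L := 2 * 2 ^ (J - s j))
          fun ω ω' a b hh => ?_).trans ?_
        · have e1 := Prod.ext_iff.1 hh
          have e2 : L ω = L ω' := dyL ω ω' (hq0 ω a) (hq0 ω' b) e1.2
          have e3 : eval (gx J (Dg ω)) (L ω j) = eval (gx J (Dg ω')) (L ω' j) := by
            rw [← e2]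
            refine hLd ω (hq0 ω a) j hj _ _ fun k hk => ?_
            have e4 : Dg ω (τ k) = Dg ω' (τ k) := lo_eq (X := fun ω j => Dg ω (τ j)) e1.1 hk
            unfold gx
            rw [e4]
          have e5 := abs_le.1 (hL ω (hq0 ω a) j hj)
          have e6 := abs_le.1 (hL ω' (hq0 ω' b) j hj)
          rw [← e3] at e6
          have e7 : |gx J (Dg ω) (τ j) - gx J (Dg ω') (τ j)| ≤ 2 * (1 / 2 ^ s j) := by
            rw [abs_le]
            constructor <;> linarith [e5.1, e5.2, e6.1, e6.2]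
          have e8 : gx J (Dg ω) (τ j) - gx J (Dg ω') (τ j) =
              ((Dg ω (τ j) - Dg ω' (τ j) : ℤ) : ℝ) / 2 ^ J := by
            unfold gx
            push_cast
            ring
          rw [e8, abs_div, abs_of_pos (by positivity : (0 : ℝ) < 2 ^ J),
            div_le_iff₀ (by positivity)] at e7
          refine e7.trans (le_of_eq ?_)
          have e9 : (2 : ℝ) ^ J = 2 ^ (J - s j) * 2 ^ s j := by
            rw [← pow_add]
            congr 1
            have := hsJ j hj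
            omega
          rw [e9]
          field_simp
        · have p1 : (1 : ℝ) ≤ 2 ^ (J - s j) := one_le_pow₀ (by norm_num)
          have e5 : Real.log (2 * (2 * 2 ^ (J - s j)) + 1) ≤ Real.log (5 * 2 ^ (J - s j)) :=
            Real.log_le_log (by positivity) (by linarith)
          rw [log_pow_le (by norm_num), Nat.cast_sub (hsJ j hj)] at e5
          exact e5
    rw [Nat.Ico_zero_eq_range] at h1
    have h2 : CH q (lo n Dg) y ≤ CH q (lo n (fun ω j => Dg ω (τ j)))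
        (fun ω => (lo 0 (fun ω j => Dg ω (τ j)) ω, y ω)) := by
      refine (CH_mono_left hq.nonneg fun ω ω' _ _ hh => ?_).trans
        (CH_mono_cond hq.nonneg fun ω ω' _ _ hh => ?_)
      · have e1 := (Prod.ext_iff.1 hh).1
        refine lo_ext fun l hl => ?_
        obtain ⟨j, hj, rfl⟩ := hτ l hl
        exact lo_eq (X := fun ω j => Dg ω (τ j)) e1 hj
      · exact Prod.ext (lo_ext (X := fun ω j => Dg ω (τ j)) (ω := ω) (ω' := ω')
          fun l hl => absurd hl (Nat.not_lt_zero _)) hh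
    refine h2.trans (h1.trans ?_)
    rw [Finset.sum_add_distrib, ← Finset.sum_mul, Finset.sum_const, card_range, nsmul_eq_mul]
    linarith
  -- the entropy of the cells
  obtain ⟨c, hc⟩ : ∃ c : Ω → ℕ → ℤ, c = lo n (cd m J g Ψ Dg) := ⟨_, rfl⟩
  have hcl : ∀ ω, ∀ l < n, c ω l = ⌊(2 : ℝ) ^ m * nat g (Ψ ω) (gx J (Dg ω)) l⌋ := by
    intro ω l hl
    rw [hc]
    unfold lo cd
    rw [if_pos hl]
  have hcell : CH p' c y ≤
      (n * m - (∑ j ∈ range n, (s j : ℝ) - ∑ l ∈ range n, (g l : ℝ))) * Real.log 2 +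
        n * Real.log (2 * (2 * C + 5)) := by
    rw [hc]
    refine cell_ent hp'l hC (hDet dyΨ) (hDet dyL) (fun ω hω => tΨ ω (hp'0 ω hω))
      (fun l hl => by have := hgJ l hl; omega) hsJ hτ (fun ω hω => hLd ω (hp'0 ω hω))
      fun ω hω j hj b hb => ?_
    obtain ⟨h1, h2⟩ := hp'1 ω hω
    rw [hG] at h2
    have h3 := h2 j hj
    rw [hBd] at h3
    have h4 := (not_not.1 h3) b hb
    rwa [map_sub, eval_X] at h4
  -- the leaf in the cells
  have hdc : ∀ {ω ω' : Ω}, 0 < p ω → 0 < p ω' → W ω = W ω' → lo n Dg ω = lo n Dg ω' →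
      ∀ i < n, nat g (Ψ ω) (gx J (Dg ω)) i = nat g (Ψ ω') (gx J (Dg ω')) i := by
    intro ω ω' h0 h0' h1 h2 i hi'
    have h3 : Ψ ω = Ψ ω' := dWΨ ω ω' h0 h0' h1
    rw [h3]
    refine nat_congr (tΨ ω' h0') fun k hk => ?_
    unfold gx
    rw [lo_eq h2 (lt_of_le_of_lt hk hi')]
  have hcn : ∀ ω, 0 < p ω → ∀ i < n,
      |nat (gP n m g) (shP n m g (Ψ ω) (c ω)) (gx J (Dg ω)) i| ≤ 1 / 2 := by
    intro ω hω i hi'
    rw [nat_shP _ hi', hcl ω i hi']
    have g1 := Int.floor_le ((2 : ℝ) ^ m * nat g (Ψ ω) (gx J (Dg ω)) i)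
    have g2 := Int.lt_floor_add_one ((2 : ℝ) ^ m * nat g (Ψ ω) (gx J (Dg ω)) i)
    rw [abs_le]
    constructor <;> linarith
  obtain ⟨U, hU1, hU2⟩ := hcore hp'l X ρ (fun ω => (y ω, c ω)) (fun ω => (W ω, c ω)) (lo n Dg)
    (gP n m g) (fun ω => shP n m g (Ψ ω) (c ω)) Q (fun ω => gx J (Dg ω)) (fun ω => gx J (Dg ω))
    ((∑ l ∈ range n, ((J : ℝ) - g l - m)) * Real.log 2) hX1
    (fun ω ω' a b hh => by
      simp only [Prod.mk.injEq] at hh ⊢
      exact ⟨dyW ω ω' (hp'0 ω a) (hp'0 ω' b) hh.1, hh.2⟩)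
    (fun ω ω' a b hh => by
      simp only [Prod.mk.injEq] at hh ⊢
      have h1 : Ψ ω = Ψ ω' := dWΨ ω ω' (hp'0 ω a) (hp'0 ω' b) hh.1
      rw [h1, hh.2])
    (fun ω ω' a b hh => by
      simp only [Prod.mk.injEq] at hh
      exact dyQ ω ω' (hp'0 ω a) (hp'0 ω' b) hh.1)
    (fun ω ω' a b hh => by
      have h1 : W ω = W ω' := dρW ω ω' (hp'0 ω a) (hp'0 ω' b) hh
      have h2 : lo (n + 1) Dg ω = lo (n + 1) Dg ω' := dρD ω ω' (hp'0 ω a) (hp'0 ω' b) hh
      have h3 : lo n Dg ω = lo n Dg ω' := lo_ext fun l hl => lo_eq h2 (by omega)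
      refine Prod.ext h1 ?_
      show c ω = c ω'
      rw [hc]
      refine lo_ext fun l hl => ?_
      unfold cd
      rw [hdc (hp'0 ω a) (hp'0 ω' b) h1 h3 l hl])
    (fun ω ω' a b hh => by
      have h2 : lo (n + 1) Dg ω = lo (n + 1) Dg ω' := dρD ω ω' (hp'0 ω a) (hp'0 ω' b) hh
      exact lo_ext fun l hl => lo_eq h2 (by omega))
    (fun ω ω' a b hh => by
      have h1 : W ω = W ω' := dρW ω ω' (hp'0 ω a) (hp'0 ω' b) hh
      have h2 : lo (n + 1) Dg ω = lo (n + 1) Dg ω' := dρD ω ω' (hp'0 ω a) (hp'0 ω' b) hh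
      have h3 : Ψ ω = Ψ ω' := dWΨ ω ω' (hp'0 ω a) (hp'0 ω' b) h1
      simp only
      rw [nat_shP' _ le_rfl, nat_shP' _ le_rfl, h3]
      refine nat_congr (tΨ ω' (hp'0 ω' b)) fun k hk => ?_
      unfold gx
      rw [lo_eq h2 (by omega)])
    (fun ω ω' a b hh => by
      simp only [Prod.mk.injEq] at hh
      obtain ⟨h1, h2, h3⟩ := hh
      simp only
      funext i
      unfold cu
      rw [nat_shP _ i.2, nat_shP _ i.2, hdc (hp'0 ω a) (hp'0 ω' b) h2 h1 i i.2, h3])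
    (fun ω hω => shP_tri (tΨ ω (hp'0 ω hω)))
    (fun ω hω i => shP_deg (gΨ ω (hp'0 ω hω)) i)
    (fun ω hω => vQ ω (hp'0 ω hω)) (fun ω hω => gQ ω (hp'0 ω hω))
    (fun ω hω i hi' => by
      rcases Nat.lt_or_ge i n with h | h
      · exact (hcn ω (hp'0 ω hω) i h).trans (by norm_num)
      · rw [nat_shP' _ h]
        exact hx ω (hp'0 ω hω) i hi')
    (fun ω hω i hi' => (hcn ω (hp'0 ω hω) i hi').trans (by norm_num))
    (fun ω hω i hi' => by
      rw [sub_self, abs_zero]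
      positivity)
    (fun ω hω => by
      have e1 : gP n m g n = g n := if_neg (lt_irrefl n)
      rw [e1]
      exact hQ ω (hp'0 ω hω))
    (fun q hq hq0 d hd => by
      have h1 := seq_up hq Dg (fun ω => ((W ω, c ω), fun l : Fin n =>
          ⌊(2 : ℝ) ^ (d l) * cu n (gP n m g) (shP n m g (Ψ ω) (c ω)) (gx J (Dg ω)) l⌋)) 0
        (fun l => ((J : ℝ) - g l - m - (if h : l < n then (d ⟨l, h⟩ : ℝ) else 0)) * Real.log 2 +
          Real.log 9) n (Nat.zero_le _) fun l _ hl => by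
          have hgl := hgJ l hl
          have hdl := hd ⟨l, hl⟩
          rw [dif_pos hl]
          refine (CH_le_dig hq (fun ω => Dg ω l) _ (L := 4 * 2 ^ (J - g l - m - d ⟨l, hl⟩))
            fun ω ω' a b hh => ?_).trans ?_
          · simp only [Prod.mk.injEq] at hh
            obtain ⟨e1, ⟨e2, e3⟩, e4⟩ := hh
            have a' := hp'0 ω (hq0 ω a)
            have b' := hp'0 ω' (hq0 ω' b)
            have e5 : Ψ ω = Ψ ω' := dWΨ ω ω' a' b' e2
            have e6 := floor_near (congrFun e4 ⟨l, hl⟩)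
            unfold cu at e6
            simp only at e6
            rw [nat_shP _ hl, nat_shP _ hl, ← e3, ← e5, ← mul_sub, abs_mul,
              abs_of_pos (by positivity)] at e6
            have e7 : (2 ^ m * nat g (Ψ ω) (gx J (Dg ω)) l - (c ω l : ℝ) - 1 / 2 + 2) / 4 -
                (2 ^ m * nat g (Ψ ω) (gx J (Dg ω')) l - (c ω l : ℝ) - 1 / 2 + 2) / 4 =
                2 ^ m * (nat g (Ψ ω) (gx J (Dg ω)) l - nat g (Ψ ω) (gx J (Dg ω')) l) / 4 := by
              ring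
            rw [e7, abs_div, abs_mul, abs_of_pos (by positivity : (0 : ℝ) < 2 ^ m),
              abs_of_pos (by norm_num : (0 : ℝ) < 4)] at e6
            have e8 : |nat g (Ψ ω) (gx J (Dg ω)) l - nat g (Ψ ω) (gx J (Dg ω')) l| ≤
                4 / 2 ^ (m + d ⟨l, hl⟩) := by
              rw [le_div_iff₀ (by positivity), pow_add]
              nlinarith
            refine (dig_dist (tΨ ω a') (fun k hk => lo_eq e1 hk) e8 (by omega)).trans (le_of_eq ?_)
            have e9 : (2 : ℝ) ^ (J - g l) = 2 ^ (J - g l - m - d ⟨l, hl⟩) *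
                2 ^ (m + d ⟨l, hl⟩) := by
              rw [← pow_add]
              congr 1
              omega
            rw [e9]
            field_simp
          · have p1 : (1 : ℝ) ≤ 2 ^ (J - g l - m - d ⟨l, hl⟩) := one_le_pow₀ (by norm_num)
            have e5 : Real.log (2 * (4 * 2 ^ (J - g l - m - d ⟨l, hl⟩)) + 1) ≤
                Real.log (9 * 2 ^ (J - g l - m - d ⟨l, hl⟩)) :=
              Real.log_le_log (by positivity) (by linarith)
            rw [log_pow_le (by norm_num), Nat.cast_sub (by omega), Nat.cast_sub (by omega),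
              Nat.cast_sub (by omega)] at e5
            exact e5
      rw [Nat.Ico_zero_eq_range] at h1
      have h2 : CH q (lo n Dg) (fun ω => ((W ω, c ω), fun l : Fin n =>
          ⌊(2 : ℝ) ^ (d l) * cu n (gP n m g) (shP n m g (Ψ ω) (c ω)) (gx J (Dg ω)) l⌋)) ≤
          CH q (lo n Dg) (fun ω => (lo 0 Dg ω, ((W ω, c ω), fun l : Fin n =>
          ⌊(2 : ℝ) ^ (d l) * cu n (gP n m g) (shP n m g (Ψ ω) (c ω)) (gx J (Dg ω)) l⌋))) :=
        CH_mono_cond hq.nonneg fun ω ω' _ _ hh => Prod.ext (lo_ext (X := Dg) (ω := ω) (ω' := ω')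
          fun l hl => absurd hl (Nat.not_lt_zero _)) hh
      refine h2.trans (h1.trans ?_)
      rw [Finset.sum_add_distrib, ← Finset.sum_mul, Finset.sum_const, card_range, nsmul_eq_mul,
        Finset.sum_sub_distrib]
      have e1 : ∑ l ∈ range n, (if h : l < n then (d ⟨l, h⟩ : ℝ) else 0) = ∑ l : Fin n, (d l : ℝ) := by
        rw [Finset.sum_range]
        refine Finset.sum_congr rfl fun l _ => ?_
        rw [dif_pos l.2]
      rw [e1]
      have e2 : (n : ℝ) * Real.log 9 ≤ κ₀ * X := by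
        have e3 : (n : ℝ) * Real.log 9 ≤ M₀ := by
          rw [hM₀]
          linarith
        have e4 : κ * X ≤ κ₀ * X := by
          refine mul_le_mul_of_nonneg_right ?_ hX0
          linarith
        linarith
      linarith)
    (by
      have h1 := CH_le_add hp'l.nonneg (lo n Dg) c y
      have h2 : CH p' (lo n Dg) (fun ω => (c ω, y ω)) ≤ CH p' (lo n Dg) (fun ω => (y ω, c ω)) :=
        CH_mono_cond hp'l.nonneg fun ω ω' _ _ hh => by
          simp only [Prod.mk.injEq] at hh ⊢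
          exact ⟨hh.2, hh.1⟩
      have h3 : ∑ l ∈ range n, ((J : ℝ) - g l - m) =
          n * J - ∑ l ∈ range n, (g l : ℝ) - n * m := by
        rw [Finset.sum_sub_distrib, Finset.sum_sub_distrib, Finset.sum_const, Finset.sum_const,
          card_range, nsmul_eq_mul, nsmul_eq_mul]
      have h4 : ∑ j ∈ range n, ((J : ℝ) - s j) = n * J - ∑ j ∈ range n, (s j : ℝ) := by
        rw [Finset.sum_sub_distrib, Finset.sum_const, card_range, nsmul_eq_mul]
      rw [h4] at hful'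
      rw [h3]
      have h5 : 16 * (κ * X) ≤ κ₀ * X := by
        have := mul_le_mul_of_nonneg_right hκ hX0
        linarith
      rw [hM₀] at hX2
      linarith)
    (by
      have h1 := rate_sub hp hη.le hη1 hG1
        (fun ω => ⌊(2 : ℝ) ^ X * nat g (Ψ ω) (gx J (Dg ω)) n⌋) (fun ω => (lo n Dg ω, W ω))
        (by positivity) hrate
      rw [← hp'] at h1
      have h2 : CH p' (fun ω => ⌊(2 : ℝ) ^ X * nat (gP n m g) (shP n m g (Ψ ω) (c ω))
          (gx J (Dg ω)) n⌋) (fun ω => (lo n Dg ω, (W ω, c ω))) ≤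
          CH p' (fun ω => ⌊(2 : ℝ) ^ X * nat g (Ψ ω) (gx J (Dg ω)) n⌋)
            (fun ω => (lo n Dg ω, W ω)) := by
        have e1 : (fun ω => ⌊(2 : ℝ) ^ X * nat (gP n m g) (shP n m g (Ψ ω) (c ω))
            (gx J (Dg ω)) n⌋) = fun ω => ⌊(2 : ℝ) ^ X * nat g (Ψ ω) (gx J (Dg ω)) n⌋ := by
          funext ω
          rw [nat_shP' _ le_rfl]
        rw [e1]
        refine CH_mono_cond hp'l.nonneg fun ω ω' _ _ hh => ?_
        simp only [Prod.mk.injEq] at hh ⊢
        exact ⟨hh.1, hh.2.1⟩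
      exact h2.trans h1)
  refine ⟨U, hU1, ?_⟩
  obtain ⟨E, hE⟩ : ∃ E : Ω → Prop, E = fun ω => ∀ b : ℕ → ℝ,
    (∀ i < n, |nat (gP n m g) (shP n m g (Ψ ω) (c ω)) b i| ≤ R₀ + 1) →
    |eval b (U (ρ ω)) - eval b (Q ω)| ≤ 1 / 2 ^ (gP n m g n + ⌊η / 2 / 32 * X⌋₊) := ⟨_, rfl⟩
  rw [← hE] at hU2
  have h1 : Pe p' E = Pe p (fun ω => G ω ∧ E ω) / Pe p G := by
    rw [hp']
    exact Pe_cond (p := p) (A := G) E
  have h2 : η / 2 / 8 * Pe p G ≤ Pe p (fun ω => G ω ∧ E ω) := by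
    rw [h1, le_div_iff₀ hG0] at hU2
    exact hU2
  have h3 : η / 32 ≤ η / 2 / 8 * Pe p G := by nlinarith
  refine h3.trans (h2.trans ?_)
  rw [← Pb_Pe, ← Pb_Pe]
  refine Pool.MIC.Frm.Pb_supp hp.nonneg fun ω hω hh => ?_
  obtain ⟨-, h4⟩ := hh
  rw [hE] at h4
  intro b hb
  have h5 := h4 b fun i hi' => by
    have e1 := abs_le.1 (hcn ω hω i hi')
    rw [nat_shP _ hi'] at e1 ⊢
    have p0 : (0 : ℝ) < 2 ^ m := by positivity
    have e2 := abs_le.1 (hb i hi')
    have e3 := mul_le_mul_of_nonneg_left e2.2 p0.le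
    have e4 := mul_le_mul_of_nonneg_left e2.1 p0.le
    rw [mul_div_cancel₀ _ p0.ne'] at e3
    rw [mul_neg, mul_div_cancel₀ _ p0.ne'] at e4
    rw [abs_le]
    constructor <;> linarith [e1.1, e1.2]
  have e1 : gP n m g n = g n := if_neg (lt_irrefl n)
  have e2 : η / 2 / 32 * X = η / 64 * X := by ring
  rw [e1, e2] at h5
  exact h5

end Pool.TUB
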