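import Pool.Agent.H89.TUB.Core
import Pool.Agent.H95.GN.Lag

/-!
# Sequential counts and exceptional digits

`seq_up`: the entropy of an integer vector from the entropies of its coordinates, one after the
other. `bad_fin`: the digits of the points at which finitely many polynomials in one variable are
bounded, but not on an interval around the point, are in a set whose size is bounded by the degree.
`bad_prob`: an event on which few digits are possible is rare.
-/

set_option autoImplicit false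

namespace Pool.TUB

open Finset Real
open Pool.Agent.H49.Ent Pool.Agent.H32.Dense Pool.STK Pool.KA Pool.KSAT Pool.K2S
open Pool.BFL (Pb)

/-! ### One variable -/

/-- **The exceptional digits**: the polynomials `q k` are bounded by `B` at `s`, one of them is not at
a point `s'` near `s`. -/
theorem bad_fin (D : ℕ) {ι : Type} [Fintype ι] (q : ι → Polynomial ℝ)
    (hq : ∀ k, (q k).natDegree ≤ D) (B : ℝ) (m : ℕ) :
    ∃ S : Finset ℤ, S.card ≤ Fintype.card ι * ((D + D) * 5) ∧ ∀ s s' : ℝ, ∀ k,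
      |(q k).eval s| ≤ B → B < |(q k).eval s'| → |s' - s| ≤ 1 / 2 ^ m → ⌊(2 : ℝ) ^ m * s⌋ ∈ S := by
  classical
  obtain ⟨S, hS⟩ : ∃ S : Finset ℤ, S = Finset.univ.biUnion fun k : ι =>
    ((q k - Polynomial.C B).roots.toFinset ∪ (q k + Polynomial.C B).roots.toFinset).biUnion
      fun z => Finset.Icc (⌊(2 : ℝ) ^ m * z⌋ - 2) (⌊(2 : ℝ) ^ m * z⌋ + 2) := ⟨_, rfl⟩
  refine ⟨S, ?_, ?_⟩
  · rw [hS]
    refine (Finset.card_biUnion_le).trans ?_
    rw [← Finset.card_univ, ← smul_eq_mul]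
    refine Finset.sum_le_card_nsmul _ _ _ fun k _ => ?_
    refine (Finset.card_biUnion_le).trans ?_
    have h5 : ∀ z : ℝ, (Finset.Icc (⌊(2 : ℝ) ^ m * z⌋ - 2) (⌊(2 : ℝ) ^ m * z⌋ + 2)).card = 5 := by
      intro z
      rw [Int.card_Icc]
      have : ⌊(2 : ℝ) ^ m * z⌋ + 2 + 1 - (⌊(2 : ℝ) ^ m * z⌋ - 2) = 5 := by ring
      rw [this]
      rfl
    simp only [h5, Finset.sum_const, smul_eq_mul]
    refine Nat.mul_le_mul_right _ ((Finset.card_union_le _ _).trans (Nat.add_le_add ?_ ?_))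
    · refine (Multiset.toFinset_card_le _).trans ((Polynomial.card_roots' _).trans ?_)
      refine (Polynomial.natDegree_sub_le _ _).trans (max_le (hq k) ?_)
      rw [Polynomial.natDegree_C]
      exact Nat.zero_le _
    · refine (Multiset.toFinset_card_le _).trans ((Polynomial.card_roots' _).trans ?_)
      refine (Polynomial.natDegree_add_le _ _).trans (max_le (hq k) ?_)
      rw [Polynomial.natDegree_C]
      exact Nat.zero_le _
  · intro s s' k h1 h2 h3
    -- a root between the two points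
    have key : ∃ z : ℝ, z ∈ (q k - Polynomial.C B).roots.toFinset ∪
        (q k + Polynomial.C B).roots.toFinset ∧ |z - s| ≤ |s' - s| := by
      have hz : ∀ f : Polynomial ℝ, f.eval s' ≠ 0 →
          (0 : ℝ) ∈ Set.uIcc (f.eval s) (f.eval s') →
          ∃ z : ℝ, z ∈ f.roots.toFinset ∧ |z - s| ≤ |s' - s| := by
        intro f hf h0
        obtain ⟨z, hz1, hz2⟩ := intermediate_value_uIcc (a := s) (b := s')
          (f := fun t => f.eval t) f.continuous.continuousOn h0
        refine ⟨z, ?_, Set.abs_sub_left_of_mem_uIcc hz1⟩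
        rw [Multiset.mem_toFinset, Polynomial.mem_roots']
        refine ⟨fun h => hf (by rw [h, Polynomial.eval_zero]), hz2⟩
      rcases lt_abs.1 h2 with h | h
      · obtain ⟨z, hz1, hz2⟩ := hz (q k - Polynomial.C B) (by
          rw [Polynomial.eval_sub, Polynomial.eval_C]
          linarith) (by
          rw [Polynomial.eval_sub, Polynomial.eval_C, Polynomial.eval_sub, Polynomial.eval_C]
          rw [Set.mem_uIcc]
          left
          have := (abs_le.1 h1).2
          constructor <;> linarith)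
        exact ⟨z, Finset.mem_union_left _ hz1, hz2⟩
      · obtain ⟨z, hz1, hz2⟩ := hz (q k + Polynomial.C B) (by
          rw [Polynomial.eval_add, Polynomial.eval_C]
          linarith) (by
          rw [Polynomial.eval_add, Polynomial.eval_C, Polynomial.eval_add, Polynomial.eval_C]
          rw [Set.mem_uIcc]
          right
          have := (abs_le.1 h1).1
          constructor <;> linarith)
        exact ⟨z, Finset.mem_union_right _ hz1, hz2⟩
    obtain ⟨z, hz1, hz2⟩ := key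
    rw [hS, Finset.mem_biUnion]
    refine ⟨k, Finset.mem_univ _, ?_⟩
    rw [Finset.mem_biUnion]
    refine ⟨z, hz1, ?_⟩
    have p0 : (0 : ℝ) < 2 ^ m := by positivity
    have h4 : |(2 : ℝ) ^ m * s - 2 ^ m * z| ≤ 1 := by
      rw [← mul_sub, abs_mul, abs_of_pos p0, abs_sub_comm]
      calc (2 : ℝ) ^ m * |z - s| ≤ 2 ^ m * (1 / 2 ^ m) :=
            mul_le_mul_of_nonneg_left (hz2.trans h3) p0.le
        _ = 1 := by field_simp
    have h5 := floor_dist h4
    have h6 : |((⌊(2 : ℝ) ^ m * s⌋ - ⌊(2 : ℝ) ^ m * z⌋ : ℤ) : ℝ)| ≤ ((2 : ℤ) : ℝ) := by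
      push_cast at h5 ⊢
      linarith
    have h7 : |⌊(2 : ℝ) ^ m * s⌋ - ⌊(2 : ℝ) ^ m * z⌋| ≤ 2 := by exact_mod_cast h6
    have h8 := abs_le.1 h7
    rw [Finset.mem_Icc]
    constructor <;> linarith [h8.1, h8.2]

section masks

variable {Ω : Type}

/-- The first coordinates. -/
def lo (i : ℕ) (X : Ω → ℕ → ℤ) (ω : Ω) (l : ℕ) : ℤ := if l < i then X ω l else 0

/-- The coordinates from `i` on. -/
def hi (i n : ℕ) (X : Ω → ℕ → ℤ) (ω : Ω) (l : ℕ) : ℤ := if i ≤ l ∧ l < n then X ω l else 0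

theorem lo_eq {i l : ℕ} {X : Ω → ℕ → ℤ} {ω ω' : Ω} (h : lo i X ω = lo i X ω') (hl : l < i) :
    X ω l = X ω' l := by
  have h1 := congrFun h l
  unfold lo at h1
  rwa [if_pos hl, if_pos hl] at h1

theorem hi_eq {i n l : ℕ} {X : Ω → ℕ → ℤ} {ω ω' : Ω} (h : hi i n X ω = hi i n X ω') (hl : i ≤ l)
    (hn : l < n) : X ω l = X ω' l := by
  have h1 := congrFun h l
  unfold hi at h1
  rwa [if_pos ⟨hl, hn⟩, if_pos ⟨hl, hn⟩] at h1

theorem lo_ext {i : ℕ} {X : Ω → ℕ → ℤ} {ω ω' : Ω} (h : ∀ l < i, X ω l = X ω' l) :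
    lo i X ω = lo i X ω' := by
  funext l
  unfold lo
  split_ifs with hl
  · exact h l hl
  · rfl

theorem hi_ext {i n : ℕ} {X : Ω → ℕ → ℤ} {ω ω' : Ω} (h : ∀ l, i ≤ l → l < n → X ω l = X ω' l) :
    hi i n X ω = hi i n X ω' := by
  funext l
  unfold hi
  split_ifs with hl
  · exact h l hl.1 hl.2
  · rfl

end masks

section laws

variable {Ω S T U : Type} [Fintype Ω]

/-- The counting bound with one number. -/
theorem CH_le_N {p : Ω → ℝ} (hp : IsLaw p) (X : Ω → S) (W : Ω → T) (N : ℕ)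
    (h : ∀ ω₀, 0 < p ω₀ → ∃ F : Finset S, F.card ≤ N ∧
      ∀ ω, 0 < p ω → W ω = W ω₀ → X ω ∈ F) : CH p X W ≤ Real.log N := by
  classical
  have h1 : ∀ w : T, ∃ F : Finset S, F.card ≤ N ∧ ∀ ω, 0 < p ω → W ω = w → X ω ∈ F := by
    intro w
    by_cases hw : ∃ ω₀, 0 < p ω₀ ∧ W ω₀ = w
    · obtain ⟨ω₀, h2, h3⟩ := hw
      obtain ⟨F, h4, h5⟩ := h ω₀ h2
      exact ⟨F, h4, fun ω hω e => h5 ω hω (e.trans h3.symm)⟩
    · exact ⟨∅, by simp, fun ω hω e => absurd ⟨ω, hω, e⟩ hw⟩
  choose F hF1 hF2 using h1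
  refine (CH_le_card hp.nonneg hp.sum_one X W F fun ω hω => hF2 _ ω hω rfl).trans ?_
  rw [← Ex_const hp.sum_one (Real.log N)]
  refine Ex_mono hp.nonneg fun ω hω => ?_
  have h3 : 0 < (F (W ω)).card := Finset.card_pos.2 ⟨_, hF2 _ ω hω rfl⟩
  exact Real.log_le_log (by exact_mod_cast h3) (by exact_mod_cast hF1 _)

/-- **An event on which few values are possible is rare.** -/
theorem bad_prob {p : Ω → ℝ} (hp : IsLaw p) (B : Ω → Prop) (X : Ω → S) (Z : Ω → T) {a b V : ℝ}
    (h1 : a ≤ CH p X Z)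
    (h2 : ∀ q : Ω → ℝ, IsLaw q → (∀ ω, 0 < q ω → 0 < p ω) → CH q X Z ≤ V)
    (h3 : ∀ q : Ω → ℝ, IsLaw q → (∀ ω, 0 < q ω → 0 < p ω ∧ B ω) → CH q X Z ≤ b) :
    Pe p B * (V - b) ≤ V + Real.log 2 - a := by
  have h4 := Pool.OVN.CH_split hp (B := fun _ => True) (B' := B) (fun _ _ => trivial)
    (by rw [Pe_univ hp]; exact one_pos) X Z
  rw [cond_univ hp, Pe_univ hp] at h4
  have e : (fun ω => True ∧ ¬ B ω) = fun ω => ¬ B ω := by
    funext ω
    simp
  rw [e] at h4
  have hc := Pe_compl hp B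
  have hB0 := Pe_nonneg hp B
  have hN0 := Pe_nonneg hp (fun ω => ¬ B ω)
  have h5 : Pe p B * CH (Pool.Agent.H49.Ent.cond p B True) X Z ≤ Pe p B * b := by
    rcases hB0.eq_or_lt with h0 | h0
    · rw [← h0, zero_mul, zero_mul]
    · refine mul_le_mul_of_nonneg_left (h3 _ (isLaw_cond hp h0) fun ω hω => ?_) hB0
      have := (cond_pos_iff hp.nonneg B True ω).1 hω
      exact ⟨this.1, of_eq_true this.2⟩
  have h6 : Pe p (fun ω => ¬ B ω) *
      CH (Pool.Agent.H49.Ent.cond p (fun ω => ¬ B ω) True) X Z ≤ Pe p (fun ω => ¬ B ω) * V := by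
    rcases hN0.eq_or_lt with h0 | h0
    · rw [← h0, zero_mul, zero_mul]
    · refine mul_le_mul_of_nonneg_left (h2 _ (isLaw_cond hp h0) fun ω hω => ?_) hN0
      exact ((cond_pos_iff hp.nonneg (fun ω => ¬ B ω) True ω).1 hω).1
  have e2 : Pe p (fun ω => ¬ B ω) = 1 - Pe p B := by linarith
  rw [e2] at h4 h6
  nlinarith

/-- **One coordinate after the other.** -/
theorem seq_up {q : Ω → ℝ} (hq : IsLaw q) (X : Ω → ℕ → ℤ) (Y : Ω → T) (a : ℕ) (e : ℕ → ℝ) :
    ∀ b, a ≤ b → (∀ l, a ≤ l → l < b →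
      CH q (fun ω => X ω l) (fun ω => (lo l X ω, Y ω)) ≤ e l) →
    CH q (lo b X) (fun ω => (lo a X ω, Y ω)) ≤ ∑ l ∈ Finset.Ico a b, e l := by
  intro b hab
  induction b, hab using Nat.le_induction with
  | base =>
    intro _
    rw [Finset.Ico_self, Finset.sum_empty]
    have h0 : Det q (fun ω => (lo a X ω, Y ω)) (lo a X) := by
      intro ω ω' _ _ h
      exact congrArg Prod.fst h
    exact (CH_eq_zero hq.nonneg h0).le
  | succ b hab ih =>
    intro h
    have h1 := ih fun l h1 h2 => h l h1 (by omega)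
    have h2 := CH_le_add hq.nonneg (lo (b + 1) X) (lo b X) (fun ω => (lo a X ω, Y ω))
    have h3 : CH q (lo (b + 1) X) (fun ω => (lo b X ω, (lo a X ω, Y ω))) ≤ e b := by
      refine le_trans ?_ (h b hab (by omega))
      have h4 : CH q (lo (b + 1) X) (fun ω => (lo b X ω, (lo a X ω, Y ω))) ≤
          CH q (fun ω => X ω b) (fun ω => (lo b X ω, (lo a X ω, Y ω))) := by
        refine CH_mono_left hq.nonneg fun ω ω' _ _ hh => ?_
        have e1 := Prod.ext_iff.1 hh
        have e2 := Prod.ext_iff.1 e1.2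
        refine lo_ext fun l hl => ?_
        rcases Nat.lt_succ_iff_lt_or_eq.1 hl with h5 | h5
        · exact lo_eq e2.1 h5
        · rw [h5]
          exact e1.1
      refine h4.trans (CH_mono_cond hq.nonneg fun ω ω' _ _ hh => ?_)
      simp only [Prod.mk.injEq] at hh ⊢
      exact ⟨hh.1, hh.2.2⟩
    rw [Finset.sum_Ico_succ_top hab]
    linarith

/-- Two integers, one known up to `L`. -/
theorem CH_le_dig {q : Ω → ℝ} (hq : IsLaw q) (X : Ω → ℤ) (W : Ω → T) {L : ℝ}
    (hX : ∀ ω ω', 0 < q ω → 0 < q ω' → W ω = W ω' → |((X ω - X ω' : ℤ) : ℝ)| ≤ L) :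
    CH q X W ≤ Real.log (2 * L + 1) := by
  have h := CH_le_int hq.nonneg hq.sum_one X W (fun _ => L) hX
  rwa [Ex_const hq.sum_one] at h

end laws

end Pool.TUB
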