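import Pool.Agent.H89.TUB.Kfr

/-!
# The number of the cells

`cell_cnt`: the number of the cells of depth `m` of a chart on which the position satisfies the
conditions `|x (τ j) - L j| ≤ 2 ^ (-s j)`, in any order `τ` of the coordinates: the volume of the set
of these positions over the volume of a cell.
-/

set_option autoImplicit false

namespace Pool.TUB

open Finset Real MvPolynomial
open Pool.Agent.H49.Ent Pool.Agent.H32.Dense Pool.STK Pool.KA Pool.KSAT Pool.K2S Pool.STAT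
open Pool.BFL (Pb)
open Pool.MIC.Frm (nat pt)

/-- Integer vectors defined one coordinate after the other. -/
theorem rec_ex (G : ℕ → (ℕ → ℤ) → ℤ)
    (hG : ∀ l X X', (∀ k < l, X k = X' k) → G l X = G l X') :
    ∀ n : ℕ, ∃ X : ℕ → ℤ, ∀ l < n, X l = G l X := by
  classical
  intro n
  induction n with
  | zero => exact ⟨fun _ => 0, fun l hl => absurd hl (Nat.not_lt_zero _)⟩
  | succ n ih =>
    obtain ⟨X, hX⟩ := ih
    have h1 : ∀ l, l ≠ n → Function.update X n (G n X) l = X l := fun l hl =>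
      Function.update_of_ne hl _ _
    refine ⟨Function.update X n (G n X), fun l hl => ?_⟩
    rcases Nat.lt_succ_iff_lt_or_eq.1 hl with h | h
    · rw [h1 l h.ne, hX l h]
      exact hG l _ _ fun k hk => (h1 k (by omega)).symm
    · subst h
      rw [Function.update_self]
      exact hG l _ _ fun k hk => (h1 k (by omega)).symm

/-- **The number of the cells**: volumes in the order of the chart and in the order `τ`. -/
theorem cell_cnt {n J m : ℕ} {g : ℕ → ℕ} {Ψ : ℕ → PN} (hΨ : TriN Ψ)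
    (hg : ∀ l < n, g l + m + 1 ≤ J) {τ : ℕ → ℕ} (hτ : ∀ l < n, ∃ j < n, τ j = l) {L : ℕ → PN}
    (hL : ∀ j < n, ∀ b b' : ℕ → ℝ, (∀ k < j, b (τ k) = b' (τ k)) →
      eval b (L j) = eval b' (L j)) (R : ℕ → ℕ) (S : Finset (Fin n → ℤ))
    (hS : ∀ c ∈ S, ∀ X : ℕ → ℤ, (∀ l : Fin n, ⌊(2 : ℝ) ^ m * nat g Ψ (gx J X) l⌋ = c l) →
      ∀ j < n, |(X (τ j) : ℝ) - 2 ^ J * eval (gx J X) (L j)| ≤ R j) :
    S.card * ∏ l : Fin n, 2 ^ (J - g l - m - 1) ≤ ∏ j : Fin n, (2 * R j + 3) := by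
  classical
  -- the points
  have hex : ∀ (c : Fin n → ℤ) (t : Fin n → ℕ), ∃ X : ℕ → ℤ, ∀ l, ∀ h : l < n,
      X l = ⌈(2 : ℝ) ^ J * (eval (gx J X) (Ψ l) + (c ⟨l, h⟩ : ℝ) / 2 ^ m / 2 ^ g l)⌉ +
        t ⟨l, h⟩ := by
    intro c t
    obtain ⟨X, hX⟩ := rec_ex (fun l X => if h : l < n then
      ⌈(2 : ℝ) ^ J * (eval (gx J X) (Ψ l) + (c ⟨l, h⟩ : ℝ) / 2 ^ m / 2 ^ g l)⌉ +
        t ⟨l, h⟩ else 0) (fun l X X' hh => by
          have e1 : eval (gx J X) (Ψ l) = eval (gx J X') (Ψ l) :=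
            Pool.SYS35.eval_congr (hΨ l) fun k hk => by unfold gx; rw [hh k hk]
          simp only [e1]) n
    refine ⟨X, fun l h => ?_⟩
    have h1 := hX l h
    rwa [dif_pos h] at h1
  choose Xf hXf using hex
  -- the cells of the points
  have hcell : ∀ (c : Fin n → ℤ) (t : Fin n → ℕ), (∀ l : Fin n, t l < 2 ^ (J - g l - m - 1)) →
      ∀ l : Fin n, ⌊(2 : ℝ) ^ m * nat g Ψ (gx J (Xf c t)) l⌋ = c l := by
    intro c t ht l
    have h1 := hXf c t l l.2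
    have hgl := hg l l.2
    obtain ⟨A, hA⟩ : ∃ A : ℝ, A = eval (gx J (Xf c t)) (Ψ l) := ⟨_, rfl⟩
    rw [← hA] at h1
    have h2 := Int.le_ceil ((2 : ℝ) ^ J * (A + (c l : ℝ) / 2 ^ m / 2 ^ g l))
    have h3 := Int.ceil_lt_add_one ((2 : ℝ) ^ J * (A + (c l : ℝ) / 2 ^ m / 2 ^ g l))
    obtain ⟨d, hd⟩ : ∃ d, J = d + 1 + m + g l := ⟨J - g l - m - 1, by omega⟩
    have hd' : J - g l - m - 1 = d := by omega
    have h4 : (t l : ℝ) + 1 ≤ 2 ^ d := by
      have := ht l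
      rw [hd'] at this
      exact_mod_cast this
    have e1 : (2 : ℝ) ^ m * nat g Ψ (gx J (Xf c t)) l =
        ((Xf c t l : ℝ) - 2 ^ J * A) / 2 ^ (d + 1) := by
      unfold nat
      rw [← hA]
      unfold gx
      rw [hd, pow_add, pow_add]
      field_simp
    have e2 : (Xf c t l : ℝ) = (⌈(2 : ℝ) ^ J * (A + (c l : ℝ) / 2 ^ m / 2 ^ g l)⌉ : ℝ) + t l := by
      exact_mod_cast congrArg (fun z : ℤ => (z : ℝ)) h1
    have e3 : (2 : ℝ) ^ J * (A + (c l : ℝ) / 2 ^ m / 2 ^ g l) = 2 ^ J * A + c l * 2 ^ (d + 1) := by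
      rw [hd, pow_add, pow_add]
      field_simp
    rw [e3] at h2 h3 e2
    have p0 : (0 : ℝ) < 2 ^ (d + 1) := by positivity
    have p1 : (2 : ℝ) ^ (d + 1) = 2 * 2 ^ d := by rw [pow_succ]; ring
    rw [e1, Int.floor_eq_iff, le_div_iff₀ p0, div_lt_iff₀ p0]
    have h5 : (0 : ℝ) ≤ t l := Nat.cast_nonneg _
    have h6 : (0 : ℝ) < 2 ^ d := by positivity
    constructor
    · linarith
    · rw [add_mul, one_mul]
      linarith
  -- the injection
  obtain ⟨Φ, hΦ⟩ : ∃ Φ : (Fin n → ℤ) × (Fin n → ℕ) → Fin n → ℤ,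
    Φ = fun (ct : (Fin n → ℤ) × (Fin n → ℕ)) (j : Fin n) =>
    Xf ct.1 ct.2 (τ j) - ⌊(2 : ℝ) ^ J * eval (gx J (Xf ct.1 ct.2)) (L j)⌋ := ⟨_, rfl⟩
  have hinj : ∀ ct ct' : (Fin n → ℤ) × (Fin n → ℕ),
      (∀ l : Fin n, ct.2 l < 2 ^ (J - g l - m - 1)) →
      (∀ l : Fin n, ct'.2 l < 2 ^ (J - g l - m - 1)) → Φ ct = Φ ct' → ct = ct' := by
    intro ct ct' h1 h2 h3
    have h4 : ∀ j < n, Xf ct.1 ct.2 (τ j) = Xf ct'.1 ct'.2 (τ j) := by
      intro j
      induction j using Nat.strong_induction_on with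
      | _ j ih =>
        intro hj
        have e1 := congrFun h3 ⟨j, hj⟩
        rw [hΦ] at e1
        simp only at e1
        have e2 : eval (gx J (Xf ct.1 ct.2)) (L j) = eval (gx J (Xf ct'.1 ct'.2)) (L j) :=
          hL j hj _ _ fun k hk => by
            unfold gx
            rw [ih k hk (hk.trans hj)]
        rw [e2] at e1
        linarith
    have h5 : ∀ l < n, Xf ct.1 ct.2 l = Xf ct'.1 ct'.2 l := by
      intro l hl
      obtain ⟨j, hj, hj2⟩ := hτ l hl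
      rw [← hj2]
      exact h4 j hj
    have e1 : ∀ l : Fin n, nat g Ψ (gx J (Xf ct.1 ct.2)) l = nat g Ψ (gx J (Xf ct'.1 ct'.2)) l :=
      fun l => nat_congr hΨ fun k hk => by
        unfold gx
        rw [h5 k (lt_of_le_of_lt hk l.2)]
    have h6 : ct.1 = ct'.1 := by
      funext l
      rw [← hcell ct.1 ct.2 h1 l, ← hcell ct'.1 ct'.2 h2 l, e1]
    have h7 : ct.2 = ct'.2 := by
      funext l
      have f1 := hXf ct.1 ct.2 l l.2
      have f2 := hXf ct'.1 ct'.2 l l.2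
      have e2 : eval (gx J (Xf ct.1 ct.2)) (Ψ l) = eval (gx J (Xf ct'.1 ct'.2)) (Ψ l) :=
        Pool.SYS35.eval_congr (hΨ l) fun k hk => by
          unfold gx
          rw [h5 k (hk.trans l.2)]
      rw [h5 l l.2, e2, congrFun h6 ⟨l, l.2⟩] at f1
      have f3 : (ct.2 l : ℤ) = ct'.2 l := by
        have := f1.symm.trans f2
        simpa using this
      exact_mod_cast f3
    exact Prod.ext h6 h7
  obtain ⟨Dm, hDm⟩ : ∃ Dm : Finset ((Fin n → ℤ) × (Fin n → ℕ)), Dm =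
    S ×ˢ Fintype.piFinset fun l : Fin n => Finset.range (2 ^ (J - g l - m - 1)) := ⟨_, rfl⟩
  obtain ⟨Cm, hCm⟩ : ∃ Cm : Finset (Fin n → ℤ), Cm =
    Fintype.piFinset fun j : Fin n => Finset.Icc (-((R j : ℤ) + 1)) (R j + 1) := ⟨_, rfl⟩
  have hmem : ∀ ct ∈ Dm, ct.1 ∈ S ∧ ∀ l : Fin n, ct.2 l < 2 ^ (J - g l - m - 1) := by
    intro ct hct
    rw [hDm, Finset.mem_product, Fintype.mem_piFinset] at hct
    exact ⟨hct.1, fun l => Finset.mem_range.1 (hct.2 l)⟩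
  have hcard := Finset.card_le_card_of_injOn (s := Dm) (t := Cm) Φ (fun ct hct => by
      obtain ⟨h1, h2⟩ := hmem ct hct
      rw [hCm]
      simp only [Finset.mem_coe, Fintype.mem_piFinset]
      intro j
      have h3 := abs_le.1 (hS ct.1 h1 (Xf ct.1 ct.2) (hcell ct.1 ct.2 h2) j j.2)
      rw [hΦ]
      simp only
      obtain ⟨B, hB⟩ : ∃ B : ℝ, B = (2 : ℝ) ^ J * eval (gx J (Xf ct.1 ct.2)) (L j) := ⟨_, rfl⟩
      rw [← hB] at h3 ⊢
      have h4 := Int.floor_le B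
      have h5 := Int.lt_floor_add_one B
      have h6 : ((Xf ct.1 ct.2 (τ j) - ⌊B⌋ : ℤ) : ℝ) ≤ ((R j + 1 : ℤ) : ℝ) := by
        push_cast
        linarith [h3.1, h3.2]
      have h7 : ((-((R j : ℤ) + 1) : ℤ) : ℝ) ≤ ((Xf ct.1 ct.2 (τ j) - ⌊B⌋ : ℤ) : ℝ) := by
        push_cast
        linarith [h3.1, h3.2]
      rw [Finset.mem_Icc]
      exact ⟨by exact_mod_cast h7, by exact_mod_cast h6⟩)
    (fun ct hct ct' hct' hh => hinj ct ct' (hmem ct hct).2 (hmem ct' hct').2 hh)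
  rw [hDm, hCm, Finset.card_product, Fintype.card_piFinset, Fintype.card_piFinset] at hcard
  simp only [Finset.card_range, Int.card_Icc] at hcard
  refine hcard.trans (le_of_eq (Finset.prod_congr rfl fun j _ => ?_))
  omega

section laws

variable {Ω Γ : Type} [Fintype Ω]

/-- The counting bound, real form. -/
theorem CH_le_R {S T : Type} {p : Ω → ℝ} (hp : IsLaw p) (X : Ω → S) (W : Ω → T) (U : ℝ)
    (h : ∀ ω₀, 0 < p ω₀ → ∃ F : Finset S, (F.card : ℝ) ≤ Real.exp U ∧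
      ∀ ω, 0 < p ω → W ω = W ω₀ → X ω ∈ F) : CH p X W ≤ U := by
  classical
  have h1 : ∀ w : T, ∃ F : Finset S, ((F.card : ℝ) ≤ Real.exp U) ∧
      ∀ ω, 0 < p ω → W ω = w → X ω ∈ F := by
    intro w
    by_cases hw : ∃ ω₀, 0 < p ω₀ ∧ W ω₀ = w
    · obtain ⟨ω₀, h2, h3⟩ := hw
      obtain ⟨F, h4, h5⟩ := h ω₀ h2
      exact ⟨F, h4, fun ω hω e => h5 ω hω (e.trans h3.symm)⟩
    · exact ⟨∅, by simpa using (Real.exp_pos U).le, fun ω hω e => absurd ⟨ω, hω, e⟩ hw⟩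
  choose F hF1 hF2 using h1
  refine (CH_le_card hp.nonneg hp.sum_one X W F fun ω hω => hF2 _ ω hω rfl).trans ?_
  rw [← Ex_const hp.sum_one U]
  refine Ex_mono hp.nonneg fun ω hω => ?_
  have h3 : 0 < (F (W ω)).card := Finset.card_pos.2 ⟨_, hF2 _ ω hω rfl⟩
  rw [Real.log_le_iff_le_exp (by exact_mod_cast h3)]
  exact hF1 _

/-- **The entropy of the cell** on an event on which the labels are bounded on the cells. -/
theorem cell_ent {p : Ω → ℝ} (hp : IsLaw p) {n J m : ℕ} {y : Ω → Γ} {g : ℕ → ℕ}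
    {Ψ : Ω → ℕ → PN} {Dg : Ω → ℕ → ℤ} {L : Ω → ℕ → PN} {τ : ℕ → ℕ} {s : ℕ → ℕ} {C : ℝ}
    (hC : 1 ≤ C) (dΨ : Det p y Ψ) (dL : Det p y L) (tΨ : ∀ ω, 0 < p ω → TriN (Ψ ω))
    (hg : ∀ l < n, g l + m + 1 ≤ J) (hs : ∀ j < n, s j ≤ J)
    (hτ : ∀ l < n, ∃ j < n, τ j = l)
    (hL : ∀ ω, 0 < p ω → ∀ j < n, ∀ b b' : ℕ → ℝ, (∀ k < j, b (τ k) = b' (τ k)) →
      eval b (L ω j) = eval b' (L ω j))
    (hG : ∀ ω, 0 < p ω → ∀ j < n, ∀ b : ℕ → ℝ,
      (∀ l < n, |nat g (Ψ ω) b l - nat g (Ψ ω) (gx J (Dg ω)) l| ≤ 1 / 2 ^ m) →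
      |b (τ j) - eval b (L ω j)| ≤ C * (1 / 2 ^ s j)) :
    CH p (lo n (cd m J g Ψ Dg)) y ≤
      (n * m - (∑ j ∈ range n, (s j : ℝ) - ∑ l ∈ range n, (g l : ℝ))) * Real.log 2 +
        n * Real.log (2 * (2 * C + 5)) := by
  classical
  obtain ⟨U, hU⟩ : ∃ U, U = (n * m - (∑ j ∈ range n, (s j : ℝ) - ∑ l ∈ range n, (g l : ℝ))) *
    Real.log 2 + n * Real.log (2 * (2 * C + 5)) := ⟨_, rfl⟩
  rw [← hU]
  -- vectors
  have h0 : CH p (lo n (cd m J g Ψ Dg)) y ≤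
      CH p (fun ω (l : Fin n) => cd m J g Ψ Dg ω l) y := by
    refine CH_mono_left hp.nonneg fun ω ω' _ _ hh => ?_
    exact lo_ext fun l hl => congrFun (Prod.ext_iff.1 hh).1 ⟨l, hl⟩
  refine h0.trans (CH_le_R hp _ _ U fun ω₀ hω₀ => ?_)
  obtain ⟨S, hS⟩ : ∃ S : Finset (Fin n → ℤ), S = (Finset.univ.filter fun ω =>
    0 < p ω ∧ y ω = y ω₀).image fun ω (l : Fin n) => cd m J g Ψ Dg ω l := ⟨_, rfl⟩
  refine ⟨S, ?_, fun ω hω hy => ?_⟩
  · obtain ⟨R, hR⟩ : ∃ R : ℕ → ℕ, R = fun j => ⌈C * 2 ^ (J - s j)⌉₊ := ⟨_, rfl⟩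
    have key := cell_cnt (tΨ ω₀ hω₀) hg hτ (hL ω₀ hω₀) R S fun c hc X hX j hj => by
      rw [hS, Finset.mem_image] at hc
      obtain ⟨ω, hω, rfl⟩ := hc
      obtain ⟨hω1, hω2⟩ := (Finset.mem_filter.1 hω).2
      have eΨ : Ψ ω = Ψ ω₀ := dΨ ω ω₀ hω1 hω₀ hω2
      have eL : L ω = L ω₀ := dL ω ω₀ hω1 hω₀ hω2
      have h1 := hG ω hω1 j hj (gx J X) fun l hl => by
        have h2 := hX ⟨l, hl⟩
        unfold cd at h2
        rw [← eΨ] at h2
        have h3 := floor_near h2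
        rw [← mul_sub, abs_mul, abs_of_pos (by positivity)] at h3
        rw [le_div_iff₀ (by positivity)]
        linarith
      rw [eL] at h1
      have h4 : (X (τ j) : ℝ) - 2 ^ J * eval (gx J X) (L ω₀ j) =
          2 ^ J * (gx J X (τ j) - eval (gx J X) (L ω₀ j)) := by
        unfold gx
        field_simp
      rw [h4, abs_mul, abs_of_pos (by positivity)]
      have h5 : (2 : ℝ) ^ J * (C * (1 / 2 ^ s j)) = C * 2 ^ (J - s j) := by
        have : (2 : ℝ) ^ J = 2 ^ (J - s j) * 2 ^ s j := by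
          rw [← pow_add]
          congr 1
          have := hs j hj
          omega
        rw [this]
        field_simp
      have h6 := mul_le_mul_of_nonneg_left h1 (by positivity : (0 : ℝ) ≤ 2 ^ J)
      rw [h5] at h6
      refine h6.trans ?_
      rw [hR]
      exact Nat.le_ceil _
    -- logarithms
    have k1 : (S.card : ℝ) * ∏ l : Fin n, (2 : ℝ) ^ (J - g l - m - 1) ≤
        ∏ j : Fin n, (2 * (R j : ℝ) + 3) := by exact_mod_cast key
    have k2 : ∏ j : Fin n, (2 * (R j : ℝ) + 3) ≤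
        ∏ j : Fin n, ((2 * C + 5) * (2 : ℝ) ^ (J - s j)) := by
      refine Finset.prod_le_prod (fun j _ => by positivity) fun j _ => ?_
      have p1 : (1 : ℝ) ≤ 2 ^ (J - s j) := one_le_pow₀ (by norm_num)
      have h7 := Nat.ceil_lt_add_one (by positivity : (0 : ℝ) ≤ C * 2 ^ (J - s j))
      have h8 : (R j : ℝ) < C * 2 ^ (J - s j) + 1 := by
        rw [hR]
        exact h7
      nlinarith
    have k3 : ∏ l : Fin n, (2 : ℝ) ^ (J - g l - m - 1) =
        Real.exp (∑ l ∈ range n, ((J : ℝ) - g l - m - 1) * Real.log 2) := by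
      rw [Real.exp_sum, Finset.prod_range]
      refine Finset.prod_congr rfl fun l _ => ?_
      have hgl := hg l l.2
      have h9 : ((J - g l - m - 1 : ℕ) : ℝ) = (J : ℝ) - g l - m - 1 := by
        rw [Nat.cast_sub (by omega), Nat.cast_sub (by omega), Nat.cast_sub (by omega)]
        push_cast
        ring
      rw [← h9, Real.exp_nat_mul, Real.exp_log two_pos]
    have k4 : ∏ j : Fin n, ((2 * C + 5) * (2 : ℝ) ^ (J - s j)) =
        Real.exp (∑ j ∈ range n, (((J : ℝ) - s j) * Real.log 2 + Real.log (2 * C + 5))) := by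
      rw [Real.exp_sum, Finset.prod_range]
      refine Finset.prod_congr rfl fun j _ => ?_
      have h9 : ((J - s j : ℕ) : ℝ) = (J : ℝ) - s j := by
        rw [Nat.cast_sub (hs j j.2)]
      rw [Real.exp_add, Real.exp_log (by linarith), ← h9, Real.exp_nat_mul, Real.exp_log two_pos]
      ring
    have k5 : (S.card : ℝ) ≤
        Real.exp (∑ j ∈ range n, (((J : ℝ) - s j) * Real.log 2 + Real.log (2 * C + 5))) /
        Real.exp (∑ l ∈ range n, ((J : ℝ) - g l - m - 1) * Real.log 2) := by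
      rw [le_div_iff₀ (Real.exp_pos _), ← k3, ← k4]
      exact k1.trans k2
    refine k5.trans ?_
    rw [← Real.exp_sub, Real.exp_le_exp, hU]
    have e1 : ∑ j ∈ range n, (((J : ℝ) - s j) * Real.log 2 + Real.log (2 * C + 5)) =
        (n * J - ∑ j ∈ range n, (s j : ℝ)) * Real.log 2 + n * Real.log (2 * C + 5) := by
      rw [Finset.sum_add_distrib, ← Finset.sum_mul, Finset.sum_sub_distrib, Finset.sum_const,
        Finset.sum_const, card_range, nsmul_eq_mul, nsmul_eq_mul]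
    have e2 : ∑ l ∈ range n, ((J : ℝ) - g l - m - 1) * Real.log 2 =
        (n * J - ∑ l ∈ range n, (g l : ℝ) - n * m - n) * Real.log 2 := by
      rw [← Finset.sum_mul, Finset.sum_sub_distrib, Finset.sum_sub_distrib,
        Finset.sum_sub_distrib, Finset.sum_const, Finset.sum_const, Finset.sum_const, card_range,
        nsmul_eq_mul, nsmul_eq_mul, nsmul_eq_mul, mul_one]
    have e3 : Real.log (2 * (2 * C + 5)) = Real.log 2 + Real.log (2 * C + 5) :=
      Real.log_mul two_ne_zero (by linarith)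
    rw [e1, e2, e3]
    refine le_of_eq ?_
    ring
  · rw [hS, Finset.mem_image]
    exact ⟨ω, Finset.mem_filter.2 ⟨Finset.mem_univ _, hω, hy⟩, rfl⟩

end laws

end Pool.TUB
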