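import Pool.Agent.H65.LEAF.Leaf

/-!
# Uniqueness of leaves, with a gain which does not depend on the degree

`stage2`: the digits of the height on a part of an event on which two leaves differ by `2 ^ (-s)`,
for `s ≤ c X`, where `c < 1` does not depend on the degree of the leaves. `leaf2`: the leaf is known
from the exact point with the precision `η X / 8`.
-/

set_option autoImplicit false

namespace Pool.TUB

open Finset Real
open Pool.Agent.H49.Ent Pool.Agent.H32.Dense Pool.STK Pool.KA Pool.KSAT Pool.K2S Pool.KM7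
open Pool.BFL (Pb)
open Pool.LF65

section laws

variable {Ω S T : Type} [Fintype Ω]

/-- The entropy of a vector of integers which is near a function of the condition. -/
theorem CH_le_fun {ι : Type} [Fintype ι] {p : Ω → ℝ} (hp : IsLaw p) (X : Ω → ι → ℤ) (W : Ω → T)
    (L : ℝ) (h : ∀ ω ω', 0 < p ω → 0 < p ω' → W ω = W ω' →
      ∀ k, |((X ω k - X ω' k : ℤ) : ℝ)| ≤ L) :
    CH p X W ≤ Fintype.card ι * Real.log (2 * L + 1) := by
  classical
  obtain ⟨e⟩ : Nonempty (ι ≃ Fin (Fintype.card ι)) := ⟨Fintype.equivFin ι⟩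
  have h1 := CH_le_vec hp.nonneg hp.sum_one (fun ω k => X ω (e.symm k)) W (fun _ => L)
    fun ω ω' a b hh k => h ω ω' a b hh _
  rw [Ex_const hp.sum_one] at h1
  refine le_trans (CH_mono_left hp.nonneg fun ω ω' _ _ hh => ?_) h1
  funext k
  have := congrFun (Prod.ext_iff.1 hh).1 (e k)
  simpa using this

theorem Pe_le1 {p : Ω → ℝ} (hp : IsLaw p) (A : Ω → Prop) : Pe p A ≤ 1 := by
  have h1 := Pe_split (p := p) (B := fun _ => True) (B' := A) fun _ _ => trivial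
  rw [Pe_univ hp] at h1
  have h2 := Pe_nonneg hp (fun ω => True ∧ ¬ A ω)
  linarith

/-- One of finitely many parts is large. -/
theorem pigeon {p : Ω → ℝ} (hp : IsLaw p) {F : Ω → Prop} (m : ℕ) (G : ℕ → Ω → Prop)
    (h : ∀ ω, F ω → 0 < p ω → ∃ i < m, G i ω) (hm : 0 < m) :
    ∃ i < m, Pe p F ≤ m * Pe p (fun ω => F ω ∧ G i ω) := by
  classical
  have h1 : Pe p F ≤ ∑ i ∈ range m, Pe p (fun ω => F ω ∧ G i ω) := by
    have e : ∀ A : Ω → Prop, Pe p A = ∑ ω, if A ω then p ω else 0 := fun A => by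
      rw [Pe_eq]
    simp only [e]
    rw [Finset.sum_comm]
    refine Finset.sum_le_sum fun ω _ => ?_
    by_cases hF : F ω
    · rcases (hp.nonneg ω).eq_or_lt with h0 | h0
      · rw [← h0]
        simp
      · obtain ⟨i, hi, hG⟩ := h ω hF h0
        rw [if_pos hF]
        have h3 := Finset.single_le_sum (f := fun i => if F ω ∧ G i ω then p ω else 0)
          (s := range m) (fun j _ => by split_ifs <;> [exact h0.le; exact le_rfl])
          (mem_range.2 hi)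
        simp only [hF, hG, and_self, if_true] at h3
        simpa [hF] using h3
    · rw [if_neg hF]
      refine Finset.sum_nonneg fun j _ => ?_
      rw [if_neg fun h => hF h.1]
  obtain ⟨i, hi, hmax⟩ := Finset.exists_max_image (range m)
    (fun i => Pe p (fun ω => F ω ∧ G i ω)) ⟨0, mem_range.2 hm⟩
  refine ⟨i, mem_range.1 hi, h1.trans ?_⟩
  have h2 := Finset.sum_le_card_nsmul (range m) _ _ hmax
  rw [card_range, nsmul_eq_mul] at h2
  exact h2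

end laws

theorem ev_sub_int {k K : ℕ} (P : ℝ) (a : (Fin k → Fin (K + 1)) → ℝ)
    (c : (Fin k → Fin (K + 1)) → ℤ) (y : Fin k → ℝ) :
    Pool.JMN.ev (fun al => P * a al - (c al : ℝ)) y =
      P * Pool.JMN.ev a y - Pool.JMN.ev (fun al => (c al : ℝ)) y := by
  unfold Pool.JMN.ev
  rw [Finset.mul_sum, ← Finset.sum_sub_distrib]
  exact Finset.sum_congr rfl fun _ _ => by ring

/-- **The digits of the height** on a part of an event on which two leaves differ by more than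
`2 ^ (-s)`, for `s ≤ c X`. -/
theorem stage2 (k K : ℕ) {ε c : ℝ} (hε : 0 < ε) (hε1 : ε ≤ 1) (hc0 : 0 ≤ c) (hc1 : c < 1) :
    ∃ c₀ : ℝ, 0 < c₀ ∧ c₀ ≤ 1 ∧ ∀ e₀ : ℝ, 0 < e₀ →
    ∃ κ : ℝ, 0 < κ ∧ ∃ X₀ : ℕ, ∀ {Ω α β τ δ : Type} [Fintype Ω] {q : Ω → ℝ}, IsLaw q →
    ∀ (X s h : ℕ) (A : Ω → α) (B : Ω → β) (W : Ω → τ) (D : Ω → δ) (y : Ω → Fin k → ℝ)
    (N : Ω → ℝ) (a b : Ω → (Fin k → Fin (K + 1)) → ℝ) (th Lf : ℝ), X₀ ≤ X →
    (s : ℝ) ≤ c * X → (h : ℝ) ≤ κ * X → 0 ≤ th → th ≤ κ * X →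
    (∀ ω i, 0 ≤ y ω i) → (∀ ω i, y ω i < 1) →
    Det q (fun ω => (A ω, W ω)) a → Det q (fun ω => (B ω, W ω)) b →
    Det q (fun ω => (D ω, W ω)) y →
    (∀ ω, 0 < q ω → ∀ al, |a ω al| ≤ 2 ^ h) → (∀ ω, 0 < q ω → ∀ al, |b ω al| ≤ 2 ^ h) →
    (∀ ω, 0 < q ω → |N ω - Pool.JMN.ev (a ω) (y ω)| ≤ 2 ^ h / 2 ^ X) →
    (∀ ω, 0 < q ω → |N ω - Pool.JMN.ev (b ω) (y ω)| ≤ 2 ^ h / 2 ^ X) →
    (∀ Q : Ω → ℝ, IsLaw Q → (∀ ω, 0 < Q ω → 0 < q ω) → ∀ d : Fin k → ℕ, (∀ l, d l ≤ X) →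
      CH Q D (fun ω => (W ω, fun l => ⌊(2 : ℝ) ^ d l * y ω l⌋)) ≤
        Lf - (∑ l, (d l : ℝ)) * Real.log 2 + th) →
    Lf - th ≤ CH q D (fun ω => (A ω, W ω)) → Lf - th ≤ CH q D (fun ω => (B ω, W ω)) →
    ∀ F : Ω → Prop, (∀ ω, F ω → 0 < q ω → ∃ al, 1 / 2 ^ s < |a ω al - b ω al|) → e₀ ≤ Pe q F →
    ∃ E : Ω → Prop, Sub E F ∧ c₀ * Pe q F ≤ Pe q E ∧
      (1 - ε) * ((1 - c) * (X * Real.log 2)) - Real.log 3 ≤
        CH (Pool.Agent.H49.Ent.cond q E True) (fun ω => ⌊(2 : ℝ) ^ X * N ω⌋)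
          (fun ω => (D ω, W ω)) := by
  classical
  obtain ⟨c₁, hc₁0, hc₁1, hst⟩ := stage k K hε
  obtain ⟨κ₁, hκ₁, X₁, hst⟩ := hst 1 one_pos
  obtain ⟨dm, hdm⟩ : ∃ dm : ℝ, dm = Fintype.card (Fin k → Fin (K + 1)) := ⟨_, rfl⟩
  have hdm0 : 0 ≤ dm := by rw [hdm]; exact Nat.cast_nonneg _
  obtain ⟨v, hv⟩ : ∃ v, v = 1 - c := ⟨_, rfl⟩
  have hv0 : 0 < v := by rw [hv]; linarith
  have hv1 : v ≤ 1 := by rw [hv]; linarith
  obtain ⟨κ₂, hκ₂⟩ : ∃ κ₂, κ₂ = min κ₁ 1 * v / 4 := ⟨_, rfl⟩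
  have hmin : 0 < min κ₁ 1 := lt_min hκ₁ one_pos
  have hκ20 : 0 < κ₂ := by rw [hκ₂]; positivity
  have hκ21 : κ₂ ≤ κ₁ * v := by
    rw [hκ₂]
    have : min κ₁ 1 ≤ κ₁ := min_le_left _ _
    nlinarith
  obtain ⟨m₀, hm₀⟩ := exists_nat_ge (2 * c / κ₂ + 2)
  have hm0 : (2 : ℝ) ≤ m₀ := by
    have : 0 ≤ 2 * c / κ₂ := by positivity
    linarith
  have hm00 : (0 : ℝ) < m₀ := by linarith
  refine ⟨c₁ / m₀, by positivity, by rw [div_le_one hm00]; linarith, fun e₀ he₀ => ?_⟩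
  obtain ⟨M, hM⟩ : ∃ M : ℝ, M = 2 * (m₀ / e₀) + dm + 1 := ⟨_, rfl⟩
  have hme : 0 < (m₀ : ℝ) / e₀ := by positivity
  have hM1 : 1 ≤ M := by rw [hM]; linarith
  obtain ⟨κ, hκ⟩ : ∃ κ : ℝ, κ = κ₁ * v / (2 * M) := ⟨_, rfl⟩
  have hκ0 : 0 < κ := by rw [hκ]; positivity
  have hκM : κ * M = κ₁ * v / 2 := by rw [hκ]; field_simp
  obtain ⟨X₀, hX₀⟩ := exists_nat_ge (max (max (2 / κ₂) (X₁ / v))
    ((m₀ / e₀ + 5 * dm + 3) / (κ₁ * v / 2)))
  refine ⟨κ, hκ0, X₀, ?_⟩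
  intro Ω α β τ δ _ q hq X s h A B W D y N a b th Lf hX hs hh hth0 hth y0 y1 da db dy hab hbb
    hna hnb hU hA hB F hF hPF
  have hXR : (X₀ : ℝ) ≤ X := by exact_mod_cast hX
  have hX0 : (0 : ℝ) ≤ X := Nat.cast_nonneg X
  have x1 : 2 ≤ κ₂ * X := by
    have h1 := (((le_max_left _ _).trans (le_max_left _ _)).trans hX₀).trans hXR
    rw [div_le_iff₀ hκ20] at h1
    linarith
  have x2 : (X₁ : ℝ) ≤ v * X := by
    have h1 := (((le_max_right _ _).trans (le_max_left _ _)).trans hX₀).trans hXR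
    rw [div_le_iff₀ hv0] at h1
    linarith
  have x3 : m₀ / e₀ + 5 * dm + 3 ≤ κ₁ * v / 2 * X := by
    have h1 := ((le_max_right _ _).trans hX₀).trans hXR
    rw [div_le_iff₀ (by positivity)] at h1
    linarith
  obtain ⟨l2, hl2⟩ : ∃ l2, l2 = Real.log 2 := ⟨_, rfl⟩
  have hl0 : 0 < l2 := by rw [hl2]; exact Real.log_pos (by norm_num)
  have hl1 : l2 ≤ 1 := by
    rw [hl2]
    have := Real.log_two_lt_d9
    linarith
  -- the scale of the groups
  obtain ⟨u, hu⟩ : ∃ u, u = ⌊κ₂ * X⌋₊ := ⟨_, rfl⟩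
  have hu1 : (u : ℝ) ≤ κ₂ * X := by rw [hu]; exact Nat.floor_le (by positivity)
  have hu2 : κ₂ * X < u + 1 := by rw [hu]; exact Nat.lt_floor_add_one _
  have hu3 : κ₂ * X ≤ 2 * u := by linarith
  have hu0 : 0 < u := by
    have : (0 : ℝ) < u := by linarith
    exact_mod_cast this
  obtain ⟨m, hm⟩ : ∃ m, m = s / u + 1 := ⟨_, rfl⟩
  have hsu : s < (s / u + 1) * u := by
    rw [Nat.mul_comm]
    exact Nat.lt_mul_div_succ s hu0
  have hmm : (m : ℝ) ≤ m₀ := by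
    have h1 : ((s / u : ℕ) : ℝ) * u ≤ s := by exact_mod_cast Nat.div_mul_le_self s u
    have h2 : ((s / u : ℕ) : ℝ) * (κ₂ * X) ≤ 2 * (c * X) := by
      have h3 := mul_le_mul_of_nonneg_left hu3 (Nat.cast_nonneg (α := ℝ) (s / u))
      nlinarith
    have hXp : (0 : ℝ) < X := by
      by_contra hcon
      have : (X : ℝ) = 0 := le_antisymm (not_lt.1 hcon) hX0
      rw [this] at x1
      linarith
    have h4 : ((s / u : ℕ) : ℝ) ≤ 2 * c / κ₂ := by
      rw [le_div_iff₀ hκ20]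
      have h5 : ((s / u : ℕ) : ℝ) * κ₂ * X ≤ 2 * c * X := by nlinarith
      exact le_of_mul_le_mul_right h5 hXp
    rw [hm]
    push_cast
    linarith
  obtain ⟨G, hG⟩ : ∃ G : ℕ → Ω → Prop, G = fun i ω =>
    (∃ al, 1 / 2 ^ ((i + 1) * u) < |a ω al - b ω al|) ∧
      (i ≠ 0 → ∀ al, |a ω al - b ω al| ≤ 1 / 2 ^ (i * u)) := ⟨_, rfl⟩
  obtain ⟨i, hi, hPi⟩ := pigeon hq (F := F) m G (fun ω hω h0 => by
    obtain ⟨al, hal⟩ := hF ω hω h0
    have hex : ∃ i, ∃ al, 1 / 2 ^ ((i + 1) * u) < |a ω al - b ω al| := by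
      refine ⟨s / u, al, lt_of_le_of_lt ?_ hal⟩
      exact one_div_le_one_div_of_le (by positivity) (pow_le_pow_right₀ (by norm_num) hsu.le)
    refine ⟨Nat.find hex, ?_, ?_⟩
    · rw [hm]
      refine Nat.lt_succ_of_le (Nat.find_min' hex ⟨al, lt_of_le_of_lt ?_ hal⟩)
      exact one_div_le_one_div_of_le (by positivity) (pow_le_pow_right₀ (by norm_num) hsu.le)
    · rw [hG]
      refine ⟨Nat.find_spec hex, fun hne al' => ?_⟩
      by_contra hcon
      push Not at hcon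
      have h1 : Nat.find hex ≤ Nat.find hex - 1 := Nat.find_min' hex ⟨al', by
        rwa [Nat.sub_add_cancel (Nat.one_le_iff_ne_zero.2 hne)]⟩
      exact absurd h1 (Nat.not_le.2 (Nat.sub_lt (Nat.pos_of_ne_zero hne) one_pos)))
    (by rw [hm]; exact Nat.succ_pos _)
  obtain ⟨Fi, hFi⟩ : ∃ Fi : Ω → Prop, Fi = fun ω => F ω ∧ G i ω := ⟨_, rfl⟩
  rw [← hFi] at hPi
  have hPF0 : 0 < Pe q F := lt_of_lt_of_le he₀ hPF
  have hPi1 : Pe q F ≤ m₀ * Pe q Fi := hPi.trans (mul_le_mul_of_nonneg_right hmm (Pe_nonneg hq _))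
  have hPi0 : 0 < Pe q Fi := by
    by_contra hcon
    have : Pe q Fi = 0 := le_antisymm (not_lt.1 hcon) (Pe_nonneg hq _)
    rw [this, mul_zero] at hPi1
    linarith
  have hiu : i * u ≤ s := by
    have h1 : i ≤ s / u := by
      rw [hm] at hi
      exact Nat.lt_succ_iff.mp hi
    exact (Nat.mul_le_mul_right u h1).trans (Nat.div_mul_le_self s u)
  have hiuR : ((i * u : ℕ) : ℝ) ≤ c * X := by
    have : ((i * u : ℕ) : ℝ) ≤ s := by exact_mod_cast hiu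
    linarith
  have hiuX : i * u ≤ X := by
    have h1 : ((i * u : ℕ) : ℝ) ≤ X := by nlinarith
    exact_mod_cast h1
  obtain ⟨X', hX'⟩ : ∃ X', X' = X - i * u := ⟨_, rfl⟩
  have hXX : X = X' + i * u := by omega
  have hX'R : v * X ≤ X' := by
    have h1 : (X : ℝ) = X' + ((i * u : ℕ) : ℝ) := by exact_mod_cast hXX
    rw [hv]
    linarith
  -- the law of the group
  obtain ⟨q', hq'⟩ : ∃ q', q' = Pool.Agent.H49.Ent.cond q Fi True := ⟨_, rfl⟩
  have hq'l : IsLaw q' := by rw [hq']; exact isLaw_cond hq hPi0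
  have hq'1 : ∀ ω, 0 < q' ω → 0 < q ω ∧ Fi ω := by
    intro ω hω
    rw [hq'] at hω
    have := (cond_pos_iff hq.nonneg Fi True ω).1 hω
    exact ⟨this.1, of_eq_true this.2⟩
  have hDet : ∀ {S T : Type} {A : Ω → S} {B : Ω → T}, Det q A B → Det q' A B :=
    fun h ω ω' a b => h ω ω' (hq'1 ω a).1 (hq'1 ω' b).1
  -- the roundings
  obtain ⟨P, hP⟩ : ∃ P : ℝ, P = 2 ^ (i * u) := ⟨_, rfl⟩
  have hP0 : 0 < P := by rw [hP]; positivity
  obtain ⟨r, hr⟩ : ∃ r : Ω → (Fin k → Fin (K + 1)) → ℤ, r = fun ω al => ⌊P * a ω al⌋ := ⟨_, rfl⟩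
  obtain ⟨a', ha'⟩ : ∃ a' : Ω → (Fin k → Fin (K + 1)) → ℝ,
    a' = fun ω al => P * a ω al - (r ω al : ℝ) := ⟨_, rfl⟩
  obtain ⟨b', hb'⟩ : ∃ b' : Ω → (Fin k → Fin (K + 1)) → ℝ,
    b' = fun ω al => P * b ω al - (r ω al : ℝ) := ⟨_, rfl⟩
  obtain ⟨W', hW'⟩ : ∃ W' : Ω → τ × ((Fin k → Fin (K + 1)) → ℤ), W' = fun ω => (W ω, r ω) :=
    ⟨_, rfl⟩
  obtain ⟨N', hN'⟩ : ∃ N' : Ω → ℝ, N' = fun ω =>
    P * N ω - Pool.JMN.ev (fun al => (r ω al : ℝ)) (y ω) := ⟨_, rfl⟩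
  have ha'1 : ∀ ω al, 0 ≤ a' ω al ∧ a' ω al < 1 := by
    intro ω al
    rw [ha', hr]
    simp only
    have h1 := Int.floor_le (P * a ω al)
    have h2 := Int.lt_floor_add_one (P * a ω al)
    constructor <;> linarith
  have hdiff : ∀ ω, 0 < q' ω → ∀ al, |P * a ω al - P * b ω al| ≤ 2 ^ (h + 1) := by
    intro ω hω al
    obtain ⟨h0, h1⟩ := hq'1 ω hω
    rw [hFi, hG] at h1
    rcases Nat.eq_zero_or_pos i with hi0 | hi0
    · have e1 := hab ω h0 al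
      have e2 := hbb ω h0 al
      have e3 : P = 1 := by rw [hP, hi0, Nat.zero_mul, pow_zero]
      rw [e3, one_mul, one_mul]
      have e4 := abs_sub (a ω al) (b ω al)
      rw [pow_succ]
      linarith
    · have e1 := h1.2.2 (by omega) al
      rw [← mul_sub, abs_mul, abs_of_pos hP0]
      rw [le_div_iff₀ (by positivity), ← hP] at e1
      have e2 : (1 : ℝ) ≤ 2 ^ (h + 1) := one_le_pow₀ (by norm_num)
      linarith
  have hpow1 : (1 : ℝ) ≤ 2 ^ (h + 1) := one_le_pow₀ (by norm_num)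
  have ep : (2 : ℝ) ^ (h + 2) = 2 * 2 ^ (h + 1) := by rw [pow_succ _ (h + 1)]; ring
  have hb'1 : ∀ ω, 0 < q' ω → ∀ al, |b' ω al| ≤ 2 ^ (h + 2) := by
    intro ω hω al
    have e1 := abs_le.1 (hdiff ω hω al)
    have e2 := ha'1 ω al
    rw [ha'] at e2
    simp only at e2
    rw [hb', ep, abs_le]
    simp only
    constructor <;> linarith [e1.1, e1.2, e2.1, e2.2]
  -- the theorem for the rest of the digits
  have x4 : ((h + 2 : ℕ) : ℝ) ≤ κ₁ * X' := by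
    have e1 : κ * X ≤ κ₁ * v / 2 * X := by
      rw [← hκM]
      have : κ * X * 1 ≤ κ * X * M := mul_le_mul_of_nonneg_left hM1 (by positivity)
      nlinarith
    have e2 : κ₁ * (v * X) ≤ κ₁ * X' := mul_le_mul_of_nonneg_left hX'R hκ₁.le
    have e3 : (0 : ℝ) ≤ 5 * dm := by linarith
    push_cast
    nlinarith
  obtain ⟨th', hth'⟩ : ∃ th' : ℝ, th' = (2 * th + l2) / Pe q Fi +
    dm * ((h + 5) * l2) := ⟨_, rfl⟩
  have hinv : 1 / Pe q Fi ≤ m₀ / e₀ := by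
    rw [div_le_div_iff₀ hPi0 he₀]
    linarith
  have hth'0 : 0 ≤ th' := by
    rw [hth']
    positivity
  have hthle : th ≤ th' := by
    rw [hth']
    have e1 : Pe q Fi ≤ 1 := Pe_le1 hq _
    have e2 : th ≤ (2 * th + l2) / Pe q Fi := by
      rw [le_div_iff₀ hPi0]
      nlinarith
    have e3 : 0 ≤ dm * ((h + 5) * l2) := by positivity
    linarith
  have hth'1 : th' ≤ κ₁ * X' := by
    have e2 : κ₁ * (v * X) ≤ κ₁ * X' := mul_le_mul_of_nonneg_left hX'R hκ₁.le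
    have e3 : (2 * th + l2) / Pe q Fi ≤ (2 * (κ * X) + 1) * (m₀ / e₀) := by
      rw [div_eq_mul_one_div]
      exact mul_le_mul (by linarith) hinv (by positivity) (by positivity)
    have e4 : dm * ((h + 5) * l2) ≤ dm * (κ * X + 5) := by
      refine mul_le_mul_of_nonneg_left ?_ hdm0
      have h0 : (0 : ℝ) ≤ h := Nat.cast_nonneg h
      nlinarith
    have e5 : (2 * (κ * X) + 1) * (m₀ / e₀) + dm * (κ * X + 5) ≤ κ * M * X + (m₀ / e₀ + 5 * dm) := by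
      rw [hM]
      have : 0 ≤ κ * X := by positivity
      nlinarith
    rw [hκM] at e5
    rw [hth']
    nlinarith
  have hfulA : Lf - th' ≤ CH q' D (fun ω => (A ω, W' ω)) := by
    have h1 := CH_cond_low hq hPi0 D (fun ω => (A ω, W ω)) hA (fun Q hQ hQq => ?_) hth0
    · rw [← hq', ← hl2] at h1
      have h2 : CH q' D (fun ω => (A ω, W ω)) ≤ CH q' D (fun ω => (A ω, W' ω)) := by
        refine CH_mono_cond hq'l.nonneg fun ω ω' h1 h2 hh => ?_
        have e1 : a ω = a ω' := hDet da ω ω' h1 h2 hh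
        rw [hW', hr]
        simp only [Prod.mk.injEq] at hh ⊢
        refine ⟨hh.1, hh.2, ?_⟩
        rw [e1]
      rw [hth']
      have e3 : 0 ≤ dm * ((h + 5) * l2) := by positivity
      linarith
    · have h2 := hU Q hQ hQq (fun _ => 0) fun _ => Nat.zero_le _
      have h3 : CH Q D (fun ω => (A ω, W ω)) ≤
          CH Q D (fun ω => (W ω, fun l => ⌊(2 : ℝ) ^ 0 * y ω l⌋)) := by
        refine CH_mono_cond hQ.nonneg fun ω ω' h1 h2 hh => ?_
        simp only [Prod.mk.injEq] at hh ⊢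
        refine ⟨hh.2, ?_⟩
        funext l
        rw [pow_zero, one_mul, one_mul, Int.floor_eq_zero_iff.2 ⟨y0 ω l, y1 ω l⟩,
          Int.floor_eq_zero_iff.2 ⟨y0 ω' l, y1 ω' l⟩]
      refine h3.trans (h2.trans (le_of_eq ?_))
      simp
  have hfulB : Lf - th' ≤ CH q' D (fun ω => (B ω, W' ω)) := by
    have h1 := CH_cond_low hq hPi0 D (fun ω => (B ω, W ω)) hB (fun Q hQ hQq => ?_) hth0
    · rw [← hq', ← hl2] at h1
      have h2 := CH_le_add hq'l.nonneg D r (fun ω => (B ω, W ω))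
      have h3 := CH_le_fun hq'l r (fun ω => (B ω, W ω)) (2 ^ (h + 3)) (fun ω ω' k1 k2 hh al => by
        have e0 : b ω = b ω' := hDet db ω ω' k1 k2 hh
        have e1 := abs_le.1 (hdiff ω k1 al)
        have e2 := abs_le.1 (hdiff ω' k2 al)
        have e3 := ha'1 ω al
        have e4 := ha'1 ω' al
        rw [ha'] at e3 e4
        simp only at e3 e4
        rw [e0] at e1
        have e5 : (2 : ℝ) ^ (h + 3) = 4 * 2 ^ (h + 1) := by
          rw [show h + 3 = (h + 1) + 2 by omega, pow_add]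
          ring
        rw [e5]
        push_cast
        rw [abs_le]
        constructor <;> linarith [e1.1, e1.2, e2.1, e2.2, e3.1, e3.2, e4.1, e4.2])
      rw [← hdm] at h3
      have h4 : Real.log (2 * 2 ^ (h + 3) + 1) ≤ (h + 5) * l2 := by
        have e1 : (2 : ℝ) * 2 ^ (h + 3) + 1 ≤ 2 ^ (h + 5) := by
          have e2 : (2 : ℝ) ^ (h + 5) = 4 * 2 ^ (h + 3) := by
            rw [show h + 5 = (h + 3) + 2 by omega, pow_add]
            ring
          have e3 : (1 : ℝ) ≤ 2 ^ (h + 3) := one_le_pow₀ (by norm_num)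
          linarith
        refine (Real.log_le_log (by positivity) e1).trans (le_of_eq ?_)
        rw [Real.log_pow, hl2]
        push_cast
        ring
      have h5 := mul_le_mul_of_nonneg_left h4 hdm0
      have h6 : CH q' D (fun ω => (r ω, (B ω, W ω))) ≤ CH q' D (fun ω => (B ω, W' ω)) := by
        refine CH_mono_cond hq'l.nonneg fun ω ω' _ _ hh => ?_
        rw [hW']
        simp only [Prod.mk.injEq] at hh ⊢
        exact ⟨hh.2.1, hh.2.2, hh.1⟩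
      rw [hth']
      linarith
    · have h2 := hU Q hQ hQq (fun _ => 0) fun _ => Nat.zero_le _
      have h3 : CH Q D (fun ω => (B ω, W ω)) ≤
          CH Q D (fun ω => (W ω, fun l => ⌊(2 : ℝ) ^ 0 * y ω l⌋)) := by
        refine CH_mono_cond hQ.nonneg fun ω ω' h1 h2 hh => ?_
        simp only [Prod.mk.injEq] at hh ⊢
        refine ⟨hh.2, ?_⟩
        funext l
        rw [pow_zero, one_mul, one_mul, Int.floor_eq_zero_iff.2 ⟨y0 ω l, y1 ω l⟩,
          Int.floor_eq_zero_iff.2 ⟨y0 ω' l, y1 ω' l⟩]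
      refine h3.trans (h2.trans (le_of_eq ?_))
      simp
  have hPq' : ∀ E : Ω → Prop, Sub E Fi → Pe q' E * Pe q Fi = Pe q E := by
    intro E hE
    rw [hq']
    have e1 : Pe (Pool.Agent.H49.Ent.cond q Fi True) E = Pe q E / Pe q Fi := by
      refine (Pe_cond (p := q) (A := Fi) E).trans ?_
      congr 1
      congr 1
      funext ω
      exact propext ⟨fun h' => h'.2, fun h' => ⟨hE ω h', h'⟩⟩
    rw [e1, div_mul_cancel₀ _ hPi0.ne']
  have hPFi : Pe q' Fi = 1 := by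
    have h1 := hPq' Fi fun _ h => h
    exact mul_right_cancel₀ hPi0.ne' (h1.trans (one_mul _).symm)
  have heva : ∀ ω, N' ω - Pool.JMN.ev (a' ω) (y ω) = P * (N ω - Pool.JMN.ev (a ω) (y ω)) := by
    intro ω
    rw [hN', ha']
    simp only
    rw [ev_sub_int]
    ring
  have hevb : ∀ ω, N' ω - Pool.JMN.ev (b' ω) (y ω) = P * (N ω - Pool.JMN.ev (b ω) (y ω)) := by
    intro ω
    rw [hN', hb']
    simp only
    rw [ev_sub_int]
    ring
  have hscl : ∀ t : ℝ, |t| ≤ 2 ^ h / 2 ^ X → |P * t| ≤ 2 ^ (h + 2) / 2 ^ X' := by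
    intro t ht
    rw [abs_mul, abs_of_pos hP0]
    rw [le_div_iff₀ (by positivity)] at ht ⊢
    have e1 : (2 : ℝ) ^ X = 2 ^ X' * P := by rw [hP, hXX, pow_add]
    rw [e1] at ht
    have e2 : (2 : ℝ) ^ h ≤ 2 ^ (h + 2) := pow_le_pow_right₀ (by norm_num) (by omega)
    calc P * |t| * 2 ^ X' = |t| * (2 ^ X' * P) := by ring
      _ ≤ 2 ^ h := ht
      _ ≤ _ := e2
  obtain ⟨E, hE1, hE2, hE3⟩ := hst hq'l X' u (h + 2) A B W' D y N' a' b' th' Lf
    (by
      have : (X₁ : ℝ) ≤ X' := x2.trans hX'R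
      exact_mod_cast this)
    (by
      have e2 : κ₁ * (v * X) ≤ κ₁ * X' := mul_le_mul_of_nonneg_left hX'R hκ₁.le
      have e3 : κ₂ * X ≤ κ₁ * v * X := mul_le_mul_of_nonneg_right hκ21 hX0
      linarith)
    x4 hth'0 hth'1 y0 y1
    (fun ω ω' k1 k2 hh => by
      rw [hW'] at hh
      simp only [Prod.mk.injEq] at hh
      have e1 : a ω = a ω' := hDet da ω ω' k1 k2 (Prod.ext hh.1 hh.2.1)
      rw [ha']
      simp only
      rw [e1, hh.2.2])
    (fun ω ω' k1 k2 hh => by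
      rw [hW'] at hh
      simp only [Prod.mk.injEq] at hh
      have e1 : b ω = b ω' := hDet db ω ω' k1 k2 (Prod.ext hh.1 hh.2.1)
      rw [hb']
      simp only
      rw [e1, hh.2.2])
    (fun ω ω' k1 k2 hh => by
      rw [hW'] at hh
      simp only [Prod.mk.injEq] at hh
      exact hDet dy ω ω' k1 k2 (Prod.ext hh.1 hh.2.1))
    (fun ω _ al => by
      have e1 := ha'1 ω al
      rw [ep, abs_of_nonneg e1.1]
      linarith)
    hb'1
    (fun ω hω => by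
      rw [heva]
      exact hscl _ (hna ω (hq'1 ω hω).1))
    (fun ω hω => by
      rw [hevb]
      exact hscl _ (hnb ω (hq'1 ω hω).1))
    (fun Q hQ hQq d hd => by
      have h1 := hU Q hQ (fun ω hω => (hq'1 ω (hQq ω hω)).1) d fun l => (hd l).trans (by omega)
      have h2 : CH Q D (fun ω => (W' ω, fun l => ⌊(2 : ℝ) ^ d l * y ω l⌋)) ≤
          CH Q D (fun ω => (W ω, fun l => ⌊(2 : ℝ) ^ d l * y ω l⌋)) := by
        refine CH_mono_cond hQ.nonneg fun ω ω' _ _ hh => ?_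
        rw [hW'] at hh
        simp only [Prod.mk.injEq] at hh ⊢
        exact ⟨hh.1.1, hh.2⟩
      linarith)
    hfulA hfulB Fi
    (fun ω hω hω0 => by
      have h1 := hω
      rw [hFi, hG] at h1
      obtain ⟨al, hal⟩ := h1.2.1
      refine ⟨al, ?_⟩
      rw [ha', hb']
      simp only
      rw [sub_sub_sub_cancel_right, ← mul_sub, abs_mul, abs_of_pos hP0]
      rw [div_lt_iff₀ (by positivity)] at hal ⊢
      have e1 : (2 : ℝ) ^ ((i + 1) * u) = 2 ^ u * P := by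
        rw [hP, ← pow_add]
        congr 1
        ring
      rw [e1] at hal
      calc 1 < |a ω al - b ω al| * (2 ^ u * P) := hal
        _ = P * |a ω al - b ω al| * 2 ^ u := by ring)
    hPFi.ge
  refine ⟨E, fun ω hω => ?_, ?_, ?_⟩
  · have h1 := hE1 ω hω
    rw [hFi] at h1
    exact h1.1
  · rw [hPFi, mul_one] at hE2
    have h1 := hPq' E hE1
    have h2 : c₁ * Pe q Fi ≤ Pe q E := by
      rw [← h1]
      exact mul_le_mul_of_nonneg_right hE2 hPi0.le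
    refine le_trans ?_ h2
    rw [div_mul_eq_mul_div, div_le_iff₀ hm00]
    calc c₁ * Pe q F ≤ c₁ * (m₀ * Pe q Fi) := mul_le_mul_of_nonneg_left hPi1 hc₁0.le
      _ = c₁ * Pe q Fi * m₀ := by ring
  · have e0 : Pool.Agent.H49.Ent.cond q' E True = Pool.Agent.H49.Ent.cond q E True := by
      rw [hq']
      exact Piece.cond_cond hE1 hPi0.ne'
    rw [e0] at hE3
    have hPE0 : 0 < Pe q E := by
      have h1 := hPq' E hE1
      rw [hPFi, mul_one] at hE2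
      rw [← h1]
      exact mul_pos (lt_of_lt_of_le hc₁0 hE2) hPi0
    obtain ⟨Q, hQ⟩ : ∃ Q, Q = Pool.Agent.H49.Ent.cond q E True := ⟨_, rfl⟩
    have hQl : IsLaw Q := by rw [hQ]; exact isLaw_cond hq hPE0
    have hQ1 : ∀ ω, 0 < Q ω → 0 < q ω := by
      intro ω hω
      rw [hQ] at hω
      exact ((cond_pos_iff hq.nonneg E True ω).1 hω).1
    rw [← hQ] at hE3 ⊢
    have h2 := CH_le_add hQl.nonneg (fun ω => ⌊(2 : ℝ) ^ X' * N' ω⌋) (fun ω => ⌊(2 : ℝ) ^ X * N ω⌋)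
      (fun ω => (D ω, W' ω))
    have h3 : CH Q (fun ω => ⌊(2 : ℝ) ^ X * N ω⌋) (fun ω => (D ω, W' ω)) ≤
        CH Q (fun ω => ⌊(2 : ℝ) ^ X * N ω⌋) (fun ω => (D ω, W ω)) := by
      refine CH_mono_cond hQl.nonneg fun ω ω' _ _ hh => ?_
      rw [hW'] at hh
      simp only [Prod.mk.injEq] at hh ⊢
      exact ⟨hh.1, hh.2.1⟩
    have h4 := CH_le_fun hQl (fun ω (_ : Unit) => ⌊(2 : ℝ) ^ X' * N' ω⌋)
      (fun ω => (⌊(2 : ℝ) ^ X * N ω⌋, (D ω, W' ω))) 1 (fun ω ω' k1 k2 hh _ => by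
        rw [hW'] at hh
        simp only [Prod.mk.injEq] at hh
        obtain ⟨g1, g2, g3, g4⟩ := hh
        have e1 : y ω = y ω' := dy ω ω' (hQ1 ω k1) (hQ1 ω' k2) (Prod.ext g2 g3)
        have e2 : (2 : ℝ) ^ X' * N' ω - 2 ^ X' * N' ω' = 2 ^ X * N ω - 2 ^ X * N ω' := by
          rw [hN']
          simp only
          rw [e1, g4]
          have e3 : (2 : ℝ) ^ X = 2 ^ X' * P := by rw [hP, hXX, pow_add]
          rw [e3]
          ring
        have e4 : |(2 : ℝ) ^ X * N ω - 2 ^ X * N ω'| < 1 := Int.abs_sub_lt_one_of_floor_eq_floor g1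
        rw [← e2] at e4
        have e5 := abs_lt.1 e4
        have f1 := Int.floor_le ((2 : ℝ) ^ X' * N' ω)
        have f2 := Int.lt_floor_add_one ((2 : ℝ) ^ X' * N' ω)
        have f3 := Int.floor_le ((2 : ℝ) ^ X' * N' ω')
        have f4 := Int.lt_floor_add_one ((2 : ℝ) ^ X' * N' ω')
        have e6 : ((⌊(2 : ℝ) ^ X' * N' ω⌋ - ⌊(2 : ℝ) ^ X' * N' ω'⌋ : ℤ) : ℝ) < 2 := by
          push_cast
          linarith
        have e7 : (-2 : ℝ) < ((⌊(2 : ℝ) ^ X' * N' ω⌋ - ⌊(2 : ℝ) ^ X' * N' ω'⌋ : ℤ) : ℝ) := by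
          push_cast
          linarith
        have e8 : ⌊(2 : ℝ) ^ X' * N' ω⌋ - ⌊(2 : ℝ) ^ X' * N' ω'⌋ < 2 := by exact_mod_cast e6
        have e9 : -2 < ⌊(2 : ℝ) ^ X' * N' ω⌋ - ⌊(2 : ℝ) ^ X' * N' ω'⌋ := by exact_mod_cast e7
        rw [abs_le]
        constructor
        · have : -1 ≤ ⌊(2 : ℝ) ^ X' * N' ω⌋ - ⌊(2 : ℝ) ^ X' * N' ω'⌋ := by omega
          exact_mod_cast this
        · have : ⌊(2 : ℝ) ^ X' * N' ω⌋ - ⌊(2 : ℝ) ^ X' * N' ω'⌋ ≤ 1 := by omega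
          exact_mod_cast this)
    have h5 : CH Q (fun ω => ⌊(2 : ℝ) ^ X' * N' ω⌋)
        (fun ω => (⌊(2 : ℝ) ^ X * N ω⌋, (D ω, W' ω))) ≤ Real.log 3 := by
      refine (CH_mono_left hQl.nonneg fun ω ω' _ _ hh => ?_).trans (h4.trans (le_of_eq ?_))
      · exact congrFun (Prod.ext_iff.1 hh).1 ()
      · simp only [Fintype.card_unit, Nat.cast_one, one_mul]
        norm_num
    have h6 : (1 - ε) * ((1 - c) * (X * Real.log 2)) ≤ (1 - ε) * (X' * Real.log 2) := by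
      refine mul_le_mul_of_nonneg_left ?_ (by linarith)
      rw [← mul_assoc, ← hv]
      exact mul_le_mul_of_nonneg_right hX'R (by rw [← hl2]; exact hl0.le)
    linarith

/-- **Uniqueness of two leaves**, with the precision `η X / 8`. -/
theorem two2 (k K : ℕ) {η : ℝ} (hη : 0 < η) (hη1 : η ≤ 1) : ∃ κ : ℝ, 0 < κ ∧ ∃ X₀ : ℕ,
    ∀ {Ω α β τ δ : Type} [Fintype Ω] {q : Ω → ℝ}, IsLaw q →
    ∀ (X s h : ℕ) (A : Ω → α) (B : Ω → β) (W : Ω → τ) (D : Ω → δ) (y : Ω → Fin k → ℝ)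
    (N : Ω → ℝ) (a b : Ω → (Fin k → Fin (K + 1)) → ℝ) (th Lf : ℝ), X₀ ≤ X →
    (s : ℝ) ≤ η / 8 * X → (h : ℝ) ≤ κ * X → 0 ≤ th → th ≤ κ * X →
    (∀ ω i, 0 ≤ y ω i) → (∀ ω i, y ω i < 1) →
    Det q (fun ω => (A ω, W ω)) a → Det q (fun ω => (B ω, W ω)) b →
    Det q (fun ω => (D ω, W ω)) y →
    (∀ ω, 0 < q ω → ∀ al, |a ω al| ≤ 2 ^ h) → (∀ ω, 0 < q ω → ∀ al, |b ω al| ≤ 2 ^ h) →
    (∀ ω, 0 < q ω → |N ω - Pool.JMN.ev (a ω) (y ω)| ≤ 2 ^ h / 2 ^ X) →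
    (∀ ω, 0 < q ω → |N ω - Pool.JMN.ev (b ω) (y ω)| ≤ 2 ^ h / 2 ^ X) →
    (∀ Q : Ω → ℝ, IsLaw Q → (∀ ω, 0 < Q ω → 0 < q ω) → ∀ d : Fin k → ℕ, (∀ l, d l ≤ X) →
      CH Q D (fun ω => (W ω, fun l => ⌊(2 : ℝ) ^ d l * y ω l⌋)) ≤
        Lf - (∑ l, (d l : ℝ)) * Real.log 2 + th) →
    Lf - th ≤ CH q D (fun ω => (A ω, W ω)) → Lf - th ≤ CH q D (fun ω => (B ω, W ω)) →
    CH q (fun ω => ⌊(2 : ℝ) ^ X * N ω⌋) (fun ω => (D ω, W ω)) ≤ (1 - η) * (X * Real.log 2) →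
    η / 2 ≤ Pe q (fun ω => ∀ al, |a ω al - b ω al| ≤ 1 / 2 ^ s) := by
  classical
  obtain ⟨c₀, hc₀, hc₁, hst⟩ := stage2 k K (ε := η / 16) (c := η / 8) (by positivity)
    (by linarith) (by positivity) (by linarith)
  obtain ⟨κ, hκ, X₀, hst⟩ := hst (η / 16 * (1 / 2)) (by positivity)
  obtain ⟨X₁, hX₁⟩ := exists_nat_ge (16 * Real.log 3 / η)
  refine ⟨κ, hκ, max X₀ (max X₁ 1), ?_⟩
  intro Ω α β τ δ _ q hq X s h A B W D y N a b th Lf hX hs hh hth0 hth y0 y1 da db dy hab hbb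
    hna hnb hU hA hB hN
  have hX0 : X₀ ≤ X := (le_max_left _ _).trans hX
  have hX1 : 1 ≤ X := ((le_max_right _ _).trans (le_max_right _ _)).trans hX
  have hX2 : 16 * Real.log 3 ≤ η * X := by
    have h1 : (X₁ : ℝ) ≤ X := by
      exact_mod_cast ((le_max_left _ _).trans (le_max_right _ _)).trans hX
    have h2 := hX₁.trans h1
    rw [div_le_iff₀ hη] at h2
    linarith
  by_contra hcon
  push Not at hcon
  obtain ⟨F, hF⟩ : ∃ F : Ω → Prop, F = fun ω => True ∧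
    ¬ ∀ al, |a ω al - b ω al| ≤ 1 / 2 ^ s := ⟨_, rfl⟩
  have hPF : 1 - η / 2 < Pe q F := by
    have h1 := Pe_split (p := q) (B := fun _ => True)
      (B' := fun ω => ∀ al, |a ω al - b ω al| ≤ 1 / 2 ^ s) (fun _ _ => trivial)
    rw [Pe_univ hq, ← hF] at h1
    linarith
  have hPF2 : 1 / 2 < Pe q F := by linarith
  have hPF0 : 0 < Pe q F := by linarith
  obtain ⟨t, htd⟩ : ∃ t, t = X * Real.log 2 := ⟨_, rfl⟩
  have hl2 : 1 / 2 ≤ Real.log 2 := by
    have := Real.log_two_gt_d9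
    linarith
  have ht : 0 < t := by
    rw [htd]
    exact mul_pos (by exact_mod_cast hX1) (by linarith)
  have hlog : Real.log 3 ≤ η / 8 * t := by
    have h1 : (X : ℝ) * (1 / 2) ≤ t := by
      rw [htd]
      exact mul_le_mul_of_nonneg_left hl2 (Nat.cast_nonneg X)
    nlinarith
  have hlog0 : 0 ≤ Real.log 3 := Real.log_nonneg (by norm_num)
  have hE0 : 0 ≤ (1 - η / 16) * ((1 - η / 8) * t) - Real.log 3 := by
    have h1 : (15 / 16 : ℝ) * (7 / 8) * t ≤ (1 - η / 16) * ((1 - η / 8) * t) := by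
      rw [← mul_assoc]
      refine mul_le_mul_of_nonneg_right ?_ ht.le
      nlinarith
    nlinarith
  have hex := CH_exhaust_low hq hPF0 (fun ω => ⌊(2 : ℝ) ^ X * N ω⌋) (fun ω => (D ω, W ω))
    (c := c₀) (η := η / 16) (E := (1 - η / 16) * ((1 - η / 8) * t) - Real.log 3) hc₀ hc₁
    (by positivity) hE0 (fun C hC hPC => by
      rw [htd]
      refine hst hq X s h A B W D y N a b th Lf hX0 hs hh hth0 hth y0 y1 da db dy hab hbb hna hnb
        hU hA hB C (fun ω hω _ => ?_) ?_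
      · have h1 := hC ω hω
        rw [hF] at h1
        have h2 := h1.2
        push Not at h2
        exact h2
      · have h1 : η / 16 * (1 / 2) ≤ η / 16 * Pe q F :=
          mul_le_mul_of_nonneg_left hPF2.le (by positivity)
        exact h1.trans hPC)
  have h1 := CH_low_of_event hq F (fun ω => ⌊(2 : ℝ) ^ X * N ω⌋) (fun ω => (D ω, W ω))
  rw [← htd] at hN
  have h2 : (1 - η / 2) * ((1 - η / 16) * ((1 - η / 16) * ((1 - η / 8) * t) - Real.log 3)) ≤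
      (1 - η) * t := by
    refine le_trans ?_ (h1.trans hN)
    refine mul_le_mul hPF.le hex ?_ hPF0.le
    exact mul_nonneg (by linarith) hE0
  have h3 : (1 - 3 * η / 8) * t - η / 8 * t ≤
      (1 - η / 16) * ((1 - η / 16) * ((1 - η / 8) * t) - Real.log 3) := by
    have g1 : (1 - η / 16) * Real.log 3 ≤ η / 8 * t := by nlinarith
    have g2 : (1 - 3 * η / 8) * t ≤ (1 - η / 16) * ((1 - η / 16) * ((1 - η / 8) * t)) := by
      have e : (1 - η / 16) * ((1 - η / 16) * ((1 - η / 8) * t)) =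
          ((1 - η / 16) * (1 - η / 16) * (1 - η / 8)) * t := by ring
      rw [e]
      refine mul_le_mul_of_nonneg_right ?_ ht.le
      have e2 : (1 - η / 16) * (1 - η / 16) * (1 - η / 8) =
        1 - η / 4 + (1 / 256 + 1 / 64) * η ^ 2 - η ^ 3 / 2048 := by ring
      rw [e2]
      have e3 : η ^ 3 ≤ η ^ 2 := by
        rw [pow_succ]
        exact mul_le_of_le_one_right (by positivity) hη1
      have e4 : 0 ≤ η ^ 2 := by positivity
      linarith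
    linarith
  have h4 : (1 - η / 2) * ((1 - 3 * η / 8) * t - η / 8 * t) ≤ (1 - η) * t :=
    (mul_le_mul_of_nonneg_left h3 (by linarith)).trans h2
  have h5 : (1 - η / 2) * ((1 - 3 * η / 8) * t - η / 8 * t) = (1 - η) * t + η ^ 2 / 4 * t := by
    ring
  have h6 : 0 < η ^ 2 / 4 * t := by positivity
  linarith

/-- **Uniqueness of leaves**, with the precision `η X / 8`: the leaf is known from the exact
point. -/
theorem leaf2 (k K : ℕ) {η : ℝ} (hη : 0 < η) (hη1 : η ≤ 1) : ∃ κ : ℝ, 0 < κ ∧ ∃ X₀ : ℕ,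
    ∀ {Ω Ρ α τ δ : Type} [Fintype Ω] {p : Ω → ℝ}, IsLaw p →
    ∀ (X s h : ℕ) (rho : Ω → Ρ) (A : Ω → α) (W : Ω → τ) (D : Ω → δ) (y : Ω → Fin k → ℝ)
    (N : Ω → ℝ) (a : Ω → (Fin k → Fin (K + 1)) → ℝ) (th Lf : ℝ), X₀ ≤ X →
    (s : ℝ) ≤ η / 8 * X → (h : ℝ) ≤ κ * X → 0 ≤ th → th ≤ κ * X →
    (∀ ω i, 0 ≤ y ω i) → (∀ ω i, y ω i < 1) →
    Det p (fun ω => (A ω, W ω)) a → Det p rho W → Det p rho D → Det p rho N →
    Det p (fun ω => (D ω, W ω)) y →
    (∀ ω, 0 < p ω → ∀ al, |a ω al| ≤ 2 ^ h) →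
    (∀ ω, 0 < p ω → |N ω - Pool.JMN.ev (a ω) (y ω)| ≤ 2 ^ h / 2 ^ X) →
    (∀ Q : Ω → ℝ, IsLaw Q → (∀ ω, 0 < Q ω → 0 < p ω) → ∀ d : Fin k → ℕ, (∀ l, d l ≤ X) →
      CH Q D (fun ω => (W ω, fun l => ⌊(2 : ℝ) ^ d l * y ω l⌋)) ≤
        Lf - (∑ l, (d l : ℝ)) * Real.log 2 + th) →
    Lf - th ≤ CH p D (fun ω => (A ω, W ω)) →
    CH p (fun ω => ⌊(2 : ℝ) ^ X * N ω⌋) (fun ω => (D ω, W ω)) ≤ (1 - η) * (X * Real.log 2) →
    ∃ U : Ρ → (Fin k → Fin (K + 1)) → ℝ,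
      η / 2 ≤ Pb p (fun ω => ∀ al, |a ω al - U (rho ω) al| ≤ 1 / 2 ^ s) := by
  classical
  obtain ⟨κ, hκ, X₀, htwo⟩ := two2 k K hη hη1
  refine ⟨κ, hκ, X₀, ?_⟩
  intro Ω Ρ α τ δ _ p hp X s h rho A W D y N a th Lf hX hs hh hth0 hth y0 y1 da dW dD dN dy hab
    hna hU hA hN
  have hql := P2_isLaw hp rho
  have hfst := P2_fst hp rho
  have hsnd := P2_snd hp rho
  have hpos := P2_pos hp (g := rho)
  have eW : ∀ e : Ω × Ω, 0 < P2 p rho e → W e.1 = W e.2 := fun e he =>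
    dW _ _ ((hpos e).1 he).1 ((hpos e).1 he).2.1 ((hpos e).1 he).2.2
  have eD : ∀ e : Ω × Ω, 0 < P2 p rho e → D e.1 = D e.2 := fun e he =>
    dD _ _ ((hpos e).1 he).1 ((hpos e).1 he).2.1 ((hpos e).1 he).2.2
  have eN : ∀ e : Ω × Ω, 0 < P2 p rho e → N e.1 = N e.2 := fun e he =>
    dN _ _ ((hpos e).1 he).1 ((hpos e).1 he).2.1 ((hpos e).1 he).2.2
  have ey : ∀ e : Ω × Ω, 0 < P2 p rho e → y e.1 = y e.2 := fun e he =>
    dy _ _ ((hpos e).1 he).1 ((hpos e).1 he).2.1 (Prod.ext (eD e he) (eW e he))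
  have hfin := htwo hql X s h (fun e => A e.1) (fun e => A e.2) (fun e => W e.1) (fun e => D e.1)
    (fun e => y e.1) (fun e => N e.1) (fun e => a e.1) (fun e => a e.2) th Lf hX hs hh hth0 hth
    (fun e => y0 e.1) (fun e => y1 e.1)
    (fun e e' h1 h2 h3 => da _ _ ((hpos e).1 h1).1 ((hpos e').1 h2).1 h3)
    (fun e e' h1 h2 h3 => da _ _ ((hpos e).1 h1).2.1 ((hpos e').1 h2).2.1 (by
      have h4 := Prod.ext_iff.1 h3
      refine Prod.ext h4.1 ?_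
      show W e.2 = W e'.2
      rw [← eW e h1, ← eW e' h2]
      exact h4.2))
    (fun e e' h1 h2 h3 => dy _ _ ((hpos e).1 h1).1 ((hpos e').1 h2).1 h3)
    (fun e he => hab _ ((hpos e).1 he).1) (fun e he => hab _ ((hpos e).1 he).2.1)
    (fun e he => hna _ ((hpos e).1 he).1)
    (fun e he => by
      have h1 := hna _ ((hpos e).1 he).2.1
      rw [eN e he, ey e he]
      exact h1)
    (fun Q hQ hQq d hd => by
      have hP : Psh Q Prod.fst (fun ω => law Q Prod.fst ω) := fun _ => rfl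
      rw [hP.CH_eq D (fun ω => (W ω, fun l => ⌊(2 : ℝ) ^ d l * y ω l⌋))]
      refine hU _ (isLaw_law hQ _) (fun ω hω => ?_) d hd
      obtain ⟨e, rfl, he⟩ := law_pos_ex hQ Prod.fst hω
      exact ((hpos e).1 (hQq e he)).1)
    (by
      rw [hfst.CH_eq D (fun ω => (A ω, W ω))]
      exact hA)
    (by
      have h1 : CH (P2 p rho) (fun e => D e.1) (fun e => (A e.2, W e.1)) =
          CH (P2 p rho) (fun e => D e.2) (fun e => (A e.2, W e.2)) := by
        refine CH_congr hql.nonneg (fun e e' h1 h2 h3 => ?_) (fun e e' h1 h2 h3 => ?_)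
          (fun e e' h1 h2 h3 => ?_) (fun e e' h1 h2 h3 => ?_)
        · have h4 := Prod.ext_iff.1 h3
          show D e.2 = D e'.2
          rw [← eD e h1, ← eD e' h2]
          exact h4.1
        · have h4 := Prod.ext_iff.1 h3
          show D e.1 = D e'.1
          rw [eD e h1, eD e' h2]
          exact h4.1
        · have h4 := Prod.ext_iff.1 h3
          refine Prod.ext h4.1 ?_
          show W e.2 = W e'.2
          rw [← eW e h1, ← eW e' h2]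
          exact h4.2
        · have h4 := Prod.ext_iff.1 h3
          refine Prod.ext h4.1 ?_
          show W e.1 = W e'.1
          rw [eW e h1, eW e' h2]
          exact h4.2
      rw [h1, hsnd.CH_eq D (fun ω => (A ω, W ω))]
      exact hA)
    (by
      rw [hfst.CH_eq (fun ω => ⌊(2 : ℝ) ^ X * N ω⌋) (fun ω => (D ω, W ω))]
      exact hN)
  have hne : Nonempty ((Fin k → Fin (K + 1)) → ℝ) := ⟨fun _ => 0⟩
  have hcpy : cpy p rho = P2 p rho := rfl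
  rw [← hcpy] at hfin
  obtain ⟨U, hU⟩ := exists_fn_of_cpy hp a rho (fun x x' => ∀ al, |x al - x' al| ≤ 1 / 2 ^ s) hfin
  exact ⟨U, by rw [Pb_eq]; exact hU⟩

end Pool.TUB
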