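import Pool.Agent.H89.TUB.Pol
import Pool.Agent.H75.S6C.Exh
import Pool.Agent.H89.TUB.Lf2

/-!
# A closed leaf behind a chart is known from the exact point

The chart `Ψ` is a function of the record `W`, the leaf `Q` is a function of the context `y`. The
position is full given the context, the rows of the last coordinate are not full given the position.
Then the leaf is known from the exact point, on an event which is not small.
-/

set_option autoImplicit false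

namespace Pool.TUB

open Finset Real MvPolynomial
open Pool.Agent.H49.Ent Pool.Agent.H32.Dense Pool.STK Pool.KA Pool.KSAT Pool.K2S Pool.STAT
open Pool.BFL (Pb)
open Pool.MIC.Frm (nat pt)

/-! ### Laws and events -/

section laws

variable {Ω S T : Type} [Fintype Ω]

theorem cond_univ {p : Ω → ℝ} (hp : IsLaw p) :
    Pool.Agent.H49.Ent.cond p (fun _ : Ω => True) True = p := by
  funext ω
  unfold Pool.Agent.H49.Ent.cond law
  simp only [if_true, hp.sum_one, div_one]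

theorem Pe_univ {p : Ω → ℝ} (hp : IsLaw p) : Pe p (fun _ : Ω => True) = 1 := by
  rw [Pe_eq]
  simp only [if_true, hp.sum_one]

theorem Pb_Pe (p : Ω → ℝ) (A : Ω → Prop) : Pb p A = Pe p A := by
  rw [Pe_eq]
  rfl

theorem Pe_compl {p : Ω → ℝ} (hp : IsLaw p) (G : Ω → Prop) :
    Pe p G + Pe p (fun ω => ¬ G ω) = 1 := by
  have h := Pool.S6C.Pe_parts (p := p) (B := fun _ => True) (B' := G) (fun _ _ => trivial)
  rw [Pe_univ hp] at h
  have e : (fun ω => True ∧ ¬ G ω) = fun ω => ¬ G ω := by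
    funext ω
    simp
  rw [e] at h
  exact h.symm

/-- **Fullness on a large event.** -/
theorem ful_sub {p : Ω → ℝ} (hp : IsLaw p) {G : Ω → Prop} (hG : 1 / 2 ≤ Pe p G) (X : Ω → S)
    (Y : Ω → T) {U θ : ℝ} (hθ : 0 ≤ θ) (hU : ∀ q : Ω → ℝ, IsLaw q → (∀ ω, 0 < q ω → 0 < p ω) →
      CH q X Y ≤ U + θ) (hX : U - θ ≤ CH p X Y) :
    U - (4 * θ + 2 * Real.log 2) ≤ CH (Pool.Agent.H49.Ent.cond p G True) X Y := by
  have hl2 : 0 ≤ Real.log 2 := Real.log_nonneg one_le_two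
  have h1 := Pool.OVN.CH_split hp (B := fun _ => True) (B' := G) (fun _ _ => trivial)
    (by rw [Pe_univ hp]; exact one_pos) X Y
  rw [cond_univ hp, Pe_univ hp] at h1
  have e : (fun ω => True ∧ ¬ G ω) = fun ω => ¬ G ω := by
    funext ω
    simp
  rw [e] at h1
  have hc := Pe_compl hp G
  have hG0 := Pe_nonneg hp G
  have hN0 := Pe_nonneg hp (fun ω => ¬ G ω)
  have h2 : Pe p (fun ω => ¬ G ω) *
      CH (Pool.Agent.H49.Ent.cond p (fun ω => ¬ G ω) True) X Y ≤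
      Pe p (fun ω => ¬ G ω) * (U + θ) := by
    rcases hN0.eq_or_lt with h0 | h0
    · rw [← h0, zero_mul, zero_mul]
    · refine mul_le_mul_of_nonneg_left (hU _ (isLaw_cond hp h0) fun ω hω => ?_) hN0
      exact ((cond_pos_iff hp.nonneg (fun ω => ¬ G ω) True ω).1 hω).1
  obtain ⟨P, hP⟩ : ∃ P, P = Pe p G := ⟨_, rfl⟩
  rw [← hP] at h1 hc hG hG0
  have hP1 : P ≤ 1 := by linarith
  have e2 : Pe p (fun ω => ¬ G ω) = 1 - P := by linarith
  rw [e2] at h1 h2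
  obtain ⟨x, hx⟩ : ∃ x, x = CH (Pool.Agent.H49.Ent.cond p G True) X Y := ⟨_, rfl⟩
  rw [← hx] at h1 ⊢
  have h3 : P * U - (2 * θ + Real.log 2) ≤ P * x := by nlinarith
  by_contra hcon
  push Not at hcon
  have h4 : P * x < P * (U - (4 * θ + 2 * Real.log 2)) :=
    mul_lt_mul_of_pos_left hcon (by linarith)
  nlinarith

/-- **Rates on a large event.** -/
theorem rate_sub {p : Ω → ℝ} (hp : IsLaw p) {G : Ω → Prop} {η U : ℝ} (hη0 : 0 ≤ η) (hη : η ≤ 1)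
    (hG : 1 - η / 2 ≤ Pe p G) (X : Ω → S) (Y : Ω → T) (hU : 0 ≤ U)
    (hX : CH p X Y ≤ (1 - η) * U) :
    CH (Pool.Agent.H49.Ent.cond p G True) X Y ≤ (1 - η / 2) * U := by
  have h1 := Pool.S6C.CH_split_ge hp (B := fun _ => True) (B' := G) (fun _ _ => trivial)
    (by rw [Pe_univ hp]; exact one_pos) X Y
  rw [cond_univ hp, Pe_univ hp, one_mul] at h1
  have hN0 := Pe_nonneg hp (fun ω => True ∧ ¬ G ω)
  have h2 : 0 ≤ Pe p (fun ω => True ∧ ¬ G ω) *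
      CH (Pool.Agent.H49.Ent.cond p (fun ω => True ∧ ¬ G ω) True) X Y := by
    rcases hN0.eq_or_lt with h0 | h0
    · rw [← h0, zero_mul]
    · exact mul_nonneg hN0 (CH_nonneg (isLaw_cond hp h0).nonneg _ _)
  obtain ⟨P, hP⟩ : ∃ P, P = Pe p G := ⟨_, rfl⟩
  rw [← hP] at h1 hG
  obtain ⟨x, hx⟩ : ∃ x, x = CH (Pool.Agent.H49.Ent.cond p G True) X Y := ⟨_, rfl⟩
  rw [← hx] at h1 ⊢
  have h3 : P * x ≤ (1 - η) * U := by linarith
  by_contra hcon
  push Not at hcon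
  have hx0 : 0 ≤ x := le_trans (mul_nonneg (by linarith) hU) hcon.le
  have h4 : (1 - η / 2) * x ≤ P * x := mul_le_mul_of_nonneg_right hG hx0
  have h5 : (1 - η / 2) * ((1 - η / 2) * U) < (1 - η / 2) * x :=
    mul_lt_mul_of_pos_left hcon (by linarith)
  nlinarith [mul_nonneg (mul_nonneg hη0 hη0) hU]

end laws

/-! ### The pure statement -/

/-- Positions in the cube. -/
noncomputable def cl (x : ℝ) : ℝ := if 0 ≤ x ∧ x < 1 then x else 0

theorem cl_nonneg (x : ℝ) : 0 ≤ cl x := by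
  unfold cl
  split_ifs with h
  · exact h.1
  · exact le_rfl

theorem cl_lt (x : ℝ) : cl x < 1 := by
  unfold cl
  split_ifs with h
  · exact h.2
  · exact one_pos

theorem cl_eq {x : ℝ} (h0 : 0 ≤ x) (h1 : x < 1) : cl x = x := if_pos ⟨h0, h1⟩

theorem cu_mem {n : ℕ} {g : ℕ → ℕ} {Ψ : ℕ → PN} {b : ℕ → ℝ} (h : ∀ i < n, |nat g Ψ b i| ≤ 1)
    (i : Fin n) : 0 ≤ cu n g Ψ b i ∧ cu n g Ψ b i < 1 := by
  have h1 := abs_le.1 (h i i.2)
  unfold cu
  constructor <;> linarith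

/-- Two numbers with the same floor. -/
theorem floor_near {x y : ℝ} (h : ⌊x⌋ = ⌊y⌋) : |x - y| < 1 := Int.abs_sub_lt_one_of_floor_eq_floor h

/-- Floors of near numbers. -/
theorem floor_dist {x y : ℝ} {d : ℝ} (h : |x - y| ≤ d) : |((⌊x⌋ - ⌊y⌋ : ℤ) : ℝ)| ≤ d + 1 := by
  have h1 := Int.floor_le x
  have h2 := Int.lt_floor_add_one x
  have h3 := Int.floor_le y
  have h4 := Int.lt_floor_add_one y
  have h5 := abs_le.1 h
  push_cast
  rw [abs_le]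
  constructor <;> linarith [h5.1, h5.2]

theorem scal_le {t : ℝ} {X : ℕ} (h : |t| ≤ 1 / 2 ^ X) : |(2 : ℝ) ^ X * t| ≤ 1 := by
  have p0 : (0 : ℝ) < 2 ^ X := by positivity
  rw [abs_mul, abs_of_pos p0]
  calc (2 : ℝ) ^ X * |t| ≤ 2 ^ X * (1 / 2 ^ X) := mul_le_mul_of_nonneg_left h p0.le
    _ = 1 := by field_simp

/-- **A closed leaf behind a chart is known from the exact point.** -/
theorem core (n K : ℕ) (R₀ : ℝ) {η : ℝ} (hη : 0 < η) (hη1 : η ≤ 1) :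
    ∃ (κ : ℝ) (X₀ : ℕ), 0 < κ ∧ κ ≤ 1 ∧ ∀ {Ω Ρ Γ τ δ : Type} [Fintype Ω] {p : Ω → ℝ}, IsLaw p →
      ∀ (X : ℕ) (ρ : Ω → Ρ) (y : Ω → Γ) (W : Ω → τ) (D : Ω → δ) (g : ℕ → ℕ) (Ψ : Ω → ℕ → PN)
        (Q : Ω → PN) (x x' : Ω → ℕ → ℝ) (Lf : ℝ), X₀ ≤ X →
      Det p y W → Det p W Ψ → Det p y Q → Det p ρ W → Det p ρ D →
      Det p ρ (fun ω => nat g (Ψ ω) (x' ω) n) →
      Det p (fun ω => (D ω, W ω)) (fun ω => cu n g (Ψ ω) (x' ω)) →
      (∀ ω, 0 < p ω → TriN (Ψ ω)) → (∀ ω, 0 < p ω → ∀ i, (Ψ ω i).totalDegree ≤ K) →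
      (∀ ω, 0 < p ω → (Q ω).vars ⊆ range n) → (∀ ω, 0 < p ω → (Q ω).totalDegree ≤ K) →
      (∀ ω, 0 < p ω → ∀ i ≤ n, |nat g (Ψ ω) (x ω) i| ≤ 1) →
      (∀ ω, 0 < p ω → ∀ i < n, |nat g (Ψ ω) (x' ω) i| ≤ 1) →
      (∀ ω, 0 < p ω → ∀ i ≤ n, |nat g (Ψ ω) (x ω) i - nat g (Ψ ω) (x' ω) i| ≤ 1 / 2 ^ X) →
      (∀ ω, 0 < p ω → |x ω n - eval (x ω) (Q ω)| ≤ 1 / 2 ^ (g n + X)) →
      (∀ q : Ω → ℝ, IsLaw q → (∀ ω, 0 < q ω → 0 < p ω) → ∀ d : Fin n → ℕ, (∀ l, d l ≤ X) →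
        CH q D (fun ω => (W ω, fun l => ⌊(2 : ℝ) ^ (d l) * cu n g (Ψ ω) (x' ω) l⌋)) ≤
          Lf - (∑ l, (d l : ℝ)) * Real.log 2 + κ * X) →
      Lf - κ * X ≤ CH p D y →
      CH p (fun ω => ⌊(2 : ℝ) ^ X * nat g (Ψ ω) (x' ω) n⌋) (fun ω => (D ω, W ω)) ≤
        (1 - η) * (X * Real.log 2) →
      ∃ U : Ρ → PN, (∀ v, (U v).vars ⊆ range n ∧
          (U v).totalDegree ≤ K + n * (K * (K + 1) ^ n * (K + 1))) ∧
        η / 8 ≤ Pe p (fun ω => ∀ b : ℕ → ℝ, (∀ i < n, |nat g (Ψ ω) b i| ≤ R₀) →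
          |eval b (U (ρ ω)) - eval b (Q ω)| ≤ 1 / 2 ^ (g n + ⌊η / 32 * X⌋₊)) := by
  classical
  obtain ⟨C₁, hC₁, hrem⟩ := uni0 n K 2 (by norm_num)
  obtain ⟨C₂, hC₂, hcoef⟩ := lfa_le n K
  obtain ⟨C₃, hC₃, hnear⟩ := unl_near n K R₀
  obtain ⟨κ₁, hκ₁, X₁, hlf⟩ := leaf2 n (K * (K + 1) ^ n) (half_pos hη) (by linarith)
  obtain ⟨C₄, hC₄⟩ : ∃ C₄ : ℝ, C₄ = (((K * (K + 1) ^ n : ℕ) : ℝ) + 1) ^ n *
    Pool.R1P.Cs n (K * (K + 1) ^ n) 1 := ⟨_, rfl⟩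
  have hC₄0 : 0 ≤ C₄ := by
    rw [hC₄]
    have := Pool.R1P.Cs_nonneg (k := n) (K := K * (K + 1) ^ n) (le_refl (1 : ℝ))
    positivity
  obtain ⟨l, hl⟩ : ∃ l, l = Real.log 2 := ⟨_, rfl⟩
  have hl1 : 1 / 2 ≤ l := by
    rw [hl]
    have := Real.log_two_gt_d9
    linarith
  have hl2 : l ≤ 1 := by
    rw [hl]
    have := Real.log_two_lt_d9
    linarith
  obtain ⟨κ₂, hκ₂⟩ : ∃ κ₂, κ₂ = min κ₁ 1 := ⟨_, rfl⟩
  have hκ20 : 0 < κ₂ := by rw [hκ₂]; exact lt_min hκ₁ one_pos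
  have hκ21 : κ₂ ≤ κ₁ := by rw [hκ₂]; exact min_le_left _ _
  have hκ22 : κ₂ ≤ 1 := by rw [hκ₂]; exact min_le_right _ _
  obtain ⟨C₅, hC₅⟩ : ∃ C₅ : ℝ, C₅ = 2 + 2 * C₂ + 2 * C₄ * C₂ := ⟨_, rfl⟩
  have hC₅1 : 1 ≤ C₅ := by
    rw [hC₅]
    have : 0 ≤ 2 * C₄ * C₂ := by positivity
    linarith
  obtain ⟨c₀, hc₀⟩ : ∃ c₀ : ℝ, c₀ = n * Real.log 5 + 1 := ⟨_, rfl⟩
  have hc00 : 0 ≤ c₀ := by
    rw [hc₀]
    have : 0 ≤ Real.log 5 := Real.log_nonneg (by norm_num)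
    positivity
  obtain ⟨M₀, hM₀⟩ : ∃ M₀ : ℝ, M₀ = 2 * C₁ / η * c₀ + Real.log C₅ + Real.log C₃ + 2 := ⟨_, rfl⟩
  have hlC5 : 0 ≤ Real.log C₅ := Real.log_nonneg hC₅1
  have hlC3 : 0 ≤ Real.log C₃ := Real.log_nonneg hC₃
  have hM1 : 0 ≤ 2 * C₁ / η * c₀ := by positivity
  obtain ⟨κ, hκ⟩ : ∃ κ, κ = κ₂ * η * l / (16 * C₁) := ⟨_, rfl⟩
  have hκ0 : 0 < κ := by
    rw [hκ]
    have : 0 < l := by linarith
    positivity
  have hκs : κ ≤ κ₂ / 16 := by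
    rw [hκ, div_le_div_iff₀ (by positivity) (by norm_num)]
    have h1 : κ₂ * η * l ≤ κ₂ := by
      have h2 : η * l ≤ 1 := by nlinarith
      nlinarith
    nlinarith
  obtain ⟨X₂, hX₂⟩ := exists_nat_ge (8 * M₀ / κ₂)
  obtain ⟨X₃, hX₃⟩ := exists_nat_ge (64 * (Real.log C₃ + 1) / η)
  refine ⟨κ, max X₁ (max X₂ X₃), hκ0, by linarith, ?_⟩
  intro Ω Ρ Γ τ δ _ p hp X ρ y W D g Ψ Q x x' Lf hX dyW dWΨ dyQ dρW dρD dρN dcu tΨ gΨ vQ gQ hx hx'
    hxx hQ hcnt hful hrate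
  have hX1 : X₁ ≤ X := (le_max_left _ _).trans hX
  have hXZ : 8 * M₀ ≤ κ₂ * X := by
    have h1 : (X₂ : ℝ) ≤ X := by
      exact_mod_cast ((le_max_left _ _).trans (le_max_right _ _)).trans hX
    have h2 := hX₂.trans h1
    rw [div_le_iff₀ hκ20] at h2
    linarith
  have hX3 : 64 * (Real.log C₃ + 1) ≤ η * X := by
    have h1 : (X₃ : ℝ) ≤ X := by
      exact_mod_cast ((le_max_right _ _).trans (le_max_right _ _)).trans hX
    have h2 := hX₃.trans h1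
    rw [div_le_iff₀ hη] at h2
    linarith
  have hX0 : (0 : ℝ) ≤ X := Nat.cast_nonneg X
  have dyΨ : Det p y Ψ := fun ω ω' a b h => dWΨ ω ω' a b (dyW ω ω' a b h)
  -- the digits of the position given the context
  have hdig : n * (X * Real.log 2) - (2 * (κ * X) + n * Real.log 5) ≤
      CH p (fun ω (i : Fin n) => ⌊(2 : ℝ) ^ X * nat g (Ψ ω) (x ω) i⌋) y := by
    have h1 := CH_le_add hp.nonneg D (fun ω (i : Fin n) => ⌊(2 : ℝ) ^ X * cu n g (Ψ ω) (x' ω) i⌋) y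
    have h2 : CH p D (fun ω => ((fun (i : Fin n) => ⌊(2 : ℝ) ^ X * cu n g (Ψ ω) (x' ω) i⌋), y ω)) ≤
        CH p D (fun ω => (W ω, fun (i : Fin n) => ⌊(2 : ℝ) ^ X * cu n g (Ψ ω) (x' ω) i⌋)) := by
      refine CH_mono_cond hp.nonneg fun ω ω' a b h => ?_
      exact Prod.ext (dyW ω ω' a b (Prod.ext_iff.1 h).2) (Prod.ext_iff.1 h).1
    have h3 := hcnt p hp (fun _ h => h) (fun _ => X) fun _ => le_rfl
    rw [Finset.sum_const, Finset.card_univ, Fintype.card_fin, nsmul_eq_mul] at h3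
    have h4 := CH_le_add hp.nonneg
      (fun ω (i : Fin n) => ⌊(2 : ℝ) ^ X * cu n g (Ψ ω) (x' ω) i⌋)
      (fun ω (i : Fin n) => ⌊(2 : ℝ) ^ X * nat g (Ψ ω) (x ω) i⌋) y
    have h5 := CH_le_vec hp.nonneg hp.sum_one
      (fun ω (i : Fin n) => ⌊(2 : ℝ) ^ X * cu n g (Ψ ω) (x' ω) i⌋)
      (fun ω => ((fun (i : Fin n) => ⌊(2 : ℝ) ^ X * nat g (Ψ ω) (x ω) i⌋), y ω)) (fun _ => 2)
      (fun ω ω' a b h k => by
        have e1 := congrFun (Prod.ext_iff.1 h).1 k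
        have e2 := floor_near e1
        have e3 := scal_le (hxx ω a k k.2.le)
        have e4 := scal_le (hxx ω' b k k.2.le)
        have e5 : |(2 : ℝ) ^ X * cu n g (Ψ ω) (x' ω) k - 2 ^ X * cu n g (Ψ ω') (x' ω') k| ≤ 1 := by
          unfold cu
          have a1 := abs_lt.1 e2
          have a2 := abs_le.1 e3
          have a3 := abs_le.1 e4
          rw [abs_le]
          constructor <;> nlinarith
        refine (floor_dist e5).trans (by norm_num))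
    have e6 : Ex p (fun _ : Ω => Real.log (2 * (2 : ℝ) + 1)) = Real.log 5 := by
      rw [show (2 : ℝ) * 2 + 1 = 5 by norm_num]
      exact Ex_const hp.sum_one _
    rw [e6] at h5
    nlinarith
  -- the leaf is near the reference polynomial on the natural box
  obtain ⟨E, hE⟩ : ∃ E, E = C₁ * (2 * (κ * X) + n * Real.log 5 + 1) / (η / 2) := ⟨_, rfl⟩
  have hEv : E = κ₂ * X * l / 4 + 2 * C₁ / η * c₀ := by
    rw [hE, hc₀, hκ]
    field_simp
    ring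
  have hZ0 : 0 ≤ κ₂ * X := by positivity
  have hE1 : E + Real.log C₅ + l ≤ κ₂ * X * l := by
    rw [hEv]
    have h1 : 2 * C₁ / η * c₀ + Real.log C₅ + l ≤ κ₂ * X / 8 := by linarith
    have h2 : κ₂ * X / 8 ≤ κ₂ * X * l / 4 := by nlinarith
    have h3 : 0 ≤ κ₂ * X * l := by nlinarith
    linarith
  have hE0 : 0 ≤ E := by
    rw [hEv]
    have h3 : 0 ≤ κ₂ * X * l := by nlinarith
    linarith
  obtain ⟨h, hh⟩ : ∃ h, h = ⌊κ₂ * X⌋₊ := ⟨_, rfl⟩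
  have hh1 : (h : ℝ) ≤ κ₂ * X := by rw [hh]; exact Nat.floor_le hZ0
  have hh2 : κ₂ * X < h + 1 := by rw [hh]; exact Nat.lt_floor_add_one _
  have hpow : C₅ * Real.exp E ≤ 2 ^ h := by
    have e1 : (2 : ℝ) ^ h = Real.exp (h * l) := by
      rw [hl, Real.exp_nat_mul, Real.exp_log two_pos]
    have e2 : C₅ * Real.exp E = Real.exp (Real.log C₅ + E) := by
      rw [Real.exp_add, Real.exp_log (by linarith)]
    rw [e1, e2]
    refine Real.exp_le_exp.2 ?_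
    nlinarith
  obtain ⟨Gd, hGd⟩ : ∃ Gd : Ω → Prop, Gd = fun ω => ∀ b : ℕ → ℝ,
      (∀ i < n, |nat g (Ψ ω) b i| ≤ 2) →
      |eval b (Q ω - Ψ ω n)| ≤ Real.exp E * (2 / 2 ^ g n) := ⟨_, rfl⟩
  have hbad : Pe p (fun ω => ¬ Gd ω) ≤ η / 2 := by
    rw [← Pb_Pe, hGd, hE]
    refine hrem Ω Γ p X y g Ψ (fun ω => Q ω - Ψ ω n) x (2 / 2 ^ g n)
      (2 * (κ * X) + n * Real.log 5) (η / 2) hp dyΨ ?_ tΨ gΨ ?_ ?_ (by positivity) ?_
      (half_pos hη) (by linarith) (fun ω hω i hi => hx ω hω i hi.le) hdig ?_ ?_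
    · intro ω ω' a b hh
      have h1 : Q ω = Q ω' := dyQ ω ω' a b hh
      have h2 : Ψ ω = Ψ ω' := dyΨ ω ω' a b hh
      simp only
      rw [h1, h2]
    · intro ω hω
      exact AdxRow.vars_sub_le (vQ ω hω) (tΨ ω hω n)
    · intro ω hω
      exact (totalDegree_sub _ _).trans (max_le (gQ ω hω) (gΨ ω hω n))
    · have : 0 ≤ Real.log 5 := Real.log_nonneg (by norm_num)
      positivity
    · rw [← hE, ← hl]
      have h3 : κ₂ * X * l ≤ X * l := by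
        have : κ₂ * X ≤ X := by nlinarith
        exact mul_le_mul_of_nonneg_right this (by linarith)
      linarith
    · intro ω hω
      have h1 := hx ω hω n le_rfl
      have h2 := hQ ω hω
      have p0 : (0 : ℝ) < 2 ^ g n := by positivity
      unfold nat at h1
      rw [abs_mul, abs_of_pos p0] at h1
      have h3 : |x ω n - eval (x ω) (Ψ ω n)| ≤ 1 / 2 ^ g n := by
        rw [le_div_iff₀ p0]
        linarith
      have h4 : (1 : ℝ) / 2 ^ (g n + X) ≤ 1 / 2 ^ g n :=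
        one_div_le_one_div_of_le p0 (pow_le_pow_right₀ (by norm_num) (Nat.le_add_right _ _))
      rw [map_sub]
      have h5 := abs_sub (x ω n - eval (x ω) (Ψ ω n)) (x ω n - eval (x ω) (Q ω))
      rw [sub_sub_sub_cancel_left] at h5
      have e : (2 : ℝ) / 2 ^ g n = 1 / 2 ^ g n + 1 / 2 ^ g n := by ring
      rw [e]
      linarith
  have hcmp := Pe_compl hp Gd
  have hG1 : 1 - η / 2 ≤ Pe p Gd := by linarith
  have hG0 : 0 < Pe p Gd := by linarith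
  obtain ⟨p', hp'⟩ : ∃ p', p' = Pool.Agent.H49.Ent.cond p Gd True := ⟨_, rfl⟩
  have hp'l : IsLaw p' := by rw [hp']; exact isLaw_cond hp hG0
  have hp'1 : ∀ ω, 0 < p' ω → 0 < p ω ∧ Gd ω := by
    intro ω hω
    rw [hp'] at hω
    have := (cond_pos_iff hp.nonneg Gd True ω).1 hω
    exact ⟨this.1, of_eq_true this.2⟩
  have hp'0 : ∀ ω, 0 < p' ω → 0 < p ω := fun ω hω => (hp'1 ω hω).1
  have hDet : ∀ {S T : Type} {A : Ω → S} {B : Ω → T}, Det p A B → Det p' A B :=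
    fun h ω ω' a b => h ω ω' (hp'0 ω a) (hp'0 ω' b)
  -- fullness and rates on the good event
  have hful' : Lf - (4 * (κ * X) + 2 * Real.log 2) ≤ CH p' D y := by
    rw [hp']
    refine ful_sub hp (by linarith) D y (by positivity) (fun q hq hq0 => ?_) hful
    have h1 := hcnt q hq hq0 (fun _ => 0) fun _ => Nat.zero_le _
    have h2 : CH q D y ≤ CH q D (fun ω => (W ω,
        fun l => ⌊(2 : ℝ) ^ 0 * cu n g (Ψ ω) (x' ω) l⌋)) := by
      refine CH_mono_cond hq.nonneg fun ω ω' a b hh => ?_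
      refine Prod.ext (dyW ω ω' (hq0 ω a) (hq0 ω' b) hh) ?_
      funext l
      have e1 := cu_mem (hx' ω (hq0 ω a)) l
      have e2 := cu_mem (hx' ω' (hq0 ω' b)) l
      simp only [pow_zero, one_mul]
      rw [Int.floor_eq_zero_iff.2 ⟨e1.1, e1.2⟩, Int.floor_eq_zero_iff.2 ⟨e2.1, e2.2⟩]
    refine h2.trans (h1.trans (le_of_eq ?_))
    simp
  have hrate' : CH p' (fun ω => ⌊(2 : ℝ) ^ X * nat g (Ψ ω) (x' ω) n⌋)
      (fun ω => (D ω, W ω)) ≤ (1 - η / 2) * (X * Real.log 2) := by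
    rw [hp']
    exact rate_sub hp hη.le hη1 hG1 _ _ (by rw [← hl]; positivity) hrate
  -- the coefficients
  obtain ⟨a, ha⟩ : ∃ a : Ω → (Fin n → Fin (K * (K + 1) ^ n + 1)) → ℝ,
    a = fun ω => lfa n (K * (K + 1) ^ n) g (Ψ ω) (Q ω) := ⟨_, rfl⟩
  obtain ⟨yv, hyv⟩ : ∃ yv : Ω → Fin n → ℝ, yv = fun ω i => cl (cu n g (Ψ ω) (x' ω) i) := ⟨_, rfl⟩
  have hyv' : ∀ ω, 0 < p ω → yv ω = cu n g (Ψ ω) (x' ω) := by
    intro ω hω
    rw [hyv]
    funext i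
    have e1 := cu_mem (hx' ω hω) i
    exact cl_eq e1.1 e1.2
  have hale : ∀ ω, 0 < p' ω → ∀ al, |a ω al| ≤ C₂ * (2 * Real.exp E) := by
    intro ω hω al
    obtain ⟨h1, h2⟩ := hp'1 ω hω
    rw [hGd] at h2
    rw [ha]
    refine hcoef (tΨ ω h1) (gΨ ω h1) (vQ ω h1) (gQ ω h1) (fun b hb => ?_) al
    refine (h2 b hb).trans (le_of_eq ?_)
    ring
  have hexp1 : 1 ≤ Real.exp E := Real.one_le_exp hE0
  obtain ⟨s, hs⟩ : ∃ s, s = ⌊η / 2 / 8 * X⌋₊ := ⟨_, rfl⟩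
  have hs1 : (s : ℝ) ≤ η / 2 / 8 * X := by rw [hs]; exact Nat.floor_le (by positivity)
  have hs2 : η / 2 / 8 * X < s + 1 := by rw [hs]; exact Nat.lt_floor_add_one _
  have hUe : ∃ U : Ρ → (Fin n → Fin (K * (K + 1) ^ n + 1)) → ℝ,
      η / 2 / 2 ≤ Pb p' (fun ω => ∀ al, |a ω al - U (ρ ω) al| ≤ 1 / 2 ^ s) := by
   refine hlf hp'l X s h ρ y W D yv (fun ω => nat g (Ψ ω) (x' ω) n) a
    (4 * (κ * X) + 2 * Real.log 2) Lf hX1 hs1
    (hh1.trans (mul_le_mul_of_nonneg_right hκ21 hX0)) (by rw [← hl]; positivity) ?_ ?_ ?_ ?_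
    (hDet dρW) (hDet dρD) (hDet dρN) ?_ ?_ ?_ ?_ ?_ hrate'
   · -- the size of theta
     rw [← hl]
     have h1 : 4 * (κ * X) ≤ κ₂ * X / 4 := by nlinarith
     have h2 : 2 * l ≤ κ₂ * X / 4 := by linarith
     have h3 : κ₂ * X ≤ κ₁ * X := mul_le_mul_of_nonneg_right hκ21 hX0
     linarith
   · intro ω i
     rw [hyv]
     exact cl_nonneg _
   · intro ω i
     rw [hyv]
     exact cl_lt _
   · intro ω ω' u v hh
     have h1 : Q ω = Q ω' := dyQ ω ω' (hp'0 ω u) (hp'0 ω' v) (Prod.ext_iff.1 hh).1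
     have h2 : Ψ ω = Ψ ω' := dyΨ ω ω' (hp'0 ω u) (hp'0 ω' v) (Prod.ext_iff.1 hh).1
     rw [ha]
     simp only
     rw [h1, h2]
   · intro ω ω' u v hh
     have h1 := dcu ω ω' (hp'0 ω u) (hp'0 ω' v) hh
     rw [hyv]
     funext i
     exact congrArg cl (congrFun h1 i)
   · intro ω hω al
     refine (hale ω hω al).trans ?_
     refine le_trans ?_ hpow
     rw [hC₅]
     have : 0 ≤ 2 * C₄ * C₂ := by positivity
     nlinarith
   · intro ω hω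
     obtain ⟨h1, h2⟩ := hp'1 ω hω
     have p0 : (0 : ℝ) < 2 ^ g n := by positivity
     have pX : (0 : ℝ) < 2 ^ X := by positivity
     have e1 := ev_lfa (g := g) (tΨ ω h1) (gΨ ω h1) (vQ ω h1) (gQ ω h1) (x ω)
     have e2 : Pool.JMN.ev (a ω) (yv ω) = Pool.JMN.ev (a ω) (cu n g (Ψ ω) (x' ω)) := by
       rw [hyv' ω h1]
     rw [e2]
     have e3 : |Pool.JMN.ev (a ω) (cu n g (Ψ ω) (x ω)) -
         Pool.JMN.ev (a ω) (cu n g (Ψ ω) (x' ω))| ≤ C₄ * (1 / 2 ^ X * (C₂ * (2 * Real.exp E))) := by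
       have h3 := Pool.R1P.ev_lip (q := a ω) (x := cu n g (Ψ ω) (x ω))
         (x' := cu n g (Ψ ω) (x' ω)) (M := C₂ * (2 * Real.exp E)) (ε := 1 / 2 ^ X)
         (by positivity) (by positivity) (by
           rw [div_le_one pX]
           exact one_le_pow₀ (by norm_num)) (fun i => by
             have e1 := cu_mem (hx' ω h1) i
             rw [abs_of_nonneg e1.1]
             exact e1.2.le) (fun i => by
             have e4 := hxx ω h1 i i.2.le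
             unfold cu
             have e5 : (nat g (Ψ ω) (x ω) i + 2) / 4 - (nat g (Ψ ω) (x' ω) i + 2) / 4 =
               (nat g (Ψ ω) (x ω) i - nat g (Ψ ω) (x' ω) i) / 4 := by ring
             rw [e5, abs_div, abs_of_pos (by norm_num : (0 : ℝ) < 4)]
             have : 0 ≤ |nat g (Ψ ω) (x ω) i - nat g (Ψ ω) (x' ω) i| := abs_nonneg _
             linarith) (hale ω hω)
       refine h3.trans (le_of_eq ?_)
       rw [hC₄]
       ring
     have e4 := hxx ω h1 n le_rfl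
     have e5 : |(2 : ℝ) ^ g n * (x ω n - eval (x ω) (Q ω))| ≤ 1 / 2 ^ X := by
       rw [abs_mul, abs_of_pos p0]
       calc (2 : ℝ) ^ g n * |x ω n - eval (x ω) (Q ω)| ≤ 2 ^ g n * (1 / 2 ^ (g n + X)) :=
             mul_le_mul_of_nonneg_left (hQ ω h1) p0.le
         _ = 1 / 2 ^ X := by
             rw [pow_add]
             field_simp
     have e6 : nat g (Ψ ω) (x ω) n - Pool.JMN.ev (a ω) (cu n g (Ψ ω) (x ω)) =
         2 ^ g n * (x ω n - eval (x ω) (Q ω)) := by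
       rw [ha]
       simp only
       rw [e1]
       unfold nat
       ring
     have e7 : nat g (Ψ ω) (x' ω) n - Pool.JMN.ev (a ω) (cu n g (Ψ ω) (x' ω)) =
         -(nat g (Ψ ω) (x ω) n - nat g (Ψ ω) (x' ω) n) +
         (2 ^ g n * (x ω n - eval (x ω) (Q ω)) + (Pool.JMN.ev (a ω) (cu n g (Ψ ω) (x ω)) -
         Pool.JMN.ev (a ω) (cu n g (Ψ ω) (x' ω)))) := by
       rw [← e6]
       ring
     rw [e7]
     have e8 := abs_add_le (-(nat g (Ψ ω) (x ω) n - nat g (Ψ ω) (x' ω) n))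
       (2 ^ g n * (x ω n - eval (x ω) (Q ω)) + (Pool.JMN.ev (a ω) (cu n g (Ψ ω) (x ω)) -
         Pool.JMN.ev (a ω) (cu n g (Ψ ω) (x' ω))))
     have e9 := abs_add_le (2 ^ g n * (x ω n - eval (x ω) (Q ω)))
       (Pool.JMN.ev (a ω) (cu n g (Ψ ω) (x ω)) - Pool.JMN.ev (a ω) (cu n g (Ψ ω) (x' ω)))
     rw [abs_neg] at e8
     have e10 : (2 + 2 * C₄ * C₂) * Real.exp E ≤ 2 ^ h := by
       refine le_trans (mul_le_mul_of_nonneg_right ?_ (Real.exp_pos _).le) hpow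
       rw [hC₅]
       linarith
     have e11 : (1 : ℝ) / 2 ^ X + (1 / 2 ^ X + C₄ * (1 / 2 ^ X * (C₂ * (2 * Real.exp E)))) ≤
         2 ^ h / 2 ^ X := by
       rw [le_div_iff₀ pX]
       have e12 : ((1 : ℝ) / 2 ^ X + (1 / 2 ^ X + C₄ * (1 / 2 ^ X * (C₂ * (2 * Real.exp E))))) *
           2 ^ X = 2 + 2 * C₄ * C₂ * Real.exp E := by
         field_simp
         ring
       rw [e12]
       nlinarith
     linarith
   · intro q hq hq0 d hd
     have h1 := hcnt q hq (fun ω hω => hp'0 ω (hq0 ω hω)) d hd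
     have h2 : CH q D (fun ω => (W ω, fun l => ⌊(2 : ℝ) ^ (d l) * yv ω l⌋)) ≤
         CH q D (fun ω => (W ω, fun l => ⌊(2 : ℝ) ^ (d l) * cu n g (Ψ ω) (x' ω) l⌋)) := by
       refine CH_mono_cond hq.nonneg fun ω ω' u v hh => ?_
       simp only [Prod.mk.injEq] at hh ⊢
       refine ⟨hh.1, ?_⟩
       have e1 := hh.2
       rw [hyv' ω (hp'0 ω (hq0 ω u)), hyv' ω' (hp'0 ω' (hq0 ω' v))] at e1
       exact e1
     have h3 : κ * X ≤ 4 * (κ * X) + 2 * Real.log 2 := by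
       rw [← hl]
       have : 0 ≤ κ * X := by positivity
       linarith
     linarith
   · refine hful'.trans (CH_mono_cond hp'l.nonneg fun ω ω' u v hh => ?_)
     exact Prod.ext hh (dyW ω ω' (hp'0 ω u) (hp'0 ω' v) hh)
  obtain ⟨U, hU⟩ := hUe
  · -- the polynomials
    obtain ⟨V, hV0, hV1⟩ : ∃ V : Ρ → ℕ → PN,
        (∀ v, (¬ ∃ ω, 0 < p ω ∧ ρ ω = v) → V v = fun _ => 0) ∧
        ∀ v, (∃ ω, 0 < p ω ∧ ρ ω = v) → ∃ ω, 0 < p ω ∧ ρ ω = v ∧ V v = Ψ ω := by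
      refine ⟨fun v => if hv : ∃ ω, 0 < p ω ∧ ρ ω = v then Ψ hv.choose else fun _ => 0,
        fun v hv => dif_neg hv, fun v hv => ⟨hv.choose, hv.choose_spec.1, hv.choose_spec.2,
        dif_pos hv⟩⟩
    have hVt : ∀ v, TriN (V v) := by
      intro v
      by_cases hv : ∃ ω, 0 < p ω ∧ ρ ω = v
      · obtain ⟨ω, h1, -, h3⟩ := hV1 v hv
        rw [h3]
        exact tΨ ω h1
      · rw [hV0 v hv]
        intro i
        simp only [vars_0]
        exact Finset.empty_subset _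
    have hVd : ∀ v i, (V v i).totalDegree ≤ K := by
      intro v i
      by_cases hv : ∃ ω, 0 < p ω ∧ ρ ω = v
      · obtain ⟨ω, h1, -, h3⟩ := hV1 v hv
        rw [h3]
        exact gΨ ω h1 i
      · rw [hV0 v hv]
        simp
    have hVe : ∀ ω, 0 < p ω → V (ρ ω) = Ψ ω := by
      intro ω hω
      obtain ⟨ω', h1, h2, h3⟩ := hV1 (ρ ω) ⟨ω, hω, rfl⟩
      rw [h3]
      exact dWΨ ω' ω h1 hω (dρW ω' ω h1 hω h2)
    refine ⟨fun v => unl n (K * (K + 1) ^ n) g (V v) (U v), fun v => ⟨vars_unl (hVt v),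
      deg_unl (hVd v)⟩, ?_⟩
    obtain ⟨E₁, hE₁⟩ : ∃ E₁ : Ω → Prop, E₁ = fun ω => ∀ al, |a ω al - U (ρ ω) al| ≤ 1 / 2 ^ s :=
      ⟨_, rfl⟩
    rw [← hE₁, Pb_Pe] at hU
    have h1 : Pe p' E₁ = Pe p (fun ω => Gd ω ∧ E₁ ω) / Pe p Gd := by
      rw [hp']
      exact Pe_cond (p := p) (A := Gd) E₁
    have h2 : η / 2 / 2 * Pe p Gd ≤ Pe p (fun ω => Gd ω ∧ E₁ ω) := by
      rw [h1, le_div_iff₀ hG0] at hU
      exact hU
    have h3 : η / 8 ≤ η / 2 / 2 * Pe p Gd := by nlinarith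
    refine h3.trans (h2.trans ?_)
    rw [← Pb_Pe, ← Pb_Pe]
    refine Pool.MIC.Frm.Pb_supp hp.nonneg fun ω hω hh => ?_
    obtain ⟨-, h4⟩ := hh
    rw [hE₁] at h4
    intro b hb
    simp only
    rw [hVe ω hω]
    have h5 := hnear (q := U (ρ ω)) (ε := 1 / 2 ^ s) (tΨ ω hω) (gΨ ω hω) (vQ ω hω) (gQ ω hω)
      (fun al => by
        have := h4 al
        rw [ha] at this
        exact this) b hb
    refine h5.trans ?_
    have p0 : (0 : ℝ) < 2 ^ g n := by positivity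
    have ph : (0 : ℝ) < 2 ^ s := by positivity
    have hC3 : C₃ * 2 ^ ⌊η / 32 * X⌋₊ ≤ 2 ^ s := by
      have hκX : 0 ≤ η / 32 * X := by positivity
      have e0 := Nat.floor_le hκX
      have e1 : (2 : ℝ) ^ s = Real.exp (s * l) := by
        rw [hl, Real.exp_nat_mul, Real.exp_log two_pos]
      have e2 : (2 : ℝ) ^ ⌊η / 32 * X⌋₊ = Real.exp ((⌊η / 32 * X⌋₊ : ℕ) * l) := by
        rw [hl, Real.exp_nat_mul, Real.exp_log two_pos]
      have e3 : C₃ = Real.exp (Real.log C₃) := (Real.exp_log (by linarith)).symm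
      rw [e1, e2, e3, ← Real.exp_add]
      refine Real.exp_le_exp.2 ?_
      have e5 : (⌊η / 32 * X⌋₊ : ℝ) * l ≤ η / 32 * X * l :=
        mul_le_mul_of_nonneg_right e0 (by linarith)
      have e6 : (η / 2 / 8 * X - 1) * l ≤ s * l :=
        mul_le_mul_of_nonneg_right (by linarith) (by linarith)
      have e7 : η / 32 * X * (1 / 2) ≤ η / 32 * X * l := mul_le_mul_of_nonneg_left hl1 hκX
      have e8 : (η / 2 / 8 * X - 1) * l = η / 32 * X * l + η / 32 * X * l - l := by ring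
      linarith
    rw [pow_add, mul_one_div, div_div, div_le_div_iff₀ (by positivity) (by positivity), one_mul]
    calc C₃ * (2 ^ g n * 2 ^ ⌊η / 32 * X⌋₊) = 2 ^ g n * (C₃ * 2 ^ ⌊η / 32 * X⌋₊) := by ring
      _ ≤ 2 ^ g n * 2 ^ s := mul_le_mul_of_nonneg_left hC3 p0.le
      _ = 2 ^ s * 2 ^ g n := by ring

end Pool.TUB
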