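import Pool.Agent.H89.TUB.Seq

/-!
# Bounds of polynomials near the points of a law which is almost full

`kfr`: if a polynomial is bounded at the points and the position has the defect `δ` in the natural
box, then it is bounded on the cells of depth `m` around the points, outside an event of probability
`C (δ + C) / m`. The degree enters only the constants outside the exponents.
-/

set_option autoImplicit false

namespace Pool.TUB

open Finset Real MvPolynomial
open Pool.Agent.H49.Ent Pool.Agent.H32.Dense Pool.STK Pool.KA Pool.KSAT Pool.K2S Pool.STAT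
open Pool.BFL (Pb)
open Pool.MIC.Frm (nat pt)

/-- The point with the digits `D`. -/
noncomputable def gx (J : ℕ) (D : ℕ → ℤ) (l : ℕ) : ℝ := (D l : ℝ) / 2 ^ J

theorem nat_congr {g : ℕ → ℕ} {Ψ : ℕ → PN} (hΨ : TriN Ψ) {b b' : ℕ → ℝ} {i : ℕ}
    (h : ∀ l ≤ i, b l = b' l) : nat g Ψ b i = nat g Ψ b' i := by
  unfold nat
  rw [h i le_rfl, Pool.SYS35.eval_congr (hΨ i) fun l hl => h l hl.le]

section node

variable {n D m : ℕ}

/-- The nodes: the coordinates before `i` are those of the point, the others are in the cell. -/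
noncomputable def nd (n D m i : ℕ) (v : ℕ → ℝ) (c : ℕ → ℤ) (k : Fin n → Fin (D + 1)) (l : ℕ) : ℝ :=
  if l < i then v l else if h : l < n then
    ((c l : ℝ) + ((k ⟨l, h⟩ : Fin (D + 1)) : ℕ) / (D + 1)) / 2 ^ m else 0

/-- The polynomials in the variable `i` at the nodes. -/
noncomputable def ndq (n D m i : ℕ) (v : ℕ → ℝ) (c : ℕ → ℤ) (f : PN) (k : Fin n → Fin (D + 1)) :
    Polynomial ℝ :=
  aeval (fun l => if l = i then (Polynomial.X : Polynomial ℝ)
    else Polynomial.C (nd n D m i v c k l)) f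

theorem ndq_deg {i : ℕ} {v : ℕ → ℝ} {c : ℕ → ℤ} {f : PN} (hf : f.totalDegree ≤ D)
    (k : Fin n → Fin (D + 1)) : (ndq n D m i v c f k).natDegree ≤ D := by
  unfold ndq
  refine Pool.UNJ.natDegree_aeval_le _ _ (fun l => ?_) hf
  split_ifs
  · exact Polynomial.natDegree_X_le
  · rw [Polynomial.natDegree_C]
    exact Nat.zero_le _

theorem ndq_eval {i : ℕ} {v : ℕ → ℝ} {c : ℕ → ℤ} {f : PN} (k : Fin n → Fin (D + 1)) (s : ℝ) :
    (ndq n D m i v c f k).eval s = eval (fun l => if l = i then s else nd n D m i v c k l) f := by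
  unfold ndq
  rw [Pool.UNJ.eval_aeval_poly]
  congr 2
  funext l
  split_ifs <;> simp

end node

theorem log_pow_le {a : ℕ} {c : ℝ} (hc : 0 < c) :
    Real.log (c * 2 ^ a) = a * Real.log 2 + Real.log c := by
  rw [Real.log_mul hc.ne' (by positivity), Real.log_pow]
  ring

section laws

variable {Ω Γ : Type} [Fintype Ω]

/-- The digits of two points with the same earlier coordinates. -/
theorem dig_dist {J : ℕ} {g : ℕ → ℕ} {Ψ : ℕ → PN} {D D' : ℕ → ℤ} {l : ℕ} (hΨ : TriN Ψ)
    (h : ∀ k < l, D k = D' k) {d : ℝ} (hd : |nat g Ψ (gx J D) l - nat g Ψ (gx J D') l| ≤ d)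
    (hg : g l ≤ J) : |((D l - D' l : ℤ) : ℝ)| ≤ d * 2 ^ (J - g l) := by
  have e1 : eval (gx J D) (Ψ l) = eval (gx J D') (Ψ l) :=
    Pool.SYS35.eval_congr (hΨ l) fun k hk => by unfold gx; rw [h k hk]
  unfold nat at hd
  rw [e1] at hd
  have e2 : (2 : ℝ) ^ g l * (gx J D l - eval (gx J D') (Ψ l)) -
      2 ^ g l * (gx J D' l - eval (gx J D') (Ψ l)) =
      2 ^ g l / 2 ^ J * ((D l - D' l : ℤ) : ℝ) := by
    unfold gx
    push_cast
    ring
  have e3 : (2 : ℝ) ^ J = 2 ^ (J - g l) * 2 ^ g l := by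
    rw [← pow_add]
    congr 1
    omega
  rw [e2, abs_mul, abs_of_pos (by positivity), e3] at hd
  have p1 : (0 : ℝ) < 2 ^ (J - g l) := by positivity
  have p2 : (0 : ℝ) < 2 ^ g l := by positivity
  have e4 : (2 : ℝ) ^ g l / (2 ^ (J - g l) * 2 ^ g l) = 1 / 2 ^ (J - g l) := by
    field_simp
  rw [e4, one_div, inv_mul_le_iff₀ p1] at hd
  linarith

variable {p : Ω → ℝ} {y : Ω → Γ} {g : ℕ → ℕ} {Ψ : Ω → ℕ → PN} {Dg : Ω → ℕ → ℤ} {J m n : ℕ}

/-- The digits of the cell. -/
noncomputable def cd (m J : ℕ) (g : ℕ → ℕ) (Ψ : Ω → ℕ → PN) (Dg : Ω → ℕ → ℤ) (ω : Ω) (l : ℕ) : ℤ :=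
  ⌊(2 : ℝ) ^ m * nat g (Ψ ω) (gx J (Dg ω)) l⌋

/-- **The entropy of one digit of the cell** is the full one up to the defect. -/
theorem low_dig (hp : IsLaw p) (dΨ : Det p y Ψ) (tΨ : ∀ ω, 0 < p ω → TriN (Ψ ω))
    (hg : ∀ l < n, g l + m ≤ J)
    (hx : ∀ ω, 0 < p ω → ∀ l < n, |nat g (Ψ ω) (gx J (Dg ω)) l| ≤ 1) {δ : ℝ}
    (hful : (∑ l ∈ range n, ((J : ℝ) - g l)) * Real.log 2 - δ ≤ CH p (lo n Dg) y) {i : ℕ}
    (hi' : i < n) : m * Real.log 2 - δ - 2 * n * Real.log 5 ≤
      CH p (fun ω => cd m J g Ψ Dg ω i)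
        (fun ω => (hi (i + 1) n (cd m J g Ψ Dg) ω, (lo i Dg ω, y ω))) := by
  obtain ⟨C, hC⟩ : ∃ C : Ω → ℕ → ℤ, C = cd m J g Ψ Dg := ⟨_, rfl⟩
  rw [← hC]
  have hl5 : 0 ≤ Real.log 5 := Real.log_nonneg (by norm_num)
  have h35 : Real.log 3 ≤ Real.log 5 := Real.log_le_log (by norm_num) (by norm_num)
  -- the coordinates before
  have hA : CH p (lo i Dg) y ≤ ∑ l ∈ range i, (((J : ℝ) - g l) * Real.log 2 + Real.log 5) := by
    have h1 := seq_up hp Dg y 0 (fun l => ((J : ℝ) - g l) * Real.log 2 + Real.log 5) i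
      (Nat.zero_le _) fun l _ hl => by
        have hgl := hg l (by omega)
        refine (CH_le_dig hp (fun ω => Dg ω l) _ (L := 2 * 2 ^ (J - g l)) fun ω ω' a b hh => ?_).trans
          ?_
        · have e1 := Prod.ext_iff.1 hh
          have e2 : Ψ ω = Ψ ω' := dΨ ω ω' a b e1.2
          refine dig_dist (tΨ ω a) (fun k hk => lo_eq e1.1 hk) ?_ (by omega)
          have e3 := abs_le.1 (hx ω a l (by omega))
          have e4 := abs_le.1 (hx ω' b l (by omega))
          rw [← e2] at e4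
          rw [abs_le]
          constructor <;> linarith [e3.1, e3.2, e4.1, e4.2]
        · have p1 : (1 : ℝ) ≤ 2 ^ (J - g l) := one_le_pow₀ (by norm_num)
          have e5 : Real.log (2 * (2 * 2 ^ (J - g l)) + 1) ≤ Real.log (5 * 2 ^ (J - g l)) :=
            Real.log_le_log (by positivity) (by linarith)
          rw [log_pow_le (by norm_num), Nat.cast_sub (by omega)] at e5
          exact e5
    rw [Nat.Ico_zero_eq_range] at h1
    have h2 : CH p (lo i Dg) y ≤ CH p (lo i Dg) (fun ω => (lo 0 Dg ω, y ω)) :=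
      CH_mono_cond hp.nonneg fun ω ω' a b hh => Prod.ext
        (lo_ext (X := Dg) (ω := ω) (ω' := ω') fun l hl => absurd hl (Nat.not_lt_zero _)) hh
    exact h2.trans h1
  -- the cells after
  have hB : CH p (hi (i + 1) n C) (fun ω => (lo i Dg ω, y ω)) ≤
      ∑ l ∈ range n, (if i < l then m * Real.log 2 + Real.log 5 else 0) := by
    have h1 := seq_up hp (hi (i + 1) n C) (fun ω => (lo i Dg ω, y ω)) 0
      (fun l => if i < l then m * Real.log 2 + Real.log 5 else 0) n (Nat.zero_le _)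
      fun l _ hl => by
        by_cases hil : i < l
        · simp only [if_pos hil]
          refine (CH_le_dig hp (fun ω => hi (i + 1) n C ω l) _ (L := 2 * 2 ^ m)
            fun ω ω' a b hh => ?_).trans ?_
          · unfold hi
            rw [if_pos ⟨by omega, hl⟩, if_pos ⟨by omega, hl⟩, hC]
            unfold cd
            have p0 : (0 : ℝ) < 2 ^ m := by positivity
            have e3 := abs_le.1 (hx ω a l hl)
            have e4 := abs_le.1 (hx ω' b l hl)
            have f1 : ⌊(2 : ℝ) ^ m * nat g (Ψ ω) (gx J (Dg ω)) l⌋ ≤ ((2 ^ m : ℕ) : ℤ) := by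
              have h2 : (2 : ℝ) ^ m * nat g (Ψ ω) (gx J (Dg ω)) l ≤ 2 ^ m := by nlinarith
              have h3 := (Int.floor_le _).trans h2
              have h4 : ((⌊(2 : ℝ) ^ m * nat g (Ψ ω) (gx J (Dg ω)) l⌋ : ℤ) : ℝ) ≤
                (((2 ^ m : ℕ) : ℤ) : ℝ) := by push_cast; exact h3
              exact_mod_cast h4
            have f2 : ⌊(2 : ℝ) ^ m * nat g (Ψ ω') (gx J (Dg ω')) l⌋ ≤ ((2 ^ m : ℕ) : ℤ) := by
              have h2 : (2 : ℝ) ^ m * nat g (Ψ ω') (gx J (Dg ω')) l ≤ 2 ^ m := by nlinarith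
              have h3 := (Int.floor_le _).trans h2
              have h4 : ((⌊(2 : ℝ) ^ m * nat g (Ψ ω') (gx J (Dg ω')) l⌋ : ℤ) : ℝ) ≤
                (((2 ^ m : ℕ) : ℤ) : ℝ) := by push_cast; exact h3
              exact_mod_cast h4
            have f3 : -((2 ^ m : ℕ) : ℤ) ≤ ⌊(2 : ℝ) ^ m * nat g (Ψ ω) (gx J (Dg ω)) l⌋ := by
              rw [Int.le_floor]
              push_cast
              nlinarith
            have f4 : -((2 ^ m : ℕ) : ℤ) ≤ ⌊(2 : ℝ) ^ m * nat g (Ψ ω') (gx J (Dg ω')) l⌋ := by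
              rw [Int.le_floor]
              push_cast
              nlinarith
            have f5 : |⌊(2 : ℝ) ^ m * nat g (Ψ ω) (gx J (Dg ω)) l⌋ -
                ⌊(2 : ℝ) ^ m * nat g (Ψ ω') (gx J (Dg ω')) l⌋| ≤ 2 * ((2 ^ m : ℕ) : ℤ) := by
              rw [abs_le]
              constructor <;> linarith
            have f6 : ((|⌊(2 : ℝ) ^ m * nat g (Ψ ω) (gx J (Dg ω)) l⌋ -
                ⌊(2 : ℝ) ^ m * nat g (Ψ ω') (gx J (Dg ω')) l⌋| : ℤ) : ℝ) ≤
                ((2 * ((2 ^ m : ℕ) : ℤ) : ℤ) : ℝ) := by exact_mod_cast f5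
            rw [Int.cast_abs] at f6
            refine f6.trans (le_of_eq ?_)
            push_cast
            ring
          · have p1 : (1 : ℝ) ≤ 2 ^ m := one_le_pow₀ (by norm_num)
            have e5 : Real.log (2 * (2 * 2 ^ m) + 1) ≤ Real.log (5 * 2 ^ m) :=
              Real.log_le_log (by positivity) (by linarith)
            rw [log_pow_le (by norm_num)] at e5
            exact e5
        · simp only [if_neg hil]
          refine (CH_eq_zero hp.nonneg fun ω ω' _ _ _ => ?_).le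
          show hi (i + 1) n C ω l = hi (i + 1) n C ω' l
          unfold hi
          rw [if_neg (by omega), if_neg (by omega)]
    rw [Nat.Ico_zero_eq_range] at h1
    refine le_trans ?_ h1
    have h2 : CH p (lo n (hi (i + 1) n C)) (fun ω => (lo 0 (hi (i + 1) n C) ω, (lo i Dg ω, y ω))) =
        CH p (hi (i + 1) n C) (fun ω => (lo i Dg ω, y ω)) := by
      have e1 : lo n (hi (i + 1) n C) = hi (i + 1) n C := by
        funext ω l
        unfold lo
        split_ifs with hl
        · rfl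
        · unfold hi
          rw [if_neg (by omega)]
      rw [e1]
      refine CH_congr hp.nonneg (fun _ _ _ _ h => (Prod.ext_iff.1 h).1)
        (fun _ _ _ _ h => (Prod.ext_iff.1 h).1) (fun ω ω' _ _ hh => ?_) (fun ω ω' _ _ hh => ?_)
      · exact (Prod.ext_iff.1 hh).2
      · exact Prod.ext (lo_ext (X := hi (i + 1) n C) (ω := ω) (ω' := ω')
          fun l hl => absurd hl (Nat.not_lt_zero _)) hh
    exact h2.symm.le
  -- the rest
  obtain ⟨Z, hZ⟩ : ∃ Z : Ω → (ℕ → ℤ) × ((ℕ → ℤ) × Γ), Z = fun ω =>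
    (hi (i + 1) n C ω, (lo i Dg ω, y ω)) := ⟨_, rfl⟩
  rw [← hZ]
  have hD : CH p (lo n Dg) (fun ω => (C ω i, Z ω)) ≤
      ∑ l ∈ Finset.Ico i n, (((J : ℝ) - g l - m) * Real.log 2 + Real.log 5) := by
    have h1 := seq_up hp Dg (fun ω => (C ω i, (hi (i + 1) n C ω, y ω))) i
      (fun l => ((J : ℝ) - g l - m) * Real.log 2 + Real.log 5) n hi'.le
      fun l hil hl => by
        have hgl := hg l hl
        refine (CH_le_dig hp (fun ω => Dg ω l) _ (L := 2 ^ (J - g l - m))
          fun ω ω' a b hh => ?_).trans ?_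
        · simp only [Prod.mk.injEq] at hh
          obtain ⟨e1, e2, e3, e4⟩ := hh
          have e5 : Ψ ω = Ψ ω' := dΨ ω ω' a b e4
          have e6 : C ω l = C ω' l := by
            rcases Nat.eq_or_lt_of_le hil with h | h
            · rw [← h]
              exact e2
            · exact hi_eq e3 (by omega) hl
          have e7 : |nat g (Ψ ω) (gx J (Dg ω)) l - nat g (Ψ ω) (gx J (Dg ω')) l| ≤ 1 / 2 ^ m := by
            rw [hC] at e6
            unfold cd at e6
            have h3 := floor_near e6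
            rw [← e5, ← mul_sub, abs_mul, abs_of_pos (by positivity)] at h3
            rw [le_div_iff₀ (by positivity)]
            linarith
          refine (dig_dist (tΨ ω a) (fun k hk => lo_eq e1 hk) e7 (by omega)).trans (le_of_eq ?_)
          have e8 : (2 : ℝ) ^ (J - g l) = 2 ^ (J - g l - m) * 2 ^ m := by
            rw [← pow_add]
            congr 1
            omega
          rw [e8]
          field_simp
        · have p1 : (1 : ℝ) ≤ 2 ^ (J - g l - m) := one_le_pow₀ (by norm_num)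
          have e5 : Real.log (2 * 2 ^ (J - g l - m) + 1) ≤ Real.log (5 * 2 ^ (J - g l - m)) :=
            Real.log_le_log (by positivity) (by linarith)
          rw [log_pow_le (by norm_num), Nat.cast_sub (by omega), Nat.cast_sub (by omega)] at e5
          exact e5
    refine le_trans (CH_mono_cond hp.nonneg fun ω ω' a b hh => ?_) h1
    rw [hZ] at hh
    simp only [Prod.mk.injEq] at hh ⊢
    exact ⟨hh.2.2.1, hh.1, hh.2.1, hh.2.2.2⟩
  have h1 := CH_le_add hp.nonneg (lo n Dg) (lo i Dg) y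
  have h2 := CH_le_add hp.nonneg (lo n Dg) (hi (i + 1) n C) (fun ω => (lo i Dg ω, y ω))
  have h3 := CH_le_add hp.nonneg (lo n Dg) (fun ω => C ω i) Z
  have h2' : CH p (lo n Dg) (fun ω => (hi (i + 1) n C ω, (lo i Dg ω, y ω))) =
      CH p (lo n Dg) Z := by rw [hZ]
  rw [h2'] at h2
  -- the sums
  have s1 : ∑ l ∈ range n, ((J : ℝ) - g l) =
      ∑ l ∈ range i, ((J : ℝ) - g l) + ∑ l ∈ Finset.Ico i n, ((J : ℝ) - g l) := by
    rw [← Finset.sum_range_add_sum_Ico _ hi'.le]
  have s2 : ∑ l ∈ range i, (((J : ℝ) - g l) * Real.log 2 + Real.log 5) =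
      (∑ l ∈ range i, ((J : ℝ) - g l)) * Real.log 2 + i * Real.log 5 := by
    rw [Finset.sum_add_distrib, ← Finset.sum_mul, Finset.sum_const, card_range, nsmul_eq_mul]
  have s3 : ∑ l ∈ Finset.Ico i n, (((J : ℝ) - g l - m) * Real.log 2 + Real.log 5) =
      (∑ l ∈ Finset.Ico i n, ((J : ℝ) - g l)) * Real.log 2 - (n - i) * (m * Real.log 2) +
        (n - i) * Real.log 5 := by
    rw [Finset.sum_add_distrib, ← Finset.sum_mul, Finset.sum_sub_distrib, Finset.sum_const,
      Finset.sum_const, Nat.card_Ico, nsmul_eq_mul, nsmul_eq_mul, Nat.cast_sub hi'.le]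
    ring
  have s4 : ∑ l ∈ range n, (if i < l then m * Real.log 2 + Real.log 5 else 0) =
      (n - i - 1) * (m * Real.log 2 + Real.log 5) := by
    rw [← Finset.sum_filter]
    have e1 : (range n).filter (fun l => i < l) = Finset.Ico (i + 1) n := by
      ext l
      simp only [Finset.mem_filter, mem_range, Finset.mem_Ico]
      omega
    rw [e1, Finset.sum_const, Nat.card_Ico, nsmul_eq_mul, Nat.cast_sub (by omega)]
    push_cast
    ring
  rw [s1] at hful
  rw [s2] at hA
  rw [s3] at hD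
  rw [s4] at hB
  have s5 : 0 ≤ (i : ℝ) * Real.log 5 := by positivity
  linarith

/-- **A polynomial bounded at the points is bounded on the cells.** -/
theorem kfr (n K K₁ : ℕ) (R₀ : ℝ) (hR₀ : 0 ≤ R₀) : ∃ C : ℝ, 1 ≤ C ∧
    ∀ {Ω Γ : Type} [Fintype Ω] {p : Ω → ℝ}, IsLaw p → ∀ (m J : ℕ) (y : Ω → Γ) (g : ℕ → ℕ)
      (Ψ : Ω → ℕ → PN) (Dg : Ω → ℕ → ℤ) (F : Ω → PN) (δ B : ℝ), Det p y Ψ → Det p y F →
      (∀ ω, 0 < p ω → TriN (Ψ ω)) → (∀ ω, 0 < p ω → ∀ i, (Ψ ω i).totalDegree ≤ K) →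
      (∀ ω, 0 < p ω → (F ω).vars ⊆ range n) → (∀ ω, 0 < p ω → (F ω).totalDegree ≤ K₁) →
      (∀ l < n, g l + m ≤ J) →
      (∀ ω, 0 < p ω → ∀ l < n, |nat g (Ψ ω) (gx J (Dg ω)) l| ≤ 1) →
      (∀ ω, 0 < p ω → |eval (gx J (Dg ω)) (F ω)| ≤ B) → 0 ≤ δ → C ≤ m →
      (∑ l ∈ range n, ((J : ℝ) - g l)) * Real.log 2 - δ ≤ CH p (lo n Dg) y →
      Pe p (fun ω => ¬ ∀ b : ℕ → ℝ,
        (∀ l < n, |nat g (Ψ ω) b l - nat g (Ψ ω) (gx J (Dg ω)) l| ≤ R₀ / 2 ^ m) →
        |eval b (F ω)| ≤ C * B) * m ≤ 4 * n * (δ + C) := by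
  classical
  obtain ⟨D, hD⟩ : ∃ D, D = K₁ * (K + 1) ^ n := ⟨_, rfl⟩
  obtain ⟨C₁, hC₁, hlag⟩ := Pool.UNJ.lagm n D (R₀ + 1) (by linarith)
  obtain ⟨N₀, hN₀⟩ : ∃ N₀ : ℕ, N₀ = Fintype.card (Fin n → Fin (D + 1)) * ((D + D) * 5) := ⟨_, rfl⟩
  have hlN : 0 ≤ Real.log N₀ := by
    rcases Nat.eq_zero_or_pos N₀ with h | h
    · rw [h]
      simp
    · exact Real.log_nonneg (by exact_mod_cast h)
  have hl5 : 0 ≤ Real.log 5 := Real.log_nonneg (by norm_num)
  obtain ⟨C, hC⟩ : ∃ C : ℝ, C = C₁ + 4 * Real.log N₀ + (2 * n + 2) * Real.log 5 := ⟨_, rfl⟩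
  have hn5 : 0 ≤ (2 * (n : ℝ) + 2) * Real.log 5 := by positivity
  refine ⟨C, by rw [hC]; linarith, ?_⟩
  intro Ω Γ _ p hp m J y g Ψ Dg F δ B dΨ dF tΨ gΨ vF gF hg hx hF hδ hCm hful
  have hl2 : 1 / 2 ≤ Real.log 2 := by
    have := Real.log_two_gt_d9
    linarith
  have hm0 : (0 : ℝ) ≤ m := Nat.cast_nonneg m
  -- the polynomials in the natural coordinates
  obtain ⟨f, hf⟩ : ∃ f : Ω → PN, f = fun ω => bind₁ (nuc g (Ψ ω)) (F ω) := ⟨_, rfl⟩
  have hfv : ∀ ω, 0 < p ω → (f ω).vars ⊆ range n := fun ω hω => by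
    rw [hf]
    exact Pool.MIC.Frm.vars_fr (tΨ ω hω) (vF ω hω)
  have hfd : ∀ ω, 0 < p ω → (f ω).totalDegree ≤ D := fun ω hω => by
    rw [hf, hD]
    exact Pool.MIC.Frm.deg_fr (tΨ ω hω) (fun i _ => gΨ ω hω i) (vF ω hω) (gF ω hω)
  have hfe : ∀ ω, 0 < p ω → ∀ b : ℕ → ℝ, eval (nat g (Ψ ω) b) (f ω) = eval b (F ω) :=
    fun ω hω b => by
      rw [hf]
      exact Pool.MIC.Frm.eval_fr (tΨ ω hω) b _
  obtain ⟨v, hv⟩ : ∃ v : Ω → ℕ → ℝ, v = fun ω => nat g (Ψ ω) (gx J (Dg ω)) := ⟨_, rfl⟩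
  obtain ⟨c, hc⟩ : ∃ c : Ω → ℕ → ℤ, c = cd m J g Ψ Dg := ⟨_, rfl⟩
  have hcv : ∀ ω l, c ω l = ⌊(2 : ℝ) ^ m * v ω l⌋ := fun ω l => by rw [hc, hv]; rfl
  obtain ⟨NN, hNN⟩ : ∃ NN : ℕ → Ω → Prop, NN = fun i ω => ∀ k : Fin n → Fin (D + 1),
    |eval (nd n D m i (v ω) (c ω) k) (f ω)| ≤ B := ⟨_, rfl⟩
  have htop : ∀ ω, 0 < p ω → NN n ω := by
    intro ω hω
    rw [hNN]
    intro k
    have e1 : eval (nd n D m n (v ω) (c ω) k) (f ω) = eval (v ω) (f ω) := by
      refine Pool.SYS35.eval_congr (hfv ω hω) fun l hl => ?_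
      unfold nd
      rw [if_pos hl]
    rw [e1, hv]
    simp only
    rw [hfe ω hω]
    exact hF ω hω
  -- one coordinate
  have hstep : ∀ i < n, Pe p (fun ω => NN (i + 1) ω ∧ ¬ NN i ω) *
      (m * Real.log 2 + Real.log 5 - Real.log N₀) ≤ δ + C := by
    intro i hi'
    have h1 := low_dig hp dΨ tΨ hg hx hful hi'
    rw [← hc] at h1
    have h2 := bad_prob hp (fun ω => NN (i + 1) ω ∧ ¬ NN i ω) (fun ω => c ω i)
      (fun ω => (hi (i + 1) n c ω, (lo i Dg ω, y ω)))
      (V := m * Real.log 2 + Real.log 5) (b := Real.log N₀) h1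
      (fun q hq hqp => ?_) (fun q hq hqB => ?_)
    · refine h2.trans ?_
      have : Real.log 2 ≤ Real.log 5 := Real.log_le_log (by norm_num) (by norm_num)
      rw [hC]
      nlinarith
    · refine (CH_le_dig hq (fun ω => c ω i) _ (L := 2 * 2 ^ m) fun ω ω' a b _ => ?_).trans ?_
      · rw [hcv, hcv]
        have p0 : (0 : ℝ) < 2 ^ m := by positivity
        have e3 := abs_le.1 (hx ω (hqp ω a) i hi')
        have e4 := abs_le.1 (hx ω' (hqp ω' b) i hi')
        have e5 : v ω i = nat g (Ψ ω) (gx J (Dg ω)) i := by rw [hv]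
        have e6 : v ω' i = nat g (Ψ ω') (gx J (Dg ω')) i := by rw [hv]
        rw [← e5] at e3
        rw [← e6] at e4
        have fl : ∀ t : ℝ, -1 ≤ t → t ≤ 1 → -((2 ^ m : ℕ) : ℤ) ≤ ⌊(2 : ℝ) ^ m * t⌋ ∧
            ⌊(2 : ℝ) ^ m * t⌋ ≤ ((2 ^ m : ℕ) : ℤ) := by
          intro t t1 t2
          constructor
          · rw [Int.le_floor]
            push_cast
            nlinarith
          · have h2 : (2 : ℝ) ^ m * t ≤ 2 ^ m := by nlinarith
            have h3 := (Int.floor_le _).trans h2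
            have h4 : ((⌊(2 : ℝ) ^ m * t⌋ : ℤ) : ℝ) ≤ (((2 ^ m : ℕ) : ℤ) : ℝ) := by
              push_cast
              exact h3
            exact_mod_cast h4
        obtain ⟨f1, f2⟩ := fl _ e3.1 e3.2
        obtain ⟨f3, f4⟩ := fl _ e4.1 e4.2
        have f5 : |⌊(2 : ℝ) ^ m * v ω i⌋ - ⌊(2 : ℝ) ^ m * v ω' i⌋| ≤ 2 * ((2 ^ m : ℕ) : ℤ) := by
          rw [abs_le]
          constructor <;> linarith
        have f6 : ((|⌊(2 : ℝ) ^ m * v ω i⌋ - ⌊(2 : ℝ) ^ m * v ω' i⌋| : ℤ) : ℝ) ≤
            ((2 * ((2 ^ m : ℕ) : ℤ) : ℤ) : ℝ) := by exact_mod_cast f5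
        rw [Int.cast_abs] at f6
        refine f6.trans (le_of_eq ?_)
        push_cast
        ring
      · have p1 : (1 : ℝ) ≤ 2 ^ m := one_le_pow₀ (by norm_num)
        have e5 : Real.log (2 * (2 * 2 ^ m) + 1) ≤ Real.log (5 * 2 ^ m) :=
          Real.log_le_log (by positivity) (by linarith)
        rw [log_pow_le (by norm_num)] at e5
        exact e5
    · refine CH_le_N hq _ _ N₀ fun ω₀ h0 => ?_
      obtain ⟨hp0, -⟩ := hqB ω₀ h0
      obtain ⟨S, hS1, hS2⟩ := bad_fin D (ndq n D m i (v ω₀) (c ω₀) (f ω₀))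
        (ndq_deg (hfd ω₀ hp0)) B m
      refine ⟨S, by rw [hN₀]; exact hS1, fun ω hω hh => ?_⟩
      obtain ⟨hpω, hN1, hN2⟩ := hqB ω hω
      simp only [Prod.mk.injEq] at hh
      obtain ⟨e1, e2, e3⟩ := hh
      have eΨ : Ψ ω = Ψ ω₀ := dΨ ω ω₀ hpω hp0 e3
      have eF : F ω = F ω₀ := dF ω ω₀ hpω hp0 e3
      have ef : f ω = f ω₀ := by rw [hf]; simp only [eΨ, eF]
      have ev : ∀ l < i, v ω l = v ω₀ l := by
        intro l hl
        rw [hv]
        simp only
        rw [eΨ]
        refine nat_congr (tΨ ω₀ hp0) fun k hk => ?_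
        unfold gx
        rw [lo_eq e2 (by omega : k < i)]
      have ec : ∀ l, i < l → l < n → c ω l = c ω₀ l := fun l h1 h2 => hi_eq e1 (by omega) h2
      rw [hNN] at hN1 hN2
      simp only at hN1 hN2
      push Not at hN2
      obtain ⟨k, hk⟩ := hN2
      have p0 : (0 : ℝ) < 2 ^ m := by positivity
      have hcell : ∀ k' : Fin (D + 1), |((c ω i : ℝ) + ((k' : Fin (D + 1)) : ℕ) / (D + 1)) / 2 ^ m -
          v ω i| ≤ 1 / 2 ^ m := by
        intro k'
        have g1 := Int.floor_le ((2 : ℝ) ^ m * v ω i)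
        have g2 := Int.lt_floor_add_one ((2 : ℝ) ^ m * v ω i)
        rw [← hcv] at g1 g2
        have g3 : (0 : ℝ) ≤ ((k' : Fin (D + 1)) : ℕ) / ((D : ℝ) + 1) := by positivity
        have g4 : ((k' : Fin (D + 1)) : ℕ) / ((D : ℝ) + 1) ≤ 1 := by
          rw [div_le_one (by positivity)]
          have := k'.2
          have h5 : (((k' : Fin (D + 1)) : ℕ) : ℝ) ≤ ((D + 1 : ℕ) : ℝ) := by exact_mod_cast this.le
          push_cast at h5
          exact h5
        have g5 : ((c ω i : ℝ) + ((k' : Fin (D + 1)) : ℕ) / (D + 1)) / 2 ^ m - v ω i =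
            ((c ω i : ℝ) + ((k' : Fin (D + 1)) : ℕ) / (D + 1) - 2 ^ m * v ω i) / 2 ^ m := by
          field_simp
        rw [g5, abs_div, abs_of_pos p0]
        refine div_le_div_of_nonneg_right ?_ p0.le
        rw [abs_le]
        constructor <;> linarith
      have hq1 : ∀ (s : ℝ) (k' : Fin n → Fin (D + 1)),
          (ndq n D m i (v ω₀) (c ω₀) (f ω₀) k').eval s =
          eval (fun l => if l = i then s else nd n D m i (v ω) (c ω) k' l) (f ω) := by
        intro s k'
        rw [ndq_eval, ef]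
        refine Pool.SYS35.eval_congr (hfv ω₀ hp0) fun l hl => ?_
        split_ifs with h1
        · rfl
        · unfold nd
          split_ifs with h2
          · exact (ev l h2).symm
          · rw [ec l (by omega) hl]
      have hmem := hS2 (v ω i)
        (((c ω i : ℝ) + ((k ⟨i, hi'⟩ : Fin (D + 1)) : ℕ) / (D + 1)) / 2 ^ m) k ?_ ?_
        (hcell _)
      · rw [← hcv] at hmem
        exact hmem
      · rw [hq1]
        have e5 : eval (fun l => if l = i then v ω i else nd n D m i (v ω) (c ω) k l) (f ω) =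
            eval (nd n D m (i + 1) (v ω) (c ω) k) (f ω) := by
          refine Pool.SYS35.eval_congr (hfv ω hpω) fun l hl => ?_
          unfold nd
          by_cases h1 : l = i
          · rw [if_pos h1, if_pos (by omega), h1]
          · rw [if_neg h1]
            by_cases h2 : l < i
            · rw [if_pos h2, if_pos (by omega)]
            · rw [if_neg h2, if_neg (by omega)]
        rw [e5]
        exact hN1 k
      · rw [hq1]
        have e5 : eval (fun l => if l = i then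
            ((c ω i : ℝ) + ((k ⟨i, hi'⟩ : Fin (D + 1)) : ℕ) / (D + 1)) / 2 ^ m
            else nd n D m i (v ω) (c ω) k l) (f ω) =
            eval (nd n D m i (v ω) (c ω) k) (f ω) := by
          refine Pool.SYS35.eval_congr (hfv ω hpω) fun l hl => ?_
          by_cases h1 : l = i
          · subst h1
            rw [if_pos rfl]
            unfold nd
            rw [if_neg (lt_irrefl _), dif_pos hi']
          · rw [if_neg h1]
        rw [e5]
        exact hk
  -- the event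
  have hT : (m : ℝ) / 4 ≤ m * Real.log 2 + Real.log 5 - Real.log N₀ := by
    have h1 : 4 * Real.log N₀ ≤ m := by
      refine le_trans ?_ hCm
      rw [hC]
      linarith
    nlinarith
  have hsum : Pe p (fun ω => ¬ NN 0 ω) ≤
      ∑ i ∈ range n, Pe p (fun ω => NN (i + 1) ω ∧ ¬ NN i ω) := by
    have e : ∀ A : Ω → Prop, Pe p A = ∑ ω, if A ω then p ω else 0 := fun A => by
      rw [Pe_eq]
    simp only [e]
    rw [Finset.sum_comm]
    refine Finset.sum_le_sum fun ω _ => ?_
    by_cases hb : NN 0 ω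
    · rw [if_neg (not_not.2 hb)]
      refine Finset.sum_nonneg fun j _ => ?_
      split_ifs
      · exact hp.nonneg ω
      · exact le_rfl
    · rw [if_pos hb]
      rcases (hp.nonneg ω).eq_or_lt with h0 | h0
      · rw [← h0]
        simp
      · -- the first good level
        have hex : ∃ i, NN i ω := ⟨n, htop ω h0⟩
        obtain ⟨j, hj⟩ : ∃ j, j = Nat.find hex := ⟨_, rfl⟩
        have hj1 : NN j ω := by rw [hj]; exact Nat.find_spec hex
        have hj0 : j ≠ 0 := fun h => hb (by rw [← h]; exact hj1)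
        have hjn : j ≤ n := by rw [hj]; exact Nat.find_min' hex (htop ω h0)
        have hj2 : ¬ NN (j - 1) ω := by
          have : j - 1 < Nat.find hex := by omega
          exact Nat.find_min hex this
        have h3 := Finset.single_le_sum (f := fun i => if NN (i + 1) ω ∧ ¬ NN i ω then p ω else 0)
          (s := range n) (fun i _ => by split_ifs <;> [exact h0.le; exact le_rfl])
          (mem_range.2 (by omega : j - 1 < n))
        have h4 : j - 1 + 1 = j := by omega
        simp only [h4, hj1, hj2, not_false_eq_true, and_self, if_true] at h3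
        refine h3.trans (le_of_eq (Finset.sum_congr rfl fun x _ => ?_))
        by_cases hx' : NN (x + 1) ω ∧ ¬ NN x ω
        · rw [if_pos hx', if_pos hx']
        · rw [if_neg hx', if_neg hx']
  have hmain : Pe p (fun ω => ¬ NN 0 ω) * m ≤ 4 * n * (δ + C) := by
    have h1 : Pe p (fun ω => ¬ NN 0 ω) * (m / 4) ≤ n * (δ + C) := by
      have h2 : Pe p (fun ω => ¬ NN 0 ω) * (m / 4) ≤
          ∑ i ∈ range n, Pe p (fun ω => NN (i + 1) ω ∧ ¬ NN i ω) *
            (m * Real.log 2 + Real.log 5 - Real.log N₀) := by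
        rw [← Finset.sum_mul]
        exact mul_le_mul hsum hT (by positivity) (Finset.sum_nonneg fun i _ => Pe_nonneg hp _)
      refine h2.trans ?_
      have h3 := Finset.sum_le_card_nsmul (range n) _ _ fun i hi' => hstep i (mem_range.1 hi')
      rw [card_range, nsmul_eq_mul] at h3
      exact h3
    linarith
  refine le_trans (mul_le_mul_of_nonneg_right ?_ hm0) hmain
  rw [← Pb_Pe, ← Pb_Pe]
  refine Pool.MIC.Frm.Pb_supp hp.nonneg fun ω hω hb => ?_
  -- the box from the nodes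
  intro hb0
  refine hb fun b hb' => ?_
  have p0 : (0 : ℝ) < 2 ^ m := by positivity
  obtain ⟨Q, hQ⟩ : ∃ Q : MvPolynomial (Fin n) ℝ, Q = aeval (fun j => if h : j < n then
    MvPolynomial.C (1 / 2 ^ m) * (X ⟨j, h⟩ + MvPolynomial.C (c ω j : ℝ)) else 0) (f ω) := ⟨_, rfl⟩
  have hQe : ∀ u : Fin n → ℝ, eval u Q = eval (fun j => if h : j < n then
      (u ⟨j, h⟩ + c ω j) / 2 ^ m else 0) (f ω) := by
    intro u
    rw [hQ, eval_aev]
    congr 2
    funext j
    split_ifs with h
    · rw [map_mul, eval_C, map_add, eval_X, eval_C]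
      ring
    · rw [map_zero]
  have hQd : Q.totalDegree ≤ D := by
    refine le_trans ?_ (hfd ω hω)
    rw [hQ, aeval_def, eval₂_eq]
    refine totalDegree_finsetSum_le fun d hd => ?_
    refine (totalDegree_mul _ _).trans ?_
    have h0 : (algebraMap ℝ (MvPolynomial (Fin n) ℝ) (coeff d (f ω))).totalDegree = 0 := by
      rw [algebraMap_eq, totalDegree_C]
    rw [h0, zero_add]
    refine (totalDegree_finsetProd _ _).trans ?_
    refine (Finset.sum_le_sum (g := fun j => d j) fun j _ => ?_).trans (le_totalDegree hd)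
    refine (totalDegree_pow _ _).trans ?_
    calc d j * _ ≤ d j * 1 := by
          refine Nat.mul_le_mul_left _ ?_
          split_ifs
          · refine (totalDegree_mul _ _).trans ?_
            rw [totalDegree_C, zero_add]
            refine (totalDegree_add _ _).trans (max_le ?_ ?_)
            · exact (totalDegree_X _).le
            · rw [totalDegree_C]
              exact Nat.zero_le _
          · rw [totalDegree_zero]
            exact Nat.zero_le _
      _ = d j := Nat.mul_one _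
  have h1 := hlag Q B hQd (fun k => by
    rw [hQe]
    have h2 : |eval (nd n D m 0 (v ω) (c ω) k) (f ω)| ≤ B := by
      rw [hNN] at hb0
      exact hb0 k
    refine le_trans (le_of_eq ?_) h2
    congr 1
    refine Pool.SYS35.eval_congr (hfv ω hω) fun l hl => ?_
    unfold nd
    rw [dif_pos hl, if_neg (Nat.not_lt_zero _), dif_pos hl]
    ring) (fun k => 2 ^ m * nat g (Ψ ω) b k - c ω k) (fun k => by
      have g1 := Int.floor_le ((2 : ℝ) ^ m * v ω k)
      have g2 := Int.lt_floor_add_one ((2 : ℝ) ^ m * v ω k)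
      rw [← hcv] at g1 g2
      have g3 := abs_le.1 (hb' k k.2)
      have e1 : v ω k = nat g (Ψ ω) (gx J (Dg ω)) k := by rw [hv]
      rw [← e1] at g3
      have g4 : 2 ^ m * (nat g (Ψ ω) b k - v ω k) ≤ R₀ := by
        have := mul_le_mul_of_nonneg_left g3.2 p0.le
        rwa [mul_div_cancel₀ _ p0.ne'] at this
      have g5 : -R₀ ≤ 2 ^ m * (nat g (Ψ ω) b k - v ω k) := by
        have := mul_le_mul_of_nonneg_left g3.1 p0.le
        rwa [mul_neg, mul_div_cancel₀ _ p0.ne'] at this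
      rw [abs_le]
      constructor <;> linarith)
  have h2 : eval (fun k : Fin n => 2 ^ m * nat g (Ψ ω) b k - (c ω k : ℝ)) Q = eval b (F ω) := by
    rw [hQe, ← hfe ω hω]
    refine Pool.SYS35.eval_congr (hfv ω hω) fun l hl => ?_
    rw [dif_pos hl]
    field_simp
    ring
  rw [h2] at h1
  refine h1.trans (mul_le_mul_of_nonneg_right ?_ ((abs_nonneg _).trans (hF ω hω)))
  rw [hC]
  linarith

end laws

end Pool.TUB
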