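import Pool.Agent.H20.MIC.Ctx
import Pool.Agent.H3.JM.Wlk
import Pool.Agent.H81.JM.Brg

/-!
# Leaves in natural coordinates

`uni0`: the entropic Remez inequality on natural boxes where all the coordinates are random.
`lfa`: the coefficients of the difference of a polynomial and of the reference polynomial in the
natural coordinates, scaled to the unit cube; `unl`: the polynomial with given coefficients.
-/

set_option autoImplicit false

namespace Pool.TUB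

open Finset Real MvPolynomial
open Pool.Agent.H49.Ent Pool.Agent.H32.Dense Pool.STK Pool.STAT
open Pool.BFL (Pb)
open Pool.MIC.Frm (nat pt)
open Pool.JMN (ev)

/-! ### One more coordinate in front -/

/-- The system with one more coordinate in front. -/
noncomputable def shS (Ψ : ℕ → PN) : ℕ → PN
  | 0 => 0
  | i + 1 => rename Nat.succ (Ψ i)

/-- The precisions with one more coordinate in front. -/
def gS (g : ℕ → ℕ) : ℕ → ℕ
  | 0 => 0
  | i + 1 => g i

/-- The point with one more coordinate in front. -/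
def xS (x : ℕ → ℝ) : ℕ → ℝ
  | 0 => 0
  | i + 1 => x i

theorem eval_succ (b : ℕ → ℝ) (F : PN) :
    eval (xS b) (rename Nat.succ F) = eval b F := by
  rw [eval_rename]
  rfl

theorem vars_succ {F : PN} {n : ℕ} (h : F.vars ⊆ range n) :
    (rename Nat.succ F).vars ⊆ range (n + 1) := by
  classical
  intro k hk
  have h1 := vars_rename Nat.succ F hk
  obtain ⟨j, hj, rfl⟩ := Finset.mem_image.1 h1
  have := mem_range.1 (h hj)
  exact mem_range.2 (by omega)

theorem shS_tri {Ψ : ℕ → PN} (h : TriN Ψ) : TriN (shS Ψ) := by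
  intro i
  cases i with
  | zero =>
    show (0 : PN).vars ⊆ _
    rw [vars_0]
    exact Finset.empty_subset _
  | succ i => exact vars_succ (h i)

theorem nat_shS (g : ℕ → ℕ) (Ψ : ℕ → PN) (b : ℕ → ℝ) (i : ℕ) :
    nat (gS g) (shS Ψ) (xS b) (i + 1) = nat g Ψ b i := by
  unfold nat
  show (2 : ℝ) ^ g i * (b i - eval (xS b) (rename Nat.succ (Ψ i))) = _
  rw [eval_succ]

/-- **The entropic Remez inequality on natural boxes**, all the coordinates are random. -/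
theorem uni0 (n K : ℕ) (R : ℝ) (hR : 0 ≤ R) : ∃ C : ℝ, 1 ≤ C ∧
    ∀ (Ω Y : Type) [Fintype Ω] (q : Ω → ℝ) (L : ℕ) (y : Ω → Y) (g : ℕ → ℕ)
      (Ψ : Ω → ℕ → PN) (F : Ω → PN) (x : Ω → ℕ → ℝ) (τ θ η : ℝ),
      IsLaw q → Det q y Ψ → Det q y F →
      (∀ ω, 0 < q ω → TriN (Ψ ω)) → (∀ ω, 0 < q ω → ∀ i, (Ψ ω i).totalDegree ≤ K) →
      (∀ ω, 0 < q ω → (F ω).vars ⊆ range n) → (∀ ω, 0 < q ω → (F ω).totalDegree ≤ K) →
      0 < τ → 0 ≤ θ → 0 < η → η ≤ 1 →
      (∀ ω, 0 < q ω → ∀ i < n, |nat g (Ψ ω) (x ω) i| ≤ 1) →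
      n * (L * Real.log 2) - θ ≤
        CH q (fun ω (i : Fin n) => ⌊(2 : ℝ) ^ L * nat g (Ψ ω) (x ω) i⌋) y →
      C * (θ + 1) / η ≤ L * Real.log 2 →
      (∀ ω, 0 < q ω → |eval (x ω) (F ω)| ≤ τ) →
      Pb q (fun ω => ¬ ∀ b : ℕ → ℝ, (∀ i < n, |nat g (Ψ ω) b i| ≤ R) →
        |eval b (F ω)| ≤ Real.exp (C * (θ + 1) / η) * τ) ≤ η := by
  obtain ⟨C, hC, h⟩ := Pool.MIC.Frm.uni_ctx n K R hR
  refine ⟨C, hC, ?_⟩
  intro Ω Y _ q L y g Ψ F x τ θ η hq dΨ dF tΨ gΨ vF gF hτ hθ hη hη1 hx hH hL hF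
  refine le_trans (Pool.MIC.Frm.Pb_supp hq.nonneg fun ω hω hb => ?_)
    (h n le_rfl Ω Y q L y (gS g) (fun ω => shS (Ψ ω)) (fun ω => rename Nat.succ (F ω))
      (fun ω => xS (x ω)) τ θ η hq (fun _ _ _ _ _ => rfl) ?_ ?_ (fun ω hω => shS_tri (tΨ ω hω))
      ?_ (fun ω hω => vars_succ (vF ω hω)) ?_ hτ hθ hη hη1 ?_ ?_ hL ?_)
  · intro hc
    refine hb fun b hb' => ?_
    have h1 := hc (xS b) rfl fun i hi hi' => by
      obtain ⟨j, rfl⟩ : ∃ j, i = j + 1 := ⟨i - 1, by omega⟩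
      rw [nat_shS]
      exact hb' j (by omega)
    rw [eval_succ] at h1
    exact h1
  · intro ω ω' a b hh
    have := dΨ ω ω' a b hh
    simp only [this]
  · intro ω ω' a b hh
    have := dF ω ω' a b hh
    simp only [this]
  · intro ω hω i
    cases i with
    | zero =>
      show (0 : PN).totalDegree ≤ K
      rw [totalDegree_zero]
      exact Nat.zero_le _
    | succ i => exact (totalDegree_rename_le _ _).trans (gΨ ω hω i)
  · intro ω hω
    exact (totalDegree_rename_le _ _).trans (gF ω hω)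
  · intro ω hω i hi hi'
    obtain ⟨j, rfl⟩ : ∃ j, i = j + 1 := ⟨i - 1, by omega⟩
    rw [nat_shS]
    exact hx ω hω j (by omega)
  · have e : (fun ω (i : Fin n) => ⌊(2 : ℝ) ^ L *
        nat (gS g) (shS (Ψ ω)) (xS (x ω)) ((i : ℕ) + 1)⌋) =
        fun ω (i : Fin n) => ⌊(2 : ℝ) ^ L * nat g (Ψ ω) (x ω) i⌋ := by
      funext ω i
      rw [nat_shS]
    rw [e]
    exact hH
  · intro ω hω
    rw [eval_succ]
    exact hF ω hω

/-! ### The coefficients -/

theorem eval_aev {σ τ : Type*} (y : τ → ℝ) (u : σ → MvPolynomial τ ℝ) (f : MvPolynomial σ ℝ) :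
    eval y (aeval u f) = eval (fun j => eval y (u j)) f := by
  induction f using MvPolynomial.induction_on with
  | C a => simp
  | add p q hp hq => simp only [map_add, hp, hq]
  | mul_X p i hp => simp only [map_mul, hp, aeval_X, eval_X]

/-- A polynomial on the cube. -/
noncomputable def cub (n : ℕ) (S : ℝ) (f : PN) : MvPolynomial (Fin n) ℝ :=
  C S * aeval (fun j => if h : j < n then C 4 * X ⟨j, h⟩ - C 2 else 0) f

theorem eval_cub {n : ℕ} (S : ℝ) (f : PN) (y : Fin n → ℝ) :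
    eval y (cub n S f) = S * eval (fun j => if h : j < n then 4 * y ⟨j, h⟩ - 2 else 0) f := by
  unfold cub
  rw [map_mul, eval_C, eval_aev]
  congr 2
  congr 1
  funext j
  split_ifs with h
  · rw [map_sub, map_mul, eval_C, eval_X, eval_C]
  · rw [map_zero]

theorem deg_cub (n : ℕ) (S : ℝ) (f : PN) : (cub n S f).totalDegree ≤ f.totalDegree := by
  unfold cub
  refine (totalDegree_mul _ _).trans ?_
  rw [totalDegree_C, zero_add, aeval_def, eval₂_eq]
  refine totalDegree_finsetSum_le fun d hd => ?_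
  refine (totalDegree_mul _ _).trans ?_
  have h0 : (algebraMap ℝ (MvPolynomial (Fin n) ℝ) (coeff d f)).totalDegree = 0 := by
    rw [algebraMap_eq, totalDegree_C]
  rw [h0, zero_add]
  refine (totalDegree_finsetProd _ _).trans ?_
  refine (Finset.sum_le_sum (g := fun j => d j) fun j _ => ?_).trans (le_totalDegree hd)
  refine (totalDegree_pow _ _).trans ?_
  calc d j * _ ≤ d j * 1 := by
        refine Nat.mul_le_mul_left _ ?_
        split_ifs
        · refine (totalDegree_sub _ _).trans (max_le ?_ ?_)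
          · refine (totalDegree_mul _ _).trans ?_
            rw [totalDegree_C, zero_add]
            exact (totalDegree_X _).le
          · rw [totalDegree_C]
            exact Nat.zero_le _
        · rw [totalDegree_zero]
          exact Nat.zero_le _
    _ = d j := Nat.mul_one _

/-- The natural coordinates, scaled to the cube. -/
noncomputable def cu (n : ℕ) (g : ℕ → ℕ) (Ψ : ℕ → PN) (b : ℕ → ℝ) (i : Fin n) : ℝ :=
  (nat g Ψ b i + 2) / 4

/-- **The coefficients of a polynomial over a reference system**, in the coordinates of the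
cube. -/
noncomputable def lfa (n K₁ : ℕ) (g : ℕ → ℕ) (Ψ : ℕ → PN) (Q : PN) :
    (Fin n → Fin (K₁ + 1)) → ℝ :=
  Pool.JMN.arr K₁ (cub n (2 ^ g n) (bind₁ (nuc g Ψ) (Q - Ψ n)))

theorem ev_lfa {n K : ℕ} {g : ℕ → ℕ} {Ψ : ℕ → PN} {Q : PN} (hΨ : TriN Ψ)
    (dΨ : ∀ i, (Ψ i).totalDegree ≤ K) (hv : Q.vars ⊆ range n) (hQ : Q.totalDegree ≤ K)
    (b : ℕ → ℝ) : ev (lfa n (K * (K + 1) ^ n) g Ψ Q) (cu n g Ψ b) =
      2 ^ g n * (eval b Q - eval b (Ψ n)) := by
  have hvF : (Q - Ψ n).vars ⊆ range n := AdxRow.vars_sub_le hv (hΨ n)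
  have hdF : (Q - Ψ n).totalDegree ≤ K := (totalDegree_sub _ _).trans (max_le hQ (dΨ n))
  unfold lfa
  rw [Pool.JMN.ev_arr_tot ((deg_cub _ _ _).trans
    (Pool.MIC.Frm.deg_fr hΨ (fun i _ => dΨ i) hvF hdF)), eval_cub]
  congr 1
  have e1 : eval (fun j => if h : j < n then 4 * cu n g Ψ b ⟨j, h⟩ - 2 else 0)
      (bind₁ (nuc g Ψ) (Q - Ψ n)) = eval (nat g Ψ b) (bind₁ (nuc g Ψ) (Q - Ψ n)) := by
    refine Pool.SYS35.eval_congr (Pool.MIC.Frm.vars_fr hΨ hvF) fun i hi => ?_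
    rw [dif_pos hi]
    unfold cu
    ring
  rw [e1, Pool.MIC.Frm.eval_fr hΨ, map_sub]

/-- The coefficients from the values on the box. -/
theorem lfa_le (n K : ℕ) : ∃ C : ℝ, 1 ≤ C ∧ ∀ {g : ℕ → ℕ} {Ψ : ℕ → PN} {Q : PN} {S : ℝ},
    TriN Ψ → (∀ i, (Ψ i).totalDegree ≤ K) → Q.vars ⊆ range n → Q.totalDegree ≤ K →
    (∀ b : ℕ → ℝ, (∀ i < n, |nat g Ψ b i| ≤ 2) → |eval b (Q - Ψ n)| ≤ S / 2 ^ g n) →
    ∀ al, |lfa n (K * (K + 1) ^ n) g Ψ Q al| ≤ C * S := by
  obtain ⟨C, hC, h⟩ := Pool.JMN.coef_le n (K * (K + 1) ^ n)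
  refine ⟨C, hC, ?_⟩
  intro g Ψ Q S hΨ dΨ hv hQ hb al
  have h1 := h (lfa n (K * (K + 1) ^ n) g Ψ Q) 1 S one_pos (fun x hx => ?_) al
  · rwa [one_pow, mul_one] at h1
  · obtain ⟨b, hb'⟩ : ∃ b : ℕ → ℝ, b = pt g Ψ (fun j => if h : j < n then 4 * x ⟨j, h⟩ - 2 else 0) :=
      ⟨_, rfl⟩
    have hnat : nat g Ψ b = fun j => if h : j < n then 4 * x ⟨j, h⟩ - 2 else 0 := by
      rw [hb']
      exact Pool.MIC.Frm.nat_pt hΨ _
    have hcu : cu n g Ψ b = x := by
      funext i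
      unfold cu
      rw [hnat]
      simp only [i.2, dif_pos, Fin.eta]
      ring
    have h2 := ev_lfa (g := g) hΨ dΨ hv hQ b
    rw [hcu] at h2
    rw [h2, abs_mul, abs_of_pos (by positivity)]
    have h3 := hb b fun i hi => by
      rw [hnat]
      simp only [hi, dif_pos]
      obtain ⟨h4, h5⟩ := hx ⟨i, hi⟩
      rw [abs_le]
      constructor <;> linarith
    rw [map_sub, le_div_iff₀ (by positivity)] at h3
    linarith

/-- The polynomial with given coefficients. -/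
noncomputable def unl (n K₁ : ℕ) (g : ℕ → ℕ) (Ψ : ℕ → PN) (q : (Fin n → Fin (K₁ + 1)) → ℝ) : PN :=
  Ψ n + C (1 / 2 ^ g n) * ∑ al, C (q al) *
    ∏ i : Fin n, (C (2 ^ g i / 4) * (X (i : ℕ) - Ψ i) + C (1 / 2)) ^ (al i : ℕ)

theorem eval_unl {n K₁ : ℕ} {g : ℕ → ℕ} {Ψ : ℕ → PN} {q : (Fin n → Fin (K₁ + 1)) → ℝ}
    (b : ℕ → ℝ) : eval b (unl n K₁ g Ψ q) = eval b (Ψ n) + 1 / 2 ^ g n * ev q (cu n g Ψ b) := by
  unfold unl Pool.JMN.ev
  rw [map_add, map_mul, eval_C, map_sum]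
  congr 2
  refine Finset.sum_congr rfl fun al _ => ?_
  rw [map_mul, eval_C, map_prod]
  congr 1
  refine Finset.prod_congr rfl fun i _ => ?_
  rw [map_pow]
  congr 1
  rw [map_add, map_mul, eval_C, eval_C, map_sub, eval_X]
  unfold cu nat
  ring

theorem vars_unl {n K₁ : ℕ} {g : ℕ → ℕ} {Ψ : ℕ → PN} {q : (Fin n → Fin (K₁ + 1)) → ℝ}
    (hΨ : TriN Ψ) : (unl n K₁ g Ψ q).vars ⊆ range n := by
  classical
  have hm : ∀ {F G : PN}, F.vars ⊆ range n → G.vars ⊆ range n → (F * G).vars ⊆ range n :=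
    fun h1 h2 => (vars_mul _ _).trans (Finset.union_subset h1 h2)
  have ha : ∀ {F G : PN}, F.vars ⊆ range n → G.vars ⊆ range n → (F + G).vars ⊆ range n :=
    fun h1 h2 => (vars_add_subset _ _).trans (Finset.union_subset h1 h2)
  have hc : ∀ r : ℝ, (C r : PN).vars ⊆ range n := fun r => by
    rw [vars_C]
    exact Finset.empty_subset _
  unfold unl
  refine ha (hΨ n) (hm (hc _) ?_)
  refine (vars_sum_subset _ _).trans (Finset.biUnion_subset.2 fun al _ => hm (hc _) ?_)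
  refine (vars_prod _).trans (Finset.biUnion_subset.2 fun i _ => ?_)
  refine (vars_pow _ _).trans (ha (hm (hc _) ?_) (hc _))
  refine AdxRow.vars_sub_le ?_ ((hΨ i).trans (Finset.range_mono i.2.le))
  rw [vars_X]
  intro k hk
  rw [Finset.mem_singleton.1 hk]
  exact mem_range.2 i.2

theorem deg_unl {n K₁ K : ℕ} {g : ℕ → ℕ} {Ψ : ℕ → PN} {q : (Fin n → Fin (K₁ + 1)) → ℝ}
    (dΨ : ∀ i, (Ψ i).totalDegree ≤ K) : (unl n K₁ g Ψ q).totalDegree ≤ K + n * (K₁ * (K + 1)) := by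
  unfold unl
  refine (totalDegree_add _ _).trans (max_le ((dΨ n).trans (Nat.le_add_right _ _)) ?_)
  refine (totalDegree_mul _ _).trans ?_
  rw [totalDegree_C, zero_add]
  refine totalDegree_finsetSum_le fun al _ => ?_
  refine (totalDegree_mul _ _).trans ?_
  rw [totalDegree_C, zero_add]
  refine (totalDegree_finsetProd _ _).trans ?_
  have h1 : ∀ i : Fin n, ((C (2 ^ g i / 4) * (X (i : ℕ) - Ψ i) + C (1 / 2) : PN) ^
      (al i : ℕ)).totalDegree ≤ K₁ * (K + 1) := by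
    intro i
    refine (totalDegree_pow _ _).trans (Nat.mul_le_mul (Nat.lt_succ_iff.mp (al i).isLt) ?_)
    refine (totalDegree_add _ _).trans (max_le ?_ ?_)
    · refine (totalDegree_mul _ _).trans ?_
      rw [totalDegree_C, zero_add]
      refine (totalDegree_sub _ _).trans (max_le ?_ ((dΨ i).trans (Nat.le_succ _)))
      rw [totalDegree_X]
      omega
    · rw [totalDegree_C]
      exact Nat.zero_le _
  refine (Finset.sum_le_sum fun i _ => h1 i).trans ?_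
  rw [Finset.sum_const, Finset.card_univ, Fintype.card_fin, smul_eq_mul]
  omega

/-- **Near coefficients give near polynomials.** -/
theorem unl_near (n K : ℕ) (R : ℝ) : ∃ C : ℝ, 1 ≤ C ∧ ∀ {g : ℕ → ℕ} {Ψ : ℕ → PN} {Q : PN}
    {q : (Fin n → Fin (K * (K + 1) ^ n + 1)) → ℝ} {ε : ℝ},
    TriN Ψ → (∀ i, (Ψ i).totalDegree ≤ K) → Q.vars ⊆ range n → Q.totalDegree ≤ K →
    (∀ al, |lfa n (K * (K + 1) ^ n) g Ψ Q al - q al| ≤ ε) → ∀ b : ℕ → ℝ,
    (∀ i < n, |nat g Ψ b i| ≤ R) →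
    |eval b (unl n (K * (K + 1) ^ n) g Ψ q) - eval b Q| ≤ C * ε / 2 ^ g n := by
  obtain ⟨ρ, hρ⟩ : ∃ ρ : ℝ, ρ = max 1 ((R + 2) / 4) := ⟨_, rfl⟩
  have hρ1 : 1 ≤ ρ := by rw [hρ]; exact le_max_left _ _
  have hρ2 : (R + 2) / 4 ≤ ρ := by rw [hρ]; exact le_max_right _ _
  refine ⟨(((K * (K + 1) ^ n : ℕ) : ℝ) + 1) ^ n * ρ ^ (n * (K * (K + 1) ^ n)), ?_, ?_⟩
  · have h1 : (1 : ℝ) ≤ (((K * (K + 1) ^ n : ℕ) : ℝ) + 1) ^ n := one_le_pow₀ (by
      have : (0 : ℝ) ≤ ((K * (K + 1) ^ n : ℕ) : ℝ) := Nat.cast_nonneg _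
      linarith)
    exact one_le_mul_of_one_le_of_one_le h1 (one_le_pow₀ hρ1)
  · intro g Ψ Q q ε hΨ dΨ hv hQ hq b hb
    have hε : 0 ≤ ε := (abs_nonneg _).trans (hq fun _ => 0)
    have h1 := ev_lfa (g := g) hΨ dΨ hv hQ b
    have h2 : eval b Q = eval b (Ψ n) + 1 / 2 ^ g n * ev (lfa n (K * (K + 1) ^ n) g Ψ Q) (cu n g Ψ b) := by
      rw [h1]
      field_simp
      ring
    have h3 : eval b (unl n (K * (K + 1) ^ n) g Ψ q) - eval b Q =
        -(1 / 2 ^ g n * ev (fun al => lfa n (K * (K + 1) ^ n) g Ψ Q al - q al) (cu n g Ψ b)) := by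
      rw [eval_unl, h2, Pool.JMN.ev_sub]
      ring
    rw [h3, abs_neg, abs_mul, abs_of_pos (by positivity : (0 : ℝ) < 1 / 2 ^ g n)]
    have h4 := Pool.JMN.ev_le (q := fun al => lfa n (K * (K + 1) ^ n) g Ψ Q al - q al) (ρ := ρ)
      (m := ε * ρ ^ (n * (K * (K + 1) ^ n))) (fun al => mul_le_mul (hq al)
        (pow_le_pow_right₀ hρ1 (Pool.JMN.tdg_le al)) (by positivity) hε)
      (x := cu n g Ψ b) fun i => by
        unfold cu
        have h5 := abs_le.1 (hb i i.2)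
        refine le_trans ?_ hρ2
        rw [abs_le]
        constructor <;> linarith
    calc 1 / 2 ^ g n * |ev (fun al => lfa n (K * (K + 1) ^ n) g Ψ Q al - q al) (cu n g Ψ b)|
        ≤ 1 / 2 ^ g n * ((((K * (K + 1) ^ n : ℕ) : ℝ) + 1) ^ n * (ε * ρ ^ (n * (K * (K + 1) ^ n)))) :=
          mul_le_mul_of_nonneg_left h4 (by positivity)
      _ = _ := by ring

end Pool.TUB
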